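import Mathlib
import Pool.Agent.Work.MP_afef76_ag.Defs

/-! Bundle of small proof modules (one section per former module). -/

section

/-!
# Basic facts on polynomials in three variables used for `MP_afef76_ag`
-/

set_option autoImplicit false

namespace Pool.Agent.MPafef76

open MvPolynomial

/-- Coordinate ring of affine three-space. -/
abbrev P3 := MvPolynomial (Fin 3) ℂ

/-- The gradient of `f` at `p`. -/
noncomputable def grad (f : P3) (p : Fin 3 → ℂ) : Fin 3 → ℂ := fun i => eval p (pderiv i f)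

/-- A homogeneous polynomial evaluated at `t • y`. -/
lemma aeval_mul_homog {S : Type*} [CommRing S] [Algebra ℂ S] {f : P3} {n : ℕ}
    (hf : f.IsHomogeneous n) (t : S) (y : Fin 3 → S) :
    aeval (fun i => t * y i) f = t ^ n * aeval y f := by
  rw [aeval_def, aeval_def, eval₂_eq', eval₂_eq', Finset.mul_sum]
  refine Finset.sum_congr rfl fun d hd => ?_
  have hdeg : ∑ i, d i = n := by
    have := hf.degree_eq_sum_deg_support hd
    rw [this]
    exact (Finset.sum_subset (Finset.subset_univ _) (by simp)).symm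
  simp only [mul_pow, Finset.prod_mul_distrib, Finset.prod_pow_eq_pow_sum]
  rw [hdeg]
  ring

lemma eval_smul_homog {f : P3} {n : ℕ} (hf : f.IsHomogeneous n) (t : ℂ) (p : Fin 3 → ℂ) :
    eval (t • p) f = t ^ n * eval p f := by
  have := aeval_mul_homog (S := ℂ) hf t p
  rw [MvPolynomial.aeval_eq_eval] at this
  exact this

/-- First order Taylor expansion. -/
lemma taylor_one {S : Type*} [CommRing S] [Algebra ℂ S] (f : P3) (s : S) (y η : Fin 3 → S) :
    ∃ W : S, aeval (fun i => y i + s * η i) f =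
      aeval y f + s * (∑ i, aeval y (pderiv i f) * η i) + s ^ 2 * W := by
  induction f using MvPolynomial.induction_on with
  | C a => exact ⟨0, by simp⟩
  | add p q hp hq =>
    obtain ⟨W1, h1⟩ := hp
    obtain ⟨W2, h2⟩ := hq
    refine ⟨W1 + W2, ?_⟩
    simp only [map_add, h1, h2, add_mul, Finset.sum_add_distrib]
    ring
  | mul_X p j hp =>
    obtain ⟨W1, h1⟩ := hp
    refine ⟨W1 * (y j + s * η j) + (∑ i, aeval y (pderiv i p) * η i) * η j, ?_⟩
    have : ∀ i, aeval y (pderiv i (p * X j)) * η i =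
        (aeval y (pderiv i p) * η i) * y j + (if i = j then aeval y p * η j else 0) := by
      intro i
      rw [pderiv_mul, pderiv_X]
      by_cases hij : i = j
      · subst hij
        simp
        ring
      · have h' : j ≠ i := fun h => hij h.symm
        simp [hij, h']
        ring
    simp only [map_mul, h1, aeval_X, this, Finset.sum_add_distrib, Finset.sum_ite_eq',
      Finset.mem_univ, if_true, ← Finset.sum_mul]
    ring

lemma homogeneousComponent_mul_right {A : P3} {a : ℕ} (hA : A.IsHomogeneous a) (f : P3) (n : ℕ) :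
    homogeneousComponent (n + a) (f * A) = homogeneousComponent n f * A := by
  conv_lhs => rw [← sum_homogeneousComponent f]
  rw [Finset.sum_mul, map_sum]
  have h1 : ∀ i ∈ Finset.range (f.totalDegree + 1),
      homogeneousComponent (n + a) (homogeneousComponent i f * A) =
      if n = i then homogeneousComponent i f * A else 0 := by
    intro i _
    have hm : (homogeneousComponent i f * A) ∈ homogeneousSubmodule (Fin 3) ℂ (i + a) :=
      (homogeneousComponent_isHomogeneous i f).mul hA
    rw [homogeneousComponent_of_mem hm]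
    simp
  rw [Finset.sum_congr rfl h1, Finset.sum_ite_eq]
  split_ifs with h
  · rfl
  · rw [homogeneousComponent_eq_zero n f (by simpa [Nat.lt_succ_iff] using h)]
    simp

lemma homogeneousComponent_mul_right_of_lt {A : P3} {a : ℕ} (hA : A.IsHomogeneous a) (f : P3)
    {m : ℕ} (hm : m < a) : homogeneousComponent m (f * A) = 0 := by
  conv_lhs => rw [← sum_homogeneousComponent f]
  rw [Finset.sum_mul, map_sum]
  refine Finset.sum_eq_zero fun i _ => ?_
  have hm' : (homogeneousComponent i f * A) ∈ homogeneousSubmodule (Fin 3) ℂ (i + a) :=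
    (homogeneousComponent_isHomogeneous i f).mul hA
  rw [homogeneousComponent_of_mem hm', if_neg (by omega)]

/-- Homogeneous version of membership in a two-generated ideal. -/
lemma exists_homog_pair {A B f : P3} {a b m : ℕ} (hA : A.IsHomogeneous a) (hB : B.IsHomogeneous b)
    (hf : f.IsHomogeneous m) (h : f ∈ Ideal.span {A, B}) :
    ∃ α β : P3, f = α * A + β * B ∧
      α.IsHomogeneous (m - a) ∧ β.IsHomogeneous (m - b) ∧ (m < a → α = 0) ∧ (m < b → β = 0) := by
  rw [Ideal.mem_span_pair] at h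
  obtain ⟨u, v, huv⟩ := h
  have key : ∀ (g G : P3) (d : ℕ), G.IsHomogeneous d → ∃ g' : P3,
      homogeneousComponent m (g * G) = g' * G ∧ g'.IsHomogeneous (m - d) ∧ (m < d → g' = 0) := by
    intro g G d hG
    by_cases hmd : m < d
    · exact ⟨0, by rw [homogeneousComponent_mul_right_of_lt hG g hmd]; simp,
        isHomogeneous_zero _ _ _, fun _ => rfl⟩
    · refine ⟨homogeneousComponent (m - d) g, ?_, homogeneousComponent_isHomogeneous _ _,
        fun h => absurd h hmd⟩
      rw [← homogeneousComponent_mul_right hG, Nat.sub_add_cancel (not_lt.mp hmd)]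
  obtain ⟨α, h1, h2, h3⟩ := key u A a hA
  obtain ⟨β, h4, h5, h6⟩ := key v B b hB
  refine ⟨α, β, ?_, h2, h5, h3, h6⟩
  have := homogeneousComponent_eq_self hf
  rw [← this, ← huv, map_add, h1, h4]

/-- If `A ∣ f` with both homogeneous then the quotient may be taken homogeneous. -/
lemma exists_homog_dvd {A f : P3} {a m : ℕ} (hA : A.IsHomogeneous a)
    (hf : f.IsHomogeneous m) (h : A ∣ f) :
    ∃ α : P3, f = α * A ∧ α.IsHomogeneous (m - a) ∧ (m < a → α = 0) := by
  have h' : f ∈ Ideal.span {A, (0 : P3)} := by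
    rw [Ideal.mem_span_pair]
    obtain ⟨g, hg⟩ := h
    exact ⟨g, 0, by rw [hg]; ring⟩
  obtain ⟨α, β, h1, h2, -, h3, -⟩ :=
    exists_homog_pair hA (isHomogeneous_zero _ _ 0) hf h'
  exact ⟨α, by rw [h1]; ring, h2, h3⟩

lemma euler_eval {f : P3} {n : ℕ} (hf : f.IsHomogeneous n) (p : Fin 3 → ℂ) :
    ∑ i, p i * grad f p i = n * eval p f := by
  have := congrArg (eval p) hf.sum_X_mul_pderiv
  simpa [grad, nsmul_eq_mul] using this

end Pool.Agent.MPafef76

end

section

/-!
# Saturation of two-generated ideals in three variables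

If `A, B` are coprime polynomials in three variables over a field and `X_i ^ N * f ∈ (A, B)` for
`i = 0, 1, 2`, then `f ∈ (A, B)`.
-/

set_option autoImplicit false

namespace Pool.Agent.MPafef76

open MvPolynomial

variable {k : Type*} [Field k]

/-- `X_2 ^ N` is a nonzerodivisor modulo `(X_0 ^ N, X_1 ^ N)`. -/
lemma mem_span_of_X2_mul (N : ℕ) (w : MvPolynomial (Fin 3) k)
    (h : X 2 ^ N * w ∈ Ideal.span {(X 0 ^ N : MvPolynomial (Fin 3) k), X 1 ^ N}) :
    w ∈ Ideal.span {(X 0 ^ N : MvPolynomial (Fin 3) k), X 1 ^ N} := by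
  classical
  have hset : ({(X 0 ^ N : MvPolynomial (Fin 3) k), X 1 ^ N} : Set (MvPolynomial (Fin 3) k)) =
      (fun s => monomial s (1 : k)) '' {Finsupp.single 0 N, Finsupp.single 1 N} := by
    simp [Set.image_pair, X_pow_eq_monomial]
  rw [hset, mem_ideal_span_monomial_image] at h ⊢
  intro xi hxi
  have h1 : Finsupp.single 2 N + xi ∈ (X 2 ^ N * w).support := by
    rw [mem_support_iff, X_pow_eq_monomial, coeff_monomial_mul, one_mul]
    exact mem_support_iff.mp hxi
  obtain ⟨si, hsi, hle⟩ := h _ h1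
  refine ⟨si, hsi, ?_⟩
  rcases hsi with rfl | hsi
  · rw [Finsupp.single_le_iff] at hle ⊢
    simpa using hle
  · rw [Set.mem_singleton_iff] at hsi
    subst hsi
    rw [Finsupp.single_le_iff] at hle ⊢
    simpa using hle

lemma X_pow_dvd_of_mul (N : ℕ) {i j : Fin 3} (hij : i ≠ j) {u v : MvPolynomial (Fin 3) k}
    (h : X j ^ N * u = X i ^ N * v) : (X i ^ N : MvPolynomial (Fin 3) k) ∣ u := by
  have hX : Prime (X i : MvPolynomial (Fin 3) k) := X_prime
  have hnd : ¬ (X i : MvPolynomial (Fin 3) k) ∣ X j ^ N := by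
    intro hd
    have := hX.dvd_of_dvd_pow hd
    rw [MvPolynomial.X_dvd_X] at this
    exact hij this
  exact hX.pow_dvd_of_dvd_mul_left N hnd ⟨v, h⟩

/-- Saturation of a complete intersection `(A, B)` in three variables. -/
theorem mem_span_pair_of_X_pow_mul {A B f : MvPolynomial (Fin 3) k} (hAB : IsRelPrime A B)
    (hA : A ≠ 0) (hB : B ≠ 0) (N : ℕ)
    (h : ∀ i : Fin 3, X i ^ N * f ∈ Ideal.span {A, B}) : f ∈ Ideal.span {A, B} := by
  simp only [Ideal.mem_span_pair] at h
  choose u v huv using h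
  -- the pairwise cocycles
  have key : ∀ i j : Fin 3, ∃ w : MvPolynomial (Fin 3) k,
      X j ^ N * u i - X i ^ N * u j = w * B ∧ X i ^ N * v j - X j ^ N * v i = w * A := by
    intro i j
    have e : (X j ^ N * u i - X i ^ N * u j) * A = (X i ^ N * v j - X j ^ N * v i) * B := by
      linear_combination (X j ^ N) * huv i - (X i ^ N) * huv j
    have hd : A ∣ (X i ^ N * v j - X j ^ N * v i) * B :=
      ⟨X j ^ N * u i - X i ^ N * u j, by rw [← e]; ring⟩
    obtain ⟨w, hw⟩ := hAB.dvd_of_dvd_mul_right hd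
    refine ⟨w, ?_, by rw [hw]; ring⟩
    have : (X j ^ N * u i - X i ^ N * u j) * A = (w * B) * A := by
      rw [e, hw]; ring
    exact mul_right_cancel₀ hA this
  obtain ⟨w01, h01, h01'⟩ := key 0 1
  obtain ⟨w02, h02, -⟩ := key 0 2
  obtain ⟨w12, h12, -⟩ := key 1 2
  have hc : X 2 ^ N * w01 = X 1 ^ N * w02 - X 0 ^ N * w12 := by
    apply mul_right_cancel₀ hB
    linear_combination (-(X 2 ^ N)) * h01 + (X 1 ^ N) * h02 - (X 0 ^ N) * h12
  have hmem : w01 ∈ Ideal.span {(X 0 ^ N : MvPolynomial (Fin 3) k), X 1 ^ N} := by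
    apply mem_span_of_X2_mul
    rw [Ideal.mem_span_pair]
    exact ⟨-w12, w02, by rw [hc]; ring⟩
  rw [Ideal.mem_span_pair] at hmem
  obtain ⟨α, β, hαβ⟩ := hmem
  -- `w01 = α X0^N + β X1^N`
  have e1 : X 1 ^ N * (u 0 - β * B) = X 0 ^ N * (u 1 + α * B) := by
    linear_combination h01 - B * hαβ
  have e2 : X 1 ^ N * (v 0 + β * A) = X 0 ^ N * (v 1 - α * A) := by
    linear_combination -h01' + A * hαβ
  obtain ⟨u', hu'⟩ := X_pow_dvd_of_mul N (by decide : (0 : Fin 3) ≠ 1) e1
  obtain ⟨v', hv'⟩ := X_pow_dvd_of_mul N (by decide : (0 : Fin 3) ≠ 1) e2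
  rw [Ideal.mem_span_pair]
  refine ⟨u', v', ?_⟩
  have hX0 : (X 0 ^ N : MvPolynomial (Fin 3) k) ≠ 0 := pow_ne_zero _ (X_ne_zero 0)
  apply mul_left_cancel₀ hX0
  linear_combination huv 0 - A * hu' - B * hv'

end Pool.Agent.MPafef76

end

section

/-!
# The numerical inequality
-/

set_option autoImplicit false

namespace Pool.Agent.MPafef76

lemma numeric_low {t u c e a b d : ℝ} (ht : 0 < t) (hu0 : 0 ≤ u) (hut : u ≤ t)
    (he : 0 ≤ e) (hb : 0 ≤ b) (hd : 0 ≤ d)
    (hB : 4 * c < e + 4 * a + 4 * b + 5 * d + 4) :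
    c * (3 * t + u) < e * t + a * (3 * t + u) + b * (4 * t) + d * (5 * t) + (3 * t + u) := by
  have h1 : c < (e + 4 * a + 4 * b + 5 * d + 4) / 4 := by linarith
  have h2 : c * (3 * t + u) < (e + 4 * a + 4 * b + 5 * d + 4) / 4 * (3 * t + u) :=
    mul_lt_mul_of_pos_right h1 (by linarith)
  have h3 : (e + 4 * a + 4 * b + 5 * d + 4) / 4 * (3 * t + u) ≤
      e * t + a * (3 * t + u) + b * (4 * t) + d * (5 * t) + (3 * t + u) := by
    nlinarith [mul_nonneg he (by linarith : (0 : ℝ) ≤ t - u),
      mul_nonneg hb (by linarith : (0 : ℝ) ≤ t - u),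
      mul_nonneg hd (by linarith : (0 : ℝ) ≤ t - u), mul_nonneg he ht.le, mul_nonneg hb ht.le,
      mul_nonneg hd ht.le, mul_nonneg he hu0, mul_nonneg hb hu0, mul_nonneg hd hu0]
  linarith

lemma numeric_mid {t u c e a b d : ℝ} (ht : 0 < t) (hut : t ≤ u) (hu2 : u ≤ 2 * t)
    (hB : 4 * c < e + 4 * a + 4 * b + 5 * d + 4) (hC : 5 * c < e + 5 * a + 5 * b + 5 * d + 6) :
    c * (3 * t + u) < e * t + a * (3 * t + u) + b * (3 * t + u) + d * (5 * t) + (2 * t + 2 * u) := by
  -- write `u = (2t - u) / t * t + (u - t) / t * 2t`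
  have h1 : 0 ≤ 2 * t - u := by linarith
  have h2 : 0 ≤ u - t := by linarith
  have h3 : (2 * t - u) * (4 * c) ≤ (2 * t - u) * (e + 4 * a + 4 * b + 5 * d + 4) :=
    mul_le_mul_of_nonneg_left hB.le h1
  have h4 : (u - t) * (5 * c) ≤ (u - t) * (e + 5 * a + 5 * b + 5 * d + 6) :=
    mul_le_mul_of_nonneg_left hC.le h2
  rcases lt_or_eq_of_le h1 with h | h
  · have h3' : (2 * t - u) * (4 * c) < (2 * t - u) * (e + 4 * a + 4 * b + 5 * d + 4) :=
      mul_lt_mul_of_pos_left hB h
    nlinarith
  · have hu : u = 2 * t := by linarith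
    have h4' : (u - t) * (5 * c) < (u - t) * (e + 5 * a + 5 * b + 5 * d + 6) :=
      mul_lt_mul_of_pos_left hC (by linarith)
    nlinarith

lemma numeric_high {t u c e a b d : ℝ} (ht : 0 ≤ t) (hut : t < u)
    (hB : 4 * c < e + 4 * a + 4 * b + 5 * d + 4) (hD : c < a + b + d + 2) :
    c * (3 * t + u) < e * t + a * (3 * t + u) + b * (3 * t + u) + d * (4 * t + u) +
      (2 * t + 2 * u) := by
  have h1 : t * (4 * c) ≤ t * (e + 4 * a + 4 * b + 5 * d + 4) :=
    mul_le_mul_of_nonneg_left hB.le ht
  have h2 : (u - t) * c < (u - t) * (a + b + d + 2) :=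
    mul_lt_mul_of_pos_left hD (by linarith)
  nlinarith

/-- **The numerical inequality** -/
theorem numeric {τ x y h k n e a b d : ℕ} {c : ℝ} (hc : 0 < c)
    (hk1 : 3 * τ + x ≤ k + 1) (hk2 : 0 < x → 0 < y → 3 * τ + x + y ≤ k + 1)
    (hh : 0 < x → 0 < y → h = 0 ∨ min x y ≤ h)
    (hn1 : n ≤ 3 * τ + x) (hn2 : n ≤ 4 * τ + y) (hn3 : n ≤ 5 * τ + h)
    (hB : 4 * c < e + 4 * a + 4 * b + 5 * d + 4) (hC : 5 * c < e + 5 * a + 5 * b + 5 * d + 6)
    (hD : c < a + b + d + 2) :
    c * n < e * τ + a * (3 * τ + x) + b * (4 * τ + y) + d * (5 * τ + h) + (k + 1) := by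
  have he0 : (0 : ℝ) ≤ e := Nat.cast_nonneg _
  have ha0 : (0 : ℝ) ≤ a := Nat.cast_nonneg _
  have hb0 : (0 : ℝ) ≤ b := Nat.cast_nonneg _
  have hd0 : (0 : ℝ) ≤ d := Nat.cast_nonneg _
  have ht0 : (0 : ℝ) ≤ τ := Nat.cast_nonneg _
  have hx0 : (0 : ℝ) ≤ x := Nat.cast_nonneg _
  have hy0 : (0 : ℝ) ≤ y := Nat.cast_nonneg _
  have hh0 : (0 : ℝ) ≤ h := Nat.cast_nonneg _
  have hk0 : (0 : ℝ) ≤ k := Nat.cast_nonneg _
  rcases Nat.eq_zero_or_pos n with hn | hn
  · rw [hn]
    simp only [Nat.cast_zero, mul_zero]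
    positivity
  -- the low case, in general
  have hlow : ∀ u : ℕ, 0 < τ → u ≤ τ → u ≤ x → n ≤ 3 * τ + u →
      c * n < e * τ + a * (3 * τ + x) + b * (4 * τ + y) + d * (5 * τ + h) + (k + 1) := by
    intro u hτ huτ hux hnu
    have h1 := numeric_low (t := (τ : ℝ)) (u := (u : ℝ)) (c := c) (e := e) (a := a) (b := b) (d := d)
      (by exact_mod_cast hτ) (Nat.cast_nonneg _) (by exact_mod_cast huτ) he0 hb0 hd0 hB
    have hnu' : (n : ℝ) ≤ 3 * τ + u := by exact_mod_cast hnu
    have hux' : (u : ℝ) ≤ x := by exact_mod_cast hux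
    have hk1' : (3 * τ + x : ℝ) ≤ k + 1 := by exact_mod_cast hk1
    have h2 : c * n ≤ c * (3 * τ + u) := mul_le_mul_of_nonneg_left hnu' hc.le
    nlinarith [mul_nonneg ha0 (by linarith : (0 : ℝ) ≤ x - u), mul_nonneg hb0 hy0,
      mul_nonneg hd0 hh0]
  rcases Nat.eq_zero_or_pos x with hx | hx
  · exact hlow 0 (by omega) (by omega) (by omega) (by omega)
  rcases Nat.eq_zero_or_pos y with hy | hy
  · exact hlow (min x τ) (by omega) (by omega) (by omega) (by omega)
  have hk2' : (3 * τ + x + y : ℝ) ≤ k + 1 := by exact_mod_cast hk2 hx hy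
  rcases hh hx hy with hh' | hh'
  · -- `h = 0`
    subst hh'
    rcases Nat.lt_or_ge (min (min x (τ + y)) (2 * τ)) (τ + 1) with hu | hu
    · exact hlow (min (min x (τ + y)) (2 * τ)) (by omega) (by omega) (by omega) (by omega)
    · set u := min (min x (τ + y)) (2 * τ) with hudef
      have hux : u ≤ x := by omega
      have huy : u ≤ τ + y := by omega
      have hu2 : u ≤ 2 * τ := by omega
      have hnu : n ≤ 3 * τ + u := by omega
      have hτ : 0 < τ := by omega
      have huτ : τ ≤ u := by omega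
      have h1 := numeric_mid (t := (τ : ℝ)) (u := (u : ℝ)) (c := c) (e := e) (a := a) (b := b)
        (d := d) (by exact_mod_cast hτ) (by exact_mod_cast huτ) (by exact_mod_cast hu2) hB hC
      have hnu' : (n : ℝ) ≤ 3 * τ + u := by exact_mod_cast hnu
      have hux' : (u : ℝ) ≤ x := by exact_mod_cast hux
      have huy' : (u : ℝ) ≤ τ + y := by exact_mod_cast huy
      have h2 : c * n ≤ c * (3 * τ + u) := mul_le_mul_of_nonneg_left hnu' hc.le
      have hdh : (0 : ℝ) ≤ d * ((0 : ℕ) : ℝ) := by simp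
      nlinarith [mul_nonneg ha0 (by linarith : (0 : ℝ) ≤ x - u),
        mul_nonneg hb0 (by linarith : (0 : ℝ) ≤ τ + y - u)]
  · rcases Nat.lt_or_ge (min x (τ + y)) (τ + 1) with hu | hu
    · exact hlow (min x (τ + y)) (by omega) (by omega) (by omega) (by omega)
    · set u := min x (τ + y) with hudef
      have hux : u ≤ x := by omega
      have huy : u ≤ τ + y := by omega
      have hnu : n ≤ 3 * τ + u := by omega
      have huτ : τ < u := by omega
      have huh : u ≤ τ + h := by omega
      have h1 := numeric_high (t := (τ : ℝ)) (u := (u : ℝ)) (c := c) (e := e) (a := a) (b := b)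
        (d := d) ht0 (by exact_mod_cast huτ) hB hD
      have hnu' : (n : ℝ) ≤ 3 * τ + u := by exact_mod_cast hnu
      have hux' : (u : ℝ) ≤ x := by exact_mod_cast hux
      have huy' : (u : ℝ) ≤ τ + y := by exact_mod_cast huy
      have huh' : (u : ℝ) ≤ τ + h := by exact_mod_cast huh
      have h2 : c * n ≤ c * (3 * τ + u) := mul_le_mul_of_nonneg_left hnu' hc.le
      nlinarith [mul_nonneg ha0 (by linarith : (0 : ℝ) ≤ x - u),
        mul_nonneg hb0 (by linarith : (0 : ℝ) ≤ τ + y - u),
        mul_nonneg hd0 (by linarith : (0 : ℝ) ≤ τ + h - u)]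

end Pool.Agent.MPafef76

end

section

/-!
# A smooth plane cubic is irreducible
-/

set_option autoImplicit false

namespace Pool.Agent.MPafef76

open MvPolynomial

lemma homogeneousComponent_mul_top (f g : P3) :
    homogeneousComponent (f.totalDegree + g.totalDegree) (f * g) =
      homogeneousComponent f.totalDegree f * homogeneousComponent g.totalDegree g := by
  have hsum : homogeneousComponent (f.totalDegree + g.totalDegree) (f * g) =
      ∑ i ∈ Finset.range (f.totalDegree + 1),
        homogeneousComponent (f.totalDegree + g.totalDegree) (homogeneousComponent i f * g) := by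
    rw [← map_sum, ← Finset.sum_mul, sum_homogeneousComponent f]
  rw [hsum, Finset.sum_eq_single f.totalDegree]
  · rw [mul_comm, add_comm, homogeneousComponent_mul_right (homogeneousComponent_isHomogeneous _ _),
      mul_comm]
  · intro i hi hne
    rw [Finset.mem_range] at hi
    have hlt : i < f.totalDegree := by omega
    rw [mul_comm, show f.totalDegree + g.totalDegree = (f.totalDegree - i + g.totalDegree) + i by
      omega, homogeneousComponent_mul_right (homogeneousComponent_isHomogeneous _ _),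
      homogeneousComponent_eq_zero _ g (by omega), zero_mul]
  · intro h
    exact absurd (Finset.mem_range.mpr (Nat.lt_succ_self _)) h

/-- A form of positive degree has a nontrivial zero on every plane. -/
lemma exists_zero_on_plane {B : P3} {n : ℕ} (hB : B.IsHomogeneous n) (hn : 0 < n)
    (u v : Fin 3 → ℂ) :
    ∃ s t : ℂ, (s ≠ 0 ∨ t ≠ 0) ∧ eval (s • u + t • v) B = 0 := by
  set q : Polynomial ℂ := aeval (fun i => Polynomial.C (u i) * Polynomial.X + Polynomial.C (v i)) B
    with hq
  have hqe : ∀ s : ℂ, q.eval s = eval (s • u + v) B := by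
    intro s
    have h1 : (Polynomial.aeval s) q = eval (s • u + v) B := by
      rw [hq, ← AlgHom.comp_apply, MvPolynomial.comp_aeval, ← MvPolynomial.aeval_eq_eval]
      congr 2
      funext i
      simp
      ring
    rwa [Polynomial.coe_aeval_eq_eval] at h1
  by_cases hdeg : q.degree = 0
  · -- q is a constant
    have hqc : q = Polynomial.C (q.coeff 0) := Polynomial.eq_C_of_degree_eq_zero hdeg
    set c := q.coeff 0
    have hc : ∀ s : ℂ, eval (s • u + v) B = c := by
      intro s; rw [← hqe, hqc, Polynomial.eval_C]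
    set r : Polynomial ℂ := aeval (fun i => Polynomial.C (u i) + Polynomial.C (v i) * Polynomial.X) B
      with hr
    have hre : ∀ t : ℂ, r.eval t = eval (u + t • v) B := by
      intro t
      have h1 : (Polynomial.aeval t) r = eval (u + t • v) B := by
        rw [hr, ← AlgHom.comp_apply, MvPolynomial.comp_aeval, ← MvPolynomial.aeval_eq_eval]
        congr 2
        funext i
        simp
        ring
      rwa [Polynomial.coe_aeval_eq_eval] at h1
    have hrc : r = Polynomial.C c * Polynomial.X ^ n := by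
      apply Polynomial.eq_of_infinite_eval_eq
      apply Set.Infinite.mono (s := {t : ℂ | t ≠ 0})
      · intro t ht
        simp only [Set.mem_ofPred_eq] at ht ⊢
        rw [hre]
        have : u + t • v = t • (t⁻¹ • u + v) := by
          rw [smul_add, smul_smul, mul_inv_cancel₀ ht, one_smul]
        rw [this, eval_smul_homog hB, hc]
        simp
        ring
      · exact Set.Finite.infinite_compl (Set.finite_singleton (0 : ℂ))
    refine ⟨1, 0, Or.inl one_ne_zero, ?_⟩
    have := hre 0
    rw [hrc] at this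
    simp [hn.ne'] at this
    simpa using this.symm
  · obtain ⟨s, hs⟩ := IsAlgClosed.exists_root q hdeg
    refine ⟨s, 1, Or.inr one_ne_zero, ?_⟩
    rw [one_smul, ← hqe]
    exact hs

/-- A nonzero linear form vanishes on a plane. -/
lemma exists_plane {A : P3} (hA : A.IsHomogeneous 1) :
    ∃ u v : Fin 3 → ℂ, (∀ s t : ℂ, s • u + t • v = 0 → s = 0 ∧ t = 0) ∧
      ∀ s t : ℂ, eval (s • u + t • v) A = 0 := by
  -- coefficients of the linear form
  have hrep : ∀ p : Fin 3 → ℂ, eval p A = ∑ i, p i * eval p (pderiv i A) := by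
    intro p
    have := euler_eval hA p
    simp only [grad, Nat.cast_one, one_mul] at this
    exact this.symm
  have hconst : ∀ i : Fin 3, ∃ a : ℂ, pderiv i A = C a := by
    intro i
    have h0 : (pderiv i A).IsHomogeneous 0 := by
      have := hA.pderiv (i := i)
      simpa using this
    have := (totalDegree_zero_iff_isHomogeneous (p := pderiv i A)).mpr h0
    rw [totalDegree_eq_zero_iff_eq_C] at this
    exact ⟨_, this⟩
  choose a ha using hconst
  have hrep' : ∀ p : Fin 3 → ℂ, eval p A = p 0 * a 0 + p 1 * a 1 + p 2 * a 2 := by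
    intro p
    rw [hrep, Fin.sum_univ_three, ha, ha, ha]
    simp
  by_cases h0 : a = 0
  · refine ⟨![1, 0, 0], ![0, 1, 0], ?_, ?_⟩
    · intro s t h
      have e0 := congrFun h 0
      have e1 := congrFun h 1
      simp at e0 e1
      exact ⟨e0, e1⟩
    · intro s t
      rw [hrep', h0]; simp
  · obtain ⟨j, hj⟩ : ∃ j, a j ≠ 0 := by
      by_contra h
      push Not at h
      exact h0 (funext h)
    fin_cases j
    · refine ⟨![a 1, -a 0, 0], ![a 2, 0, -a 0], ?_, ?_⟩
      · intro s t h
        have e1 := congrFun h 1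
        have e2 := congrFun h 2
        simp at e1 e2 hj
        exact ⟨e1.resolve_right hj, e2.resolve_right hj⟩
      · intro s t
        rw [hrep']; simp; ring
    · refine ⟨![a 1, -a 0, 0], ![0, a 2, -a 1], ?_, ?_⟩
      · intro s t h
        have e1 := congrFun h 0
        have e2 := congrFun h 2
        simp at e1 e2 hj
        exact ⟨e1.resolve_right hj, e2.resolve_right hj⟩
      · intro s t
        rw [hrep']; simp; ring
    · refine ⟨![a 2, 0, -a 0], ![0, a 2, -a 1], ?_, ?_⟩
      · intro s t h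
        have e1 := congrFun h 0
        have e2 := congrFun h 1
        simp at e1 e2 hj
        exact ⟨e1.resolve_right hj, e2.resolve_right hj⟩
      · intro s t
        rw [hrep']; simp; ring

lemma not_smooth_of_mul {A B : P3} {n : ℕ} (hA : A.IsHomogeneous 1) (hB : B.IsHomogeneous n)
    (hn : 0 < n) (hs : SmoothForm (A * B)) : False := by
  obtain ⟨u, v, hind, hA0⟩ := exists_plane hA
  obtain ⟨s, t, hst, hBz⟩ := exists_zero_on_plane hB hn u v
  have hw : s • u + t • v ≠ 0 := by
    intro h
    obtain ⟨h1, h2⟩ := hind s t h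
    rcases hst with h | h
    · exact h h1
    · exact h h2
  obtain ⟨i, hi⟩ := hs _ hw
  apply hi
  rw [pderiv_mul, map_add, map_mul, map_mul, hBz, hA0]
  ring

theorem SmoothForm.irreducible {F : P3} (hF : F.IsHomogeneous 3) (hs : SmoothForm F) :
    Irreducible F := by
  have hF0 : F ≠ 0 := by
    rintro rfl
    obtain ⟨i, hi⟩ := hs ![1, 0, 0] (by intro h; have := congrFun h 0; simp at this)
    simp at hi
  constructor
  · intro hu
    have h1 := hF.totalDegree hF0
    rw [isUnit_iff_totalDegree_of_isReduced] at hu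
    omega
  · intro A B hAB
    have hA0 : A ≠ 0 := by rintro rfl; simp at hAB; exact hF0 hAB
    have hB0 : B ≠ 0 := by rintro rfl; simp at hAB; exact hF0 hAB
    have hdeg : A.totalDegree + B.totalDegree = 3 := by
      rw [← totalDegree_mul_of_isDomain hA0 hB0, ← hAB, hF.totalDegree hF0]
    have htop := homogeneousComponent_mul_top A B
    rw [hdeg, ← hAB, homogeneousComponent_eq_self hF] at htop
    have hunit : ∀ G : P3, G ≠ 0 → G.totalDegree = 0 → IsUnit G := by
      intro G hG h
      rw [totalDegree_eq_zero_iff_eq_C] at h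
      rw [h]
      apply IsUnit.map
      rw [isUnit_iff_ne_zero]
      intro h0
      rw [h0] at h
      exact hG (by rw [h]; simp)
    have hhA := homogeneousComponent_isHomogeneous A.totalDegree A
    have hhB := homogeneousComponent_isHomogeneous B.totalDegree B
    rcases Nat.lt_or_ge A.totalDegree 1 with h | h
    · exact Or.inl (hunit A hA0 (by omega))
    rcases Nat.lt_or_ge B.totalDegree 1 with h' | h'
    · exact Or.inr (hunit B hB0 (by omega))
    exfalso
    rcases Nat.lt_or_ge A.totalDegree 2 with h2 | h2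
    · have e1 : A.totalDegree = 1 := by omega
      rw [e1] at hhA htop
      rw [htop] at hs
      exact not_smooth_of_mul hhA hhB (by omega) hs
    · have e1 : B.totalDegree = 1 := by omega
      rw [e1] at hhB htop
      rw [htop, mul_comm] at hs
      exact not_smooth_of_mul hhB hhA (by omega) hs

end Pool.Agent.MPafef76

end

section

/-!
# Dimension counts for forms in three variables
-/

set_option autoImplicit false

namespace Pool.Agent.MPafef76

open MvPolynomial Module

/-- forms of degree `n` -/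
noncomputable abbrev Fm (n : ℕ) : Submodule ℂ P3 := homogeneousSubmodule (Fin 3) ℂ n

instance (n : ℕ) : FiniteDimensional ℂ (Fm n) :=
  Module.Finite.iff_fg.mpr (homogeneousSubmodule_fg (Fin 3) ℂ n)

lemma finrank_Fm (n : ℕ) : finrank ℂ (Fm n) = (n + 2).choose 2 := by
  classical
  have h1 : Fm n = restrictSupport ℂ {d : Fin 3 →₀ ℕ | d.degree = n} :=
    homogeneousSubmodule_eq_finsupp_supported (Fin 3) ℂ n
  have e : {d : Fin 3 →₀ ℕ | d.degree = n} ≃ ((Finset.univ : Finset (Fin 3)).finsuppAntidiag n) :=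
    Equiv.subtypeEquivRight (fun d => by
      simp [Finset.mem_finsuppAntidiag, Finsupp.degree_eq_sum])
  rw [h1, finrank_eq_nat_card_basis (basisRestrictSupport ℂ _), Nat.card_congr e]
  simp only [Nat.card_eq_fintype_card, Fintype.card_coe]
  rw [Finset.card_finsuppAntidiag_nat_eq_choose]
  simp only [Finset.card_univ, Fintype.card_fin]
  rw [show 3 + n - 1 = n + 2 by omega]
  exact (Nat.choose_symm_add (a := n) (b := 2)) 

lemma two_mul_choose (n : ℕ) : 2 * (n + 2).choose 2 = (n + 2) * (n + 1) := by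
  have := Nat.triangle_succ (n + 1)
  rw [Nat.choose_two_right]
  have h : 2 ∣ (n + 2) * (n + 2 - 1) := by
    have := Nat.even_mul_succ_self (n + 1)
    rw [show n + 2 - 1 = n + 1 by omega, mul_comm]
    exact this.two_dvd
  rw [Nat.mul_div_cancel' h]
  congr 1

/-- multiplication by `A` on forms of degree `d`, as a submodule of all polynomials -/
noncomputable def mulSub (A : P3) (d : ℕ) : Submodule ℂ P3 :=
  (Fm d).map (LinearMap.mulLeft ℂ A)

lemma mulLeft_injective {A : P3} (hA : A ≠ 0) : Function.Injective (LinearMap.mulLeft ℂ A) :=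
  fun x y h => mul_left_cancel₀ hA (by simpa using h)

instance (A : P3) (d : ℕ) : FiniteDimensional ℂ (mulSub A d) := by
  unfold mulSub; infer_instance

lemma finrank_mulSub {A : P3} (hA : A ≠ 0) (d : ℕ) : finrank ℂ (mulSub A d) = (d + 2).choose 2 := by
  rw [← finrank_Fm d]
  exact (LinearEquiv.finrank_eq
    (Submodule.equivMapOfInjective _ (mulLeft_injective hA) (Fm d))).symm

lemma finrank_mulSub_le (A : P3) (d : ℕ) : finrank ℂ (mulSub A d) ≤ (d + 2).choose 2 := by
  rw [← finrank_Fm d]
  exact Submodule.finrank_map_le _ _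

lemma mulSub_le {A : P3} {a : ℕ} (hA : A.IsHomogeneous a) {d m : ℕ} (h : a + d = m) :
    mulSub A d ≤ Fm m := by
  rintro _ ⟨x, hx, rfl⟩
  subst h
  exact hA.mul hx

lemma inf_mulSub_le {A B : P3} {a b : ℕ} (hA : A.IsHomogeneous a)
    (hAB : IsRelPrime A B) (d : ℕ) :
    mulSub A (b + d) ⊓ mulSub B (a + d) ≤ mulSub (A * B) d := by
  rintro x ⟨⟨u, hu, hux⟩, ⟨v, hv, hvx⟩⟩
  simp only [LinearMap.mulLeft_apply] at hux hvx
  have hd : A ∣ v := by
    apply hAB.dvd_of_dvd_mul_left
    rw [hvx, ← hux]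
    exact dvd_mul_right _ _
  obtain ⟨w, hw1, hw2, hw3⟩ := exists_homog_dvd hA hv hd
  refine ⟨w, ?_, ?_⟩
  · have : a + d - a = d := by omega
    rw [this] at hw2
    exact hw2
  · simp only [LinearMap.mulLeft_apply]
    rw [← hvx, hw1]
    ring

/-- Bezout type bound: `N` independent linear conditions on forms of degree `a + b + d` that are
satisfied by the ideal `(A, B)` in that degree force `N ≤ a b`. -/
theorem bezout_count {A B : P3} {a b N : ℕ} (hA : A.IsHomogeneous a) (hB : B.IsHomogeneous b)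
    (hAB : IsRelPrime A B) (hA0 : A ≠ 0) (hB0 : B ≠ 0) (d : ℕ)
    (T : P3 →ₗ[ℂ] (Fin N → ℂ)) (hTA : ∀ α : P3, α.IsHomogeneous (b + d) → T (A * α) = 0)
    (hTB : ∀ β : P3, β.IsHomogeneous (a + d) → T (B * β) = 0)
    (hsurj : ∀ y : Fin N → ℂ, ∃ f : P3, f.IsHomogeneous (a + b + d) ∧ T f = y) : N ≤ a * b := by
  set V := Fm (a + b + d) with hV
  set W := mulSub A (b + d) ⊔ mulSub B (a + d) with hW
  have hWV : W ≤ V := sup_le (mulSub_le hA (by omega)) (mulSub_le hB (by omega))
  -- T restricted to V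
  let T' : V →ₗ[ℂ] (Fin N → ℂ) := T.comp V.subtype
  have hrange : LinearMap.range T' = ⊤ := by
    rw [LinearMap.range_eq_top]
    intro y
    obtain ⟨f, hf, hfy⟩ := hsurj y
    exact ⟨⟨f, hf⟩, hfy⟩
  have hker : finrank ℂ W ≤ finrank ℂ (LinearMap.ker T') := by
    have : W ≤ (LinearMap.ker T').map V.subtype := by
      intro x hx
      refine ⟨⟨x, hWV hx⟩, ?_, rfl⟩
      simp only [SetLike.mem_coe, LinearMap.mem_ker]
      change T x = 0
      rw [hW, Submodule.mem_sup] at hx
      obtain ⟨y, ⟨u, hu, rfl⟩, z, ⟨v, hv, rfl⟩, rfl⟩ := hx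
      rw [map_add]
      simp only [LinearMap.mulLeft_apply]
      rw [hTA u hu, hTB v hv, add_zero]
    refine le_trans (Submodule.finrank_mono this) ?_
    exact Submodule.finrank_map_le _ _
  have hdim := LinearMap.finrank_range_add_finrank_ker T'
  rw [hrange, finrank_top, Module.finrank_fin_fun, finrank_Fm] at hdim
  have hsup := Submodule.finrank_sup_add_finrank_inf_eq (mulSub A (b + d)) (mulSub B (a + d))
  rw [finrank_mulSub hA0, finrank_mulSub hB0, ← hW] at hsup
  have hinf : finrank ℂ (mulSub A (b + d) ⊓ mulSub B (a + d) : Submodule ℂ P3) ≤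
      (d + 2).choose 2 := by
    refine le_trans (Submodule.finrank_mono (inf_mulSub_le hA hAB d)) ?_
    exact finrank_mulSub_le _ _
  have c1 := two_mul_choose (a + b + d)
  have c2 := two_mul_choose (b + d)
  have c3 := two_mul_choose (a + d)
  have c4 := two_mul_choose d
  have key : (a + b + d + 2) * (a + b + d + 1) + (d + 2) * (d + 1) =
      (b + d + 2) * (b + d + 1) + (a + d + 2) * (a + d + 1) + 2 * (a * b) := by ring
  generalize (a + b + d + 2).choose 2 = x1 at *
  generalize (b + d + 2).choose 2 = x2 at *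
  generalize (a + d + 2).choose 2 = x3 at *
  generalize (d + 2).choose 2 = x4 at *
  omega

end Pool.Agent.MPafef76

end

section

/-!
# Multiplier ideals on affine three-space
-/

set_option autoImplicit false

namespace Pool.Agent.MPafef76

open MvPolynomial

lemma mem_multiplierIdeal {R : Type} [CommRing R] {𝔞 : Ideal R} {c : ℝ} {f : R} :
    f ∈ multiplierIdeal 𝔞 c ↔ ∀ (A : Type) [CommRing A] [IsDomain A] [IsDiscreteValuationRing A]
      [Algebra R A], IsPrimeDivisor R A → ∀ n k : ℕ,
      𝔞.map (algebraMap R A) = IsLocalRing.maximalIdeal A ^ n →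
      Module.length A (Ω[A⁄R]) = k →
      algebraMap R A f ∈ IsLocalRing.maximalIdeal A ^ (⌊c * n⌋₊ - k) := by
  simp only [multiplierIdeal, Submodule.mem_iInf, Ideal.mem_comap]

lemma mem_coneIdeal (z : Fin 11 → Fin 3 → ℂ) (f : MvPolynomial (Fin 3) ℂ) :
    f ∈ coneIdeal z ↔ ∀ i, ∀ t : ℂ, eval (t • z i) f = 0 := by
  rw [coneIdeal, mem_vanishingIdeal_iff]
  constructor
  · intro h i t
    have := h _ ⟨i, t, rfl⟩
    rwa [MvPolynomial.aeval_eq_eval] at this
  · rintro h x ⟨i, t, rfl⟩
    rw [MvPolynomial.aeval_eq_eval]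
    exact h i t

end Pool.Agent.MPafef76

end

section

/-!
# Noether's theorem for transversal intersections of plane curves
-/

set_option autoImplicit false

namespace Pool.Agent.MPafef76

open MvPolynomial

/-- Two forms meet transversally at `p`: the gradients are linearly independent. -/
def Transversal (A B : P3) (p : Fin 3 → ℂ) : Prop :=
  ∀ s t : ℂ, s • grad A p + t • grad B p = 0 → s = 0 ∧ t = 0

/-- the linear form `p_j X_i - p_i X_j`, vanishing at `p` -/
noncomputable def lin (p : Fin 3 → ℂ) (j i : Fin 3) : P3 := C (p j) * X i - C (p i) * X j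

lemma lin_homog (p : Fin 3 → ℂ) (j i : Fin 3) : (lin p j i).IsHomogeneous 1 := by
  unfold lin
  exact (isHomogeneous_C_mul_X _ _).sub (isHomogeneous_C_mul_X _ _)

lemma lin_eval_self (p : Fin 3 → ℂ) (j i : Fin 3) : eval p (lin p j i) = 0 := by
  simp [lin]; ring

/-- Polynomials vanishing on the line through `p` are in the ideal of two linear forms. -/
lemma mem_line {p : Fin 3 → ℂ} {j : Fin 3} (hj : p j ≠ 0) {f : P3}
    (h : ∀ t : ℂ, eval (t • p) f = 0) :
    f ∈ Ideal.span {lin p j (j + 1), lin p j (j + 2)} := by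
  set I : Ideal P3 := Ideal.span {lin p j (j + 1), lin p j (j + 2)} with hI
  have hl : ∀ i : Fin 3, lin p j i ∈ I := by
    intro i
    have hi : i = j ∨ i = j + 1 ∨ i = j + 2 := by
      have key : ∀ i j : Fin 3, i = j ∨ i = j + 1 ∨ i = j + 2 := by decide
      exact key i j
    rcases hi with rfl | rfl | rfl
    · simp [lin]
    · exact Ideal.subset_span (by simp)
    · exact Ideal.subset_span (by simp)
  set θ : P3 →ₐ[ℂ] P3 := aeval (fun i => C (p i / p j) * X j) with hθ
  have hX : ∀ i : Fin 3, Ideal.Quotient.mkₐ ℂ I (X i) = (Ideal.Quotient.mkₐ ℂ I).comp θ (X i) := by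
    intro i
    rw [AlgHom.comp_apply, hθ, aeval_X]
    simp only [Ideal.Quotient.mkₐ_eq_mk]
    rw [Ideal.Quotient.eq]
    have : X i - C (p i / p j) * X j = C (p j)⁻¹ * lin p j i := by
      unfold lin
      have h1 : (C (p i / p j) : P3) = C (p j)⁻¹ * C (p i) := by
        rw [← C_mul]; congr 1; field_simp
      have h2 : (C (p j)⁻¹ * C (p j) : P3) = 1 := by
        rw [← C_mul, inv_mul_cancel₀ hj, C_1]
      rw [h1]
      linear_combination (-(X i : P3)) * h2
    rw [this]
    exact I.mul_mem_left _ (hl i)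
  have hcomp : Ideal.Quotient.mkₐ ℂ I = (Ideal.Quotient.mkₐ ℂ I).comp θ :=
    MvPolynomial.algHom_ext hX
  have hzero : θ f = 0 := by
    apply MvPolynomial.funext
    intro y
    rw [map_zero]
    have : eval y (θ f) = eval ((y j / p j) • p) f := by
      rw [hθ, ← MvPolynomial.aeval_eq_eval, ← AlgHom.comp_apply, MvPolynomial.comp_aeval,
        ← MvPolynomial.aeval_eq_eval]
      congr 2
      funext i
      simp
      ring
    rw [this, h]
  have := congrArg (fun φ => φ f) hcomp
  simp only [AlgHom.comp_apply, hzero, map_zero] at this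
  rwa [Ideal.Quotient.mkₐ_eq_mk, Ideal.Quotient.eq_zero_iff_mem] at this

lemma grad_lin_comb (p : Fin 3 → ℂ) (j : Fin 3) (u v : P3) :
    grad (u * lin p j (j + 1) + v * lin p j (j + 2)) p =
      eval p u • grad (lin p j (j + 1)) p + eval p v • grad (lin p j (j + 2)) p := by
  funext i
  simp only [grad, map_add, pderiv_mul, map_mul, lin_eval_self, Pi.add_apply, Pi.smul_apply,
    smul_eq_mul]
  ring

/-- The local statement: at a transversal zero, some multiple with nonzero value is in `(A, B)`. -/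
lemma exists_local_multiplier {A B f : P3} {a b : ℕ} (hA : A.IsHomogeneous a)
    (hB : B.IsHomogeneous b) {p : Fin 3 → ℂ} (hp : p ≠ 0) (hAp : eval p A = 0)
    (hBp : eval p B = 0) (htr : Transversal A B p) (hf : ∀ t : ℂ, eval (t • p) f = 0) :
    ∃ g : P3, eval p g ≠ 0 ∧ g * f ∈ Ideal.span {A, B} := by
  obtain ⟨j, hj⟩ : ∃ j, p j ≠ 0 := by
    by_contra h
    push Not at h
    exact hp (funext h)
  have hA' : A ∈ Ideal.span {lin p j (j + 1), lin p j (j + 2)} :=
    mem_line hj fun t => by rw [eval_smul_homog hA, hAp, mul_zero]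
  have hB' : B ∈ Ideal.span {lin p j (j + 1), lin p j (j + 2)} :=
    mem_line hj fun t => by rw [eval_smul_homog hB, hBp, mul_zero]
  have hf' : f ∈ Ideal.span {lin p j (j + 1), lin p j (j + 2)} := mem_line hj hf
  rw [Ideal.mem_span_pair] at hA' hB' hf'
  obtain ⟨a1, a2, hA'⟩ := hA'
  obtain ⟨b1, b2, hB'⟩ := hB'
  obtain ⟨f1, f2, hf'⟩ := hf'
  refine ⟨a1 * b2 - a2 * b1, ?_, ?_⟩
  · intro hdet
    have hgA : grad A p = eval p a1 • grad (lin p j (j + 1)) p +
        eval p a2 • grad (lin p j (j + 2)) p := by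
      rw [← grad_lin_comb, hA']
    have hgB : grad B p = eval p b1 • grad (lin p j (j + 1)) p +
        eval p b2 • grad (lin p j (j + 2)) p := by
      rw [← grad_lin_comb, hB']
    have hdet' : eval p a1 * eval p b2 - eval p a2 * eval p b1 = 0 := by
      simpa using hdet
    -- two relations
    have r1 : (eval p b2) • grad A p + (-(eval p a2)) • grad B p = 0 := by
      rw [hgA, hgB]
      funext i
      simp only [Pi.add_apply, Pi.smul_apply, smul_eq_mul, Pi.zero_apply]
      linear_combination (grad (lin p j (j + 1)) p i) * hdet'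
    have r2 : (-(eval p b1)) • grad A p + (eval p a1) • grad B p = 0 := by
      rw [hgA, hgB]
      funext i
      simp only [Pi.add_apply, Pi.smul_apply, smul_eq_mul, Pi.zero_apply]
      linear_combination (grad (lin p j (j + 2)) p i) * hdet'
    obtain ⟨h1, h2⟩ := htr _ _ r1
    obtain ⟨h3, h4⟩ := htr _ _ r2
    have h2' : eval p a2 = 0 := by simpa using h2
    have hz : (1 : ℂ) • grad A p + (0 : ℂ) • grad B p = 0 := by
      rw [hgA, h4, h2']; simp
    exact one_ne_zero (htr _ _ hz).1
  · rw [Ideal.mem_span_pair]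
    refine ⟨f1 * b2 - f2 * b1, f2 * a1 - f1 * a2, ?_⟩
    rw [← hA', ← hB', ← hf']
    ring

/-- Max Noether's theorem in the transversal case. -/
theorem noether {A B f : P3} {a b : ℕ} (hA : A.IsHomogeneous a) (hB : B.IsHomogeneous b)
    (hAB : IsRelPrime A B) (hA0 : A ≠ 0) (hB0 : B ≠ 0)
    (htr : ∀ p : Fin 3 → ℂ, p ≠ 0 → eval p A = 0 → eval p B = 0 → Transversal A B p)
    (hf : ∀ p : Fin 3 → ℂ, p ≠ 0 → eval p A = 0 → eval p B = 0 → ∀ t : ℂ, eval (t • p) f = 0) :
    f ∈ Ideal.span {A, B} := by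
  classical
  -- the colon ideal
  let cI : Ideal P3 :=
    { carrier := {g | g * f ∈ Ideal.span {A, B}}
      add_mem' := fun {x y} hx hy => by
        simp only [Set.mem_ofPred_eq] at hx hy ⊢
        rw [add_mul]; exact Ideal.add_mem _ hx hy
      zero_mem' := by simp
      smul_mem' := fun c x hx => by
        simp only [Set.mem_ofPred_eq, smul_eq_mul] at hx ⊢
        rw [mul_assoc]; exact Ideal.mul_mem_left _ _ hx }
  have hcI : ∀ g, g ∈ cI ↔ g * f ∈ Ideal.span {A, B} := fun g => Iff.rfl
  have hloc : ∀ p : Fin 3 → ℂ, p ≠ 0 → ∃ g ∈ cI, eval p g ≠ 0 := by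
    intro p hp
    by_cases h1 : eval p A = 0
    · by_cases h2 : eval p B = 0
      · obtain ⟨g, hg, hg'⟩ := exists_local_multiplier hA hB hp h1 h2 (htr p hp h1 h2)
          (hf p hp h1 h2)
        exact ⟨g, hg', hg⟩
      · refine ⟨B, ?_, h2⟩
        rw [hcI]
        exact Ideal.mul_mem_right _ _ (Ideal.subset_span (by simp))
    · refine ⟨A, ?_, h1⟩
      rw [hcI]
      exact Ideal.mul_mem_right _ _ (Ideal.subset_span (by simp))
  have hrad : ∀ i : Fin 3, X i ∈ cI.radical := by
    intro i
    rw [← vanishingIdeal_zeroLocus_eq_radical (K := ℂ) cI, mem_vanishingIdeal_iff]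
    intro x hx
    rw [mem_zeroLocus_iff] at hx
    by_contra hne
    have hx0 : x ≠ 0 := by
      rintro rfl
      simp at hne
    obtain ⟨g, hg, hg'⟩ := hloc x hx0
    apply hg'
    have := hx g hg
    rwa [MvPolynomial.aeval_eq_eval] at this
  choose n hn using hrad
  set N := n 0 + n 1 + n 2 with hN
  refine mem_span_pair_of_X_pow_mul hAB hA0 hB0 N fun i => ?_
  rw [← hcI]
  have hle : n i ≤ N := by
    fin_cases i <;> simp [hN] <;> omega
  obtain ⟨m, hm⟩ := Nat.exists_eq_add_of_le hle
  rw [hm, pow_add]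
  exact cI.mul_mem_right _ (hn i)

end Pool.Agent.MPafef76

end

section

/-!
# Derivations of the local ring of a prime divisor
-/

set_option autoImplicit false

namespace Pool.Agent.MPafef76

open MvPolynomial

section DVR

variable {A : Type*} [CommRing A] [IsDomain A] [IsDiscreteValuationRing A]

lemma length_dvr_eq_top : Module.length A A = ⊤ := by
  rw [ENat.eq_top_iff_forall_ge]
  intro n
  have h1 := Module.length_le_of_surjective
    (Submodule.mkQ (IsLocalRing.maximalIdeal A ^ n)) (Submodule.mkQ_surjective _)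
  rwa [IsDiscreteValuationRing.length_quotient_pow_maximalIdeal] at h1

lemma length_quotient_span {a : A} (ha : a ≠ 0) {ϖ : A} (hϖ : Irreducible ϖ) :
    ∃ n : ℕ, Associated a (ϖ ^ n) ∧ Module.length A (A ⧸ Ideal.span {a}) = n := by
  obtain ⟨n, hn⟩ := IsDiscreteValuationRing.associated_pow_irreducible ha hϖ
  refine ⟨n, hn, ?_⟩
  have h1 : Ideal.span {a} = IsLocalRing.maximalIdeal A ^ n := by
    rw [hϖ.maximalIdeal_eq, Ideal.span_singleton_pow, Ideal.span_singleton_eq_span_singleton]
    exact hn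
  rw [h1, IsDiscreteValuationRing.length_quotient_pow_maximalIdeal]

lemma isTorsion_of_length {Q : Type*} [AddCommGroup Q] [Module A Q]
    (h : Module.length A Q ≠ ⊤) : Module.IsTorsion A Q := by
  intro m
  by_contra hcon
  push Not at hcon
  apply h
  rw [eq_top_iff, ← length_dvr_eq_top (A := A)]
  refine Module.length_le_of_injective (LinearMap.toSpanSingleton A Q m) ?_
  rw [injective_iff_map_eq_zero]
  intro a ha
  by_contra h0
  exact hcon ⟨a, mem_nonZeroDivisors_of_ne_zero h0⟩ ha

/-- Determinants and lengths. -/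
lemma exists_functionals {M : Type*} [AddCommGroup M] [Module A M] [Module.Finite A M]
    [Module.Free A M] {v : Fin 3 → M} (hv : LinearIndependent A v) {k : ℕ}
    (hk : Module.length A (M ⧸ Submodule.span A (Set.range v)) ≤ k) {ϖ : A}
    (hϖ : Irreducible ϖ) :
    ∃ φ : Fin 3 → (M →ₗ[A] A), ¬ ϖ ^ (k + 1) ∣ Matrix.det (Matrix.of fun i j => φ j (v i)) := by
  set N := Submodule.span A (Set.range v) with hN
  have htop : Module.length A (M ⧸ N) ≠ ⊤ := ne_top_of_le_ne_top (by simp) hk
  have htor := isTorsion_of_length htop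
  have hr0 : Module.finrank A (M ⧸ N) = 0 := Module.finrank_eq_zero_iff_isTorsion.mpr htor
  let bv : Module.Basis (Fin 3) A N := Module.Basis.span hv
  have hr1 : Module.finrank A N = 3 := by
    rw [Module.finrank_eq_card_basis bv]; simp
  have hr2 : Module.finrank A M = 3 := by
    have := Submodule.finrank_quotient_add_finrank N
    omega
  have h : Module.finrank A N = Module.finrank A M := by rw [hr1, hr2]
  let b : Module.Basis (Fin 3) A M := Module.finBasisOfFinrankEq A M hr2
  set a := Submodule.smithNormalFormCoeffs b h with ha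
  set b' := Submodule.smithNormalFormTopBasis b h with hb'
  set ab := Submodule.smithNormalFormBotBasis b h with hab
  have hab' : ∀ i, (ab i : M) = a i • b' i := Submodule.smithNormalFormBotBasis_def b h
  have ha0 : ∀ i, a i ≠ 0 := Submodule.smithNormalFormCoeffs_ne_zero b h
  refine ⟨fun j => b'.coord j, ?_⟩
  choose n hn1 hn2 using fun i => length_quotient_span (ha0 i) hϖ
  have hlen : Module.length A (M ⧸ N) = ((∑ i, n i : ℕ) : ℕ∞) := by
    rw [(Submodule.quotientEquivPiSpan N b h).length_eq, Module.length_pi_of_fintype, Nat.cast_sum]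
    exact Finset.sum_congr rfl fun i _ => hn2 i
  have hsum : ∑ i, n i ≤ k := by
    rw [hlen] at hk
    exact_mod_cast hk
  -- the matrix
  have hmat : (Matrix.of fun i j => b'.coord j (v i)) =
      (ab.toMatrix bv).transpose * Matrix.diagonal a := by
    ext i j
    rw [Matrix.mul_diagonal, Matrix.transpose_apply, Module.Basis.toMatrix_apply]
    have h1 : v i = ((bv i : N) : M) := by
      simp only [bv]
      rw [Module.Basis.span_apply]
    have h2 : ((bv i : N) : M) = ∑ l, ab.repr (bv i) l • (a l • b' l) := by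
      conv_lhs => rw [← ab.sum_repr (bv i)]
      rw [AddSubmonoidClass.coe_finsetSum]
      refine Finset.sum_congr rfl fun l _ => ?_
      rw [SetLike.val_smul, hab']
    rw [Matrix.of_apply, h1, h2, map_sum, Finset.sum_eq_single j]
    · simp
    · intro l _ hl
      simp [hl]
    · simp
  rw [hmat, Matrix.det_mul, Matrix.det_transpose, Matrix.det_diagonal]
  have hu : IsUnit (ab.toMatrix bv).det := by
    have := Module.Basis.isUnit_det ab bv
    rwa [Module.Basis.det_apply] at this
  have hprod : Associated (∏ i, a i) (ϖ ^ (∑ i, n i)) := by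
    rw [← Finset.prod_pow_eq_pow_sum]
    exact Associated.prod _ _ _ fun i _ => hn1 i
  intro hd
  have h3 : ϖ ^ (k + 1) ∣ ϖ ^ (∑ i, n i) := by
    have h4 : Associated ((ab.toMatrix bv).det * ∏ i, a i) (ϖ ^ (∑ i, n i)) :=
      (associated_unit_mul_left _ _ hu).trans hprod
    exact h4.dvd_iff_dvd_right.mp hd
  rw [pow_dvd_pow_iff hϖ.ne_zero hϖ.not_isUnit] at h3
  omega

end DVR

section Main

variable {A : Type} [CommRing A] [IsDomain A] [IsDiscreteValuationRing A] [Algebra P3 A]

lemma IsPrimeDivisor.isFractionRing (hA : IsPrimeDivisor P3 A) :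
    IsFractionRing P3 (FractionRing A) := by
  have hinjK : Function.Injective (algebraMap P3 (FractionRing A)) := by
    rw [IsScalarTower.algebraMap_eq P3 A (FractionRing A)]
    exact (IsFractionRing.injective A (FractionRing A)).comp hA.injective
  refine ⟨?_, ?_, ?_⟩
  · intro y
    rw [isUnit_iff_ne_zero]
    intro h
    exact nonZeroDivisors.coe_ne_zero y (hinjK (by rw [h, map_zero]))
  · intro z
    obtain ⟨a, b, hb, rfl⟩ := IsFractionRing.div_surjective (A := A) z
    have hb0 : b ≠ 0 := nonZeroDivisors.ne_zero hb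
    obtain ⟨r1, s1, hs1, e1⟩ := hA.birational a
    obtain ⟨r2, s2, hs2, e2⟩ := hA.birational b
    have hr2 : r2 ≠ 0 := by
      rintro rfl
      rw [map_zero, mul_eq_zero] at e2
      rcases e2 with e2 | e2
      · exact hs2 (hA.injective (by rw [e2, map_zero]))
      · exact hb0 e2
    refine ⟨(r1 * s2, ⟨s1 * r2, mem_nonZeroDivisors_of_ne_zero (mul_ne_zero hs1 hr2)⟩), ?_⟩
    have hbK : algebraMap A (FractionRing A) b ≠ 0 := by
      intro h
      exact hb0 (IsFractionRing.injective A (FractionRing A) (by rw [h, map_zero]))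
    simp only
    rw [IsScalarTower.algebraMap_apply P3 A (FractionRing A),
      IsScalarTower.algebraMap_apply P3 A (FractionRing A), map_mul (algebraMap P3 A) s1 r2,
      map_mul (algebraMap P3 A) r1 s2, ← e1, ← e2]
    simp only [map_mul]
    field_simp
  · intro x y hxy
    exact ⟨1, by rw [hinjK hxy]⟩

theorem IsPrimeDivisor.exists_derivations (hA : IsPrimeDivisor P3 A) [Algebra ℂ A]
    [IsScalarTower ℂ P3 A] {k : ℕ} (hk : Module.length A (Ω[A⁄P3]) = k) {ϖ : A}
    (hϖ : Irreducible ϖ) :
    ∃ d : Fin 3 → Derivation ℂ A A,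
      ¬ ϖ ^ (k + 1) ∣ Matrix.det (Matrix.of fun i j => d j (algebraMap P3 A (X i))) := by
  have hess : Algebra.EssFiniteType P3 A := hA.essFiniteType
  have hess2 : Algebra.EssFiniteType ℂ A := Algebra.EssFiniteType.comp ℂ P3 A
  have hfin : Module.Finite A (Ω[A⁄ℂ]) := inferInstance
  have hfr := hA.isFractionRing
  let M := Ω[A⁄ℂ] ⧸ Submodule.torsion A (Ω[A⁄ℂ])
  have hfree : Module.Free A M := Module.free_of_finite_type_torsion_free'
  set v : Fin 3 → M := fun i => Submodule.Quotient.mk (KaehlerDifferential.D ℂ A (algebraMap P3 A (X i)))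
    with hv
  have hli : LinearIndependent A v := by
    have hKli : LinearIndependent (FractionRing A)
        ((KaehlerDifferential.map ℂ ℂ P3 (FractionRing A)) ∘
          (KaehlerDifferential.mvPolynomialBasis ℂ (Fin 3))) :=
      (KaehlerDifferential.mvPolynomialBasis ℂ (Fin 3)).linearIndependent.of_isLocalizedModule
        (FractionRing A) (nonZeroDivisors P3) _
    rw [Fintype.linearIndependent_iff] at hKli ⊢
    intro a ha
    have h1 : (Submodule.Quotient.mk (∑ i, a i • KaehlerDifferential.D ℂ A (algebraMap P3 A (X i))) :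
        M) = 0 := by
      rw [← ha, ← Submodule.mkQ_apply, map_sum]
      rfl
    rw [Submodule.Quotient.mk_eq_zero, Submodule.mem_torsion_iff] at h1
    obtain ⟨c, hc⟩ := h1
    have h2 := congrArg (KaehlerDifferential.map ℂ ℂ A (FractionRing A)) hc
    rw [map_zero, Submonoid.smul_def, map_smul, map_sum, Finset.smul_sum] at h2
    have h3 := hKli (fun i => algebraMap A (FractionRing A) (c * a i)) (by
      rw [← h2]
      refine Finset.sum_congr rfl fun i _ => ?_
      rw [map_smul, smul_smul, KaehlerDifferential.map_D, Function.comp_apply,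
        KaehlerDifferential.mvPolynomialBasis_apply, KaehlerDifferential.map_D,
        ← IsScalarTower.algebraMap_apply, algebraMap_smul])
    intro i
    have h4 := h3 i
    have h5 : (c : A) * a i = 0 :=
      IsFractionRing.injective A (FractionRing A) (by rw [h4, map_zero])
    exact (mul_eq_zero.mp h5).resolve_left (nonZeroDivisors.coe_ne_zero c)
  have hlen : Module.length A (M ⧸ Submodule.span A (Set.range v)) ≤ k := by
    rw [← hk]
    set S := Submodule.span A
      (Set.range fun i : Fin 3 => KaehlerDifferential.D ℂ A (algebraMap P3 A (X i))) with hS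
    have hDf : ∀ f : P3, KaehlerDifferential.D ℂ A (algebraMap P3 A f) ∈ S := by
      intro f
      induction f using MvPolynomial.induction_on with
      | C c =>
        have : algebraMap P3 A (C c) = algebraMap ℂ A c :=
          (IsScalarTower.algebraMap_apply ℂ P3 A c).symm
        rw [this, Derivation.map_algebraMap]
        exact S.zero_mem
      | add p q hp hq =>
        rw [map_add, map_add]
        exact S.add_mem hp hq
      | mul_X p i hp =>
        rw [map_mul, Derivation.leibniz]
        exact S.add_mem (S.smul_mem _ (Submodule.subset_span ⟨i, rfl⟩)) (S.smul_mem _ hp)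
    have hmap : ∀ ω : Ω[P3⁄ℂ], KaehlerDifferential.map ℂ ℂ P3 A ω ∈ S := by
      intro ω
      have hω : ω ∈ Submodule.span P3 (Set.range (KaehlerDifferential.D ℂ P3)) := by
        rw [KaehlerDifferential.span_range_derivation]; trivial
      induction hω using Submodule.span_induction with
      | mem x hx =>
        obtain ⟨f, rfl⟩ := hx
        rw [KaehlerDifferential.map_D]
        exact hDf f
      | zero => rw [map_zero]; exact S.zero_mem
      | add x y _ _ hx hy => rw [map_add]; exact S.add_mem hx hy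
      | smul a x _ hx =>
        rw [map_smul, ← algebraMap_smul A a]
        exact S.smul_mem _ hx
    set π : Ω[A⁄ℂ] →ₗ[A] (M ⧸ Submodule.span A (Set.range v)) :=
      (Submodule.mkQ _).comp (Submodule.mkQ _) with hπ
    have hπs : Function.Surjective π :=
      (Submodule.mkQ_surjective _).comp (Submodule.mkQ_surjective _)
    have hSπ : S ≤ LinearMap.ker π := by
      rw [hS, Submodule.span_le]
      rintro _ ⟨i, rfl⟩
      rw [SetLike.mem_coe, LinearMap.mem_ker, hπ, LinearMap.comp_apply, Submodule.mkQ_apply,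
        Submodule.Quotient.mk_eq_zero]
      exact Submodule.subset_span ⟨i, rfl⟩
    set ψ := KaehlerDifferential.map ℂ P3 A A with hψ
    have hψs : Function.Surjective ψ := KaehlerDifferential.map_surjective ℂ P3 A
    have hker : LinearMap.ker ψ ≤ LinearMap.ker π := by
      intro x hx
      obtain ⟨t, rfl⟩ := (KaehlerDifferential.exact_mapBaseChange_map ℂ P3 A x).mp hx
      apply hSπ
      clear hx
      induction t using TensorProduct.induction_on with
      | zero => rw [map_zero]; exact S.zero_mem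
      | tmul a ω =>
        rw [KaehlerDifferential.mapBaseChange_tmul]
        exact S.smul_mem _ (hmap ω)
      | add x y hx hy => rw [map_add]; exact S.add_mem hx hy
    have h1 := Module.length_le_of_surjective (Submodule.liftQ (LinearMap.ker ψ) π hker) (by
      intro y
      obtain ⟨x, rfl⟩ := hπs y
      exact ⟨Submodule.Quotient.mk x, Submodule.liftQ_apply _ _ _⟩)
    rwa [(LinearMap.quotKerEquivOfSurjective ψ hψs).length_eq] at h1
  obtain ⟨φ, hφ⟩ := exists_functionals hli hlen hϖ
  refine ⟨fun j => ((φ j).comp (Submodule.mkQ _)).compDer (KaehlerDifferential.D ℂ A), ?_⟩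
  exact hφ

end Main

end Pool.Agent.MPafef76

end

section

/-!
# Interpolation at points and the number of common zeros
-/

set_option autoImplicit false

namespace Pool.Agent.MPafef76

open MvPolynomial Module

/-- `u` and `w` are parallel. -/
def Par (u w : Fin 3 → ℂ) : Prop := ∀ i j, u j * w i = u i * w j

lemma Par.symm {u w : Fin 3 → ℂ} (h : Par u w) : Par w u := fun i j => by
  rw [mul_comm (w j), mul_comm (w i)]
  exact (h i j).symm

lemma Par.exists_smul {u w : Fin 3 → ℂ} (hu : u ≠ 0) (h : Par u w) : ∃ c : ℂ, w = c • u := by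
  obtain ⟨j, hj⟩ : ∃ j, u j ≠ 0 := by
    by_contra h
    push Not at h
    exact hu (funext h)
  refine ⟨w j / u j, funext fun i => ?_⟩
  have := h i j
  simp only [Pi.smul_apply, smul_eq_mul]
  field_simp
  linear_combination this

lemma par_smul (u : Fin 3 → ℂ) (c : ℂ) : Par u (c • u) := fun i j => by
  simp only [Pi.smul_apply, smul_eq_mul]; ring

/-- If `u, w` are not parallel, some linear form vanishes at `u` but not at `w`. -/
lemma exists_lin {u w : Fin 3 → ℂ} (h : ¬ Par u w) :
    ∃ L : P3, L.IsHomogeneous 1 ∧ eval u L = 0 ∧ eval w L ≠ 0 := by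
  simp only [Par, not_forall] at h
  obtain ⟨i, j, hij⟩ := h
  refine ⟨lin u j i, lin_homog _ _ _, lin_eval_self _ _ _, ?_⟩
  simp only [lin, map_sub, map_mul, eval_C, eval_X]
  intro h0
  exact hij (sub_eq_zero.mp h0)

/-- A linear form not vanishing at a nonzero point. -/
lemma exists_lin_ne {w : Fin 3 → ℂ} (h : w ≠ 0) :
    ∃ L : P3, L.IsHomogeneous 1 ∧ eval w L = 1 := by
  obtain ⟨j, hj⟩ : ∃ j, w j ≠ 0 := by
    by_contra h'
    push Not at h'
    exact h (funext h')
  refine ⟨C (w j)⁻¹ * X j, isHomogeneous_C_mul_X _ _, ?_⟩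
  simp [hj]

/-- interpolation at pairwise non-parallel points -/
lemma exists_interp_single {N : ℕ} {p : Fin N → Fin 3 → ℂ}
    (hpar : ∀ i j, i ≠ j → ¬ Par (p i) (p j)) (k : Fin N) (hk : p k ≠ 0) {d : ℕ} (hd : N ≤ d + 1) :
    ∃ f : P3, f.IsHomogeneous d ∧ ∀ i, eval (p i) f = if i = k then 1 else 0 := by
  classical
  have h1 : ∀ j : Fin N, ∃ L : P3, L.IsHomogeneous 1 ∧
      (j ≠ k → eval (p j) L = 0) ∧ eval (p k) L ≠ 0 := by
    intro j
    by_cases hj : j = k
    · obtain ⟨L, hL1, hL2⟩ := exists_lin_ne hk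
      exact ⟨L, hL1, fun h => absurd hj h, by rw [hL2]; exact one_ne_zero⟩
    · obtain ⟨L, hL1, hL2, hL3⟩ := exists_lin (hpar j k hj)
      exact ⟨L, hL1, fun _ => hL2, hL3⟩
  choose L hL1 hL2 hL3 using h1
  obtain ⟨M, hM1, hM2⟩ := exists_lin_ne hk
  have hcard : (Finset.univ.erase k).card = N - 1 := by
    rw [Finset.card_erase_of_mem (Finset.mem_univ _)]; simp
  set g : P3 := (∏ j ∈ Finset.univ.erase k, L j) * M ^ (d - (N - 1)) with hg
  have hg1 : g.IsHomogeneous d := by
    have h2 : (∏ j ∈ Finset.univ.erase k, L j).IsHomogeneous (∑ _j ∈ Finset.univ.erase k, 1) :=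
      IsHomogeneous.prod _ _ _ (fun j _ => hL1 j)
    rw [Finset.sum_const, hcard, smul_eq_mul, mul_one] at h2
    have h3 := h2.mul (hM1.pow (d - (N - 1)))
    have : N - 1 + 1 * (d - (N - 1)) = d := by omega
    rwa [this] at h3
  have hgk : eval (p k) g ≠ 0 := by
    rw [hg, map_mul, map_prod, map_pow, hM2, one_pow, mul_one, Finset.prod_ne_zero_iff]
    exact fun j _ => hL3 j
  have hgi : ∀ i, i ≠ k → eval (p i) g = 0 := by
    intro i hi
    rw [hg, map_mul, map_prod, Finset.prod_eq_zero (i := i), zero_mul]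
    · exact Finset.mem_erase.mpr ⟨hi, Finset.mem_univ _⟩
    · exact hL2 i hi
  refine ⟨C (eval (p k) g)⁻¹ * g, hg1.C_mul _, fun i => ?_⟩
  rw [map_mul, eval_C]
  by_cases hi : i = k
  · subst hi
    rw [if_pos rfl, inv_mul_cancel₀ hgk]
  · rw [if_neg hi, hgi i hi, mul_zero]

lemma exists_interp {N : ℕ} {p : Fin N → Fin 3 → ℂ} (hne : ∀ i, p i ≠ 0)
    (hpar : ∀ i j, i ≠ j → ¬ Par (p i) (p j)) {d : ℕ} (hd : N ≤ d + 1) (y : Fin N → ℂ) :
    ∃ f : P3, f.IsHomogeneous d ∧ ∀ i, eval (p i) f = y i := by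
  choose f hf1 hf2 using fun k => exists_interp_single hpar k (hne k) hd
  refine ⟨∑ k, C (y k) * f k, IsHomogeneous.sum _ _ _ (fun k _ => (hf1 k).C_mul _), fun i => ?_⟩
  rw [map_sum]
  simp [hf2]

/-- evaluation at finitely many points, as a linear map -/
noncomputable def evs {N : ℕ} (p : Fin N → Fin 3 → ℂ) : P3 →ₗ[ℂ] (Fin N → ℂ) :=
  LinearMap.pi fun i => (aeval (p i) : P3 →ₐ[ℂ] ℂ).toLinearMap

lemma evs_apply {N : ℕ} (p : Fin N → Fin 3 → ℂ) (f : P3) (i : Fin N) :
    evs p f i = eval (p i) f := rfl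

/-- At most `a b` common zeros. -/
theorem card_zeros_le {A B : P3} {a b N : ℕ} (hA : A.IsHomogeneous a) (hB : B.IsHomogeneous b)
    (hAB : IsRelPrime A B) (hA0 : A ≠ 0) (hB0 : B ≠ 0) {p : Fin N → Fin 3 → ℂ}
    (hne : ∀ i, p i ≠ 0) (hpar : ∀ i j, i ≠ j → ¬ Par (p i) (p j))
    (hpA : ∀ i, eval (p i) A = 0) (hpB : ∀ i, eval (p i) B = 0) : N ≤ a * b := by
  refine bezout_count hA hB hAB hA0 hB0 N (evs p) ?_ ?_ ?_
  · intro α _
    funext i
    rw [evs_apply, map_mul, hpA i, zero_mul]; rfl
  · intro β _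
    funext i
    rw [evs_apply, map_mul, hpB i, zero_mul]; rfl
  · intro y
    obtain ⟨f, hf1, hf2⟩ := exists_interp hne hpar (d := a + b + N) (by omega) y
    exact ⟨f, hf1, funext hf2⟩

/-- directional derivative at a point, as a linear map -/
noncomputable def dirD (v p : Fin 3 → ℂ) : P3 →ₗ[ℂ] ℂ :=
  ∑ i, v i • ((aeval p : P3 →ₐ[ℂ] ℂ).toLinearMap.comp (pderiv i : Derivation ℂ P3 P3).toLinearMap)

lemma dirD_apply (v p : Fin 3 → ℂ) (f : P3) : dirD v p f = ∑ i, v i * grad f p i := by
  simp only [dirD, LinearMap.sum_apply, LinearMap.smul_apply, smul_eq_mul]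
  rfl

lemma dirD_mul (v p : Fin 3 → ℂ) (f g : P3) :
    dirD v p (f * g) = eval p f * dirD v p g + dirD v p f * eval p g := by
  simp only [dirD_apply, grad, pderiv_mul, map_add, map_mul, Fin.sum_univ_three]
  ring

lemma dirD_lin {L : P3} (hL : L.IsHomogeneous 1) (v p : Fin 3 → ℂ) :
    dirD v p L = eval v L := by
  have hmem : L ∈ homogeneousSubmodule (Fin 3) ℂ 1 := hL
  rw [homogeneousSubmodule_one_eq_span_X] at hmem
  refine Submodule.span_induction ?_ ?_ ?_ ?_ hmem
  · rintro _ ⟨i, rfl⟩
    rw [dirD_apply]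
    simp only [grad, pderiv_X, eval_X]
    rw [Finset.sum_eq_single i]
    · simp
    · intro j _ hj
      rw [Pi.single_eq_of_ne (Ne.symm hj)]
      simp
    · simp
  · simp
  · intro x y _ _ hx hy
    simp [hx, hy]
  · intro a x _ hx
    rw [map_smul, hx, smul_eval, smul_eq_mul]

/-- Transversality is forced if the Bezout number of common zeros is attained. -/
theorem transversal_of_card {A B : P3} {a b N : ℕ} (hA : A.IsHomogeneous a) (hB : B.IsHomogeneous b)
    (hAB : IsRelPrime A B) (hA0 : A ≠ 0) (hB0 : B ≠ 0) {p : Fin N → Fin 3 → ℂ}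
    (hne : ∀ i, p i ≠ 0) (hpar : ∀ i j, i ≠ j → ¬ Par (p i) (p j))
    (hpA : ∀ i, eval (p i) A = 0) (hpB : ∀ i, eval (p i) B = 0) (hN : N = a * b)
    (hsm : ∀ i, grad A (p i) ≠ 0) (k : Fin N) : Transversal A B (p k) := by
  classical
  intro s t hst
  by_contra hcon
  have ht : t ≠ 0 := by
    rintro rfl
    apply hcon
    refine ⟨?_, rfl⟩
    by_contra hs
    rw [zero_smul, add_zero, smul_eq_zero] at hst
    rcases hst with h | h
    · exact hs h
    · exact hsm k h
  -- a direction in the kernel of `grad A`, not parallel to `p k`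
  obtain ⟨v, hv1, hv2⟩ : ∃ v : Fin 3 → ℂ, (∑ i, v i * grad A (p k) i = 0) ∧ ¬ Par (p k) v := by
    set L : P3 := ∑ i, C (grad A (p k) i) * X i with hL
    have hLh : L.IsHomogeneous 1 := IsHomogeneous.sum _ _ _ fun i _ => isHomogeneous_C_mul_X _ _
    have hLe : ∀ v : Fin 3 → ℂ, eval v L = ∑ i, v i * grad A (p k) i := by
      intro v
      rw [hL, map_sum]
      refine Finset.sum_congr rfl fun i _ => ?_
      rw [map_mul, eval_C, eval_X, mul_comm]
    obtain ⟨u, v, hind, hz⟩ := exists_plane hLh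
    by_cases hu : Par (p k) u
    · refine ⟨v, ?_, ?_⟩
      · have := hz 0 1
        rw [← hLe]; simpa using this
      · intro hv
        obtain ⟨c, hc⟩ := hu.exists_smul (hne k)
        obtain ⟨e, he⟩ := hv.exists_smul (hne k)
        have h1 := hind e (-c) (by rw [hc, he, smul_smul, smul_smul]; rw [neg_mul, mul_comm c e]; simp)
        have hc0 : c = 0 := by simpa using h1.2
        have h2 := hind 1 0 (by rw [hc, hc0]; simp)
        exact one_ne_zero h2.1
    · refine ⟨u, ?_, hu⟩
      have := hz 1 0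
      rw [← hLe]; simpa using this
  have hvB : ∑ i, v i * grad B (p k) i = 0 := by
    have h1 : ∑ i, v i * (s • grad A (p k) + t • grad B (p k)) i = 0 := by
      rw [hst]; simp
    have h2 : ∑ i, v i * (s • grad A (p k) + t • grad B (p k)) i =
        s * ∑ i, v i * grad A (p k) i + t * ∑ i, v i * grad B (p k) i := by
      simp only [Pi.add_apply, Pi.smul_apply, smul_eq_mul, Fin.sum_univ_three]
      ring
    rw [h2, hv1, mul_zero, zero_add] at h1
    exact (mul_eq_zero.mp h1).resolve_left ht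
  -- the functional
  let T : P3 →ₗ[ℂ] (Fin (N + 1) → ℂ) :=
    LinearMap.pi (Fin.lastCases (dirD v (p k))
      (fun i => (aeval (p i) : P3 →ₐ[ℂ] ℂ).toLinearMap))
  have hTc : ∀ (f : P3) (i : Fin N), T f i.castSucc = eval (p i) f := by
    intro f i
    simp [T, MvPolynomial.aeval_eq_eval]
  have hTl : ∀ (f : P3), T f (Fin.last N) = dirD v (p k) f := by
    intro f
    simp [T]
  have hle : N + 1 ≤ a * b := by
    refine bezout_count hA hB hAB hA0 hB0 (N + 1) T ?_ ?_ ?_
    · intro α _
      funext i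
      refine Fin.lastCases ?_ (fun i => ?_) i
      · rw [hTl, dirD_mul, hpA, dirD_apply v (p k) A, hv1]
        simp
      · rw [hTc, map_mul, hpA]; simp
    · intro β _
      funext i
      refine Fin.lastCases ?_ (fun i => ?_) i
      · rw [hTl, dirD_mul, hpB, dirD_apply v (p k) B, hvB]
        simp
      · rw [hTc, map_mul, hpB]; simp
    · intro y
      -- a form vanishing at all points with nonzero derivative at `p k`
      obtain ⟨L, hL1, hL2, hL3⟩ := exists_lin hv2
      obtain ⟨g, hg1, hg2⟩ := exists_interp_single hpar k (hne k) (d := a + b + N) (by omega)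
      obtain ⟨f, hf1, hf2⟩ := exists_interp hne hpar (d := a + b + (N + 1)) (by omega)
        (fun i => y i.castSucc)
      have hgk := hg2 k
      rw [if_pos rfl] at hgk
      set c : ℂ := (y (Fin.last N) - dirD v (p k) f) / eval v L with hc
      refine ⟨f + C c * (g * L), ?_, ?_⟩
      · refine hf1.add ?_
        apply IsHomogeneous.C_mul
        exact hg1.mul hL1
      · funext i
        refine Fin.lastCases ?_ (fun i => ?_) i
        · rw [hTl, map_add, dirD_mul, dirD_mul, dirD_lin hL1, hgk]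
          simp only [eval_C, map_mul, hL2, mul_zero, add_zero, one_mul]
          rw [hc, div_mul_cancel₀ _ hL3]
          ring
        · rw [hTc, map_add, map_mul, map_mul, hf2, hg2]
          split_ifs with h
          · subst h
            rw [hL2]; ring
          · ring
  omega

end Pool.Agent.MPafef76

end

section

/-!
# Prime divisors given by a polynomial chart
-/

set_option autoImplicit false

namespace Pool.Agent.MPafef76

open MvPolynomial

section DVR

variable {T : Type} [CommRing T] [IsDomain T] [IsNoetherianRing T] {ϖ : T}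

/-- localization at a principal prime ideal of a noetherian domain -/
lemma isDVR_localization (hϖ : Prime ϖ) (hP : (Ideal.span {ϖ}).IsPrime) :
    IsDiscreteValuationRing (Localization.AtPrime (Ideal.span {ϖ})) ∧
    IsLocalRing.maximalIdeal (Localization.AtPrime (Ideal.span {ϖ})) =
      Ideal.span {algebraMap T (Localization.AtPrime (Ideal.span {ϖ})) ϖ} := by
  set A := Localization.AtPrime (Ideal.span {ϖ})
  have hmax : IsLocalRing.maximalIdeal A = Ideal.span {algebraMap T A ϖ} := by
    rw [← Localization.AtPrime.map_eq_maximalIdeal, Ideal.map_span, Set.image_singleton]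
  have : IsDomain A := IsLocalization.isDomain_localization (by
    intro x hx
    rw [mem_nonZeroDivisors_iff_ne_zero]
    rintro rfl
    exact hx (Ideal.zero_mem _))
  have : IsNoetherianRing A := IsLocalization.isNoetherianRing (Ideal.span {ϖ}).primeCompl A
    inferInstance
  have hinj : Function.Injective (algebraMap T A) :=
    IsLocalization.injective A (by
      intro x hx
      rw [mem_nonZeroDivisors_iff_ne_zero]
      rintro rfl
      exact hx (Ideal.zero_mem _) : (Ideal.span {ϖ}).primeCompl ≤ nonZeroDivisors T)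
  have hnf : ¬ IsField A := by
    rw [IsLocalRing.isField_iff_maximalIdeal_eq, hmax, Ideal.span_singleton_eq_bot]
    intro h
    exact hϖ.ne_zero (hinj (by rw [h, map_zero]))
  refine ⟨?_, hmax⟩
  refine ((IsDiscreteValuationRing.TFAE A hnf).out 0 4).mpr ?_
  rw [hmax]
  exact ⟨⟨_, rfl⟩⟩

end DVR

section Length

variable {A : Type*} [CommRing A] [IsDomain A] [IsDiscreteValuationRing A] {M : Type*}
  [AddCommGroup M] [Module A M]

open IsLocalRing in
/-- A module generated by two elements killed by powers of the maximal ideal. -/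
lemma length_le_of_two {m1 m2 : M} {k1 k2 : ℕ} (hspan : Submodule.span A {m1, m2} = ⊤)
    (h1 : ∀ x ∈ maximalIdeal A ^ k1, x • m1 = 0) (h2 : ∀ x ∈ maximalIdeal A ^ k2, x • m2 = 0) :
    Module.length A M ≤ k1 + k2 := by
  let f1 : (A ⧸ maximalIdeal A ^ k1) →ₗ[A] M :=
    Submodule.liftQ _ (LinearMap.toSpanSingleton A M m1) (fun x hx => by
      rw [LinearMap.mem_ker, LinearMap.toSpanSingleton_apply]; exact h1 x hx)
  let f2 : (A ⧸ maximalIdeal A ^ k2) →ₗ[A] M :=
    Submodule.liftQ _ (LinearMap.toSpanSingleton A M m2) (fun x hx => by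
      rw [LinearMap.mem_ker, LinearMap.toSpanSingleton_apply]; exact h2 x hx)
  have hf1 : f1 (Submodule.Quotient.mk 1) = m1 := by
    simp only [f1, Submodule.liftQ_apply, LinearMap.toSpanSingleton_apply, one_smul]
  have hf2 : f2 (Submodule.Quotient.mk 1) = m2 := by
    simp only [f2, Submodule.liftQ_apply, LinearMap.toSpanSingleton_apply, one_smul]
  let f := f1.coprod f2
  have hsurj : Function.Surjective f := by
    rw [← LinearMap.range_eq_top, eq_top_iff, ← hspan, Submodule.span_le]
    intro x hx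
    rcases hx with rfl | hx
    · refine ⟨(Submodule.Quotient.mk 1, 0), ?_⟩
      rw [LinearMap.coprod_apply, map_zero, add_zero]
      exact hf1
    · rw [Set.mem_singleton_iff] at hx
      subst hx
      refine ⟨(0, Submodule.Quotient.mk 1), ?_⟩
      rw [LinearMap.coprod_apply, map_zero, zero_add]
      exact hf2
  have := Module.length_le_of_surjective f hsurj
  rw [Module.length_prod, IsDiscreteValuationRing.length_quotient_pow_maximalIdeal,
    IsDiscreteValuationRing.length_quotient_pow_maximalIdeal] at this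
  exact this

end Length

section Span

variable {R T A : Type*} [CommRing R] [CommRing T] [CommRing A] [Algebra R T] [Algebra T A]
  [Algebra R A] [IsScalarTower R T A]

/-- Differentials of a localization of `T` are generated by the differentials of generators
of `T`. -/
lemma span_D_generators (M : Submonoid T) [IsLocalization M A] {ι : Type*} (g : ι → T)
    (hg : Algebra.adjoin R (Set.range g) = ⊤) :
    Submodule.span A (Set.range fun i => KaehlerDifferential.D R A (algebraMap T A (g i))) = ⊤ := by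
  set N := Submodule.span A (Set.range fun i => KaehlerDifferential.D R A (algebraMap T A (g i)))
    with hN
  have h1 : ∀ t : T, KaehlerDifferential.D R A (algebraMap T A t) ∈ N := by
    intro t
    have ht : t ∈ Algebra.adjoin R (Set.range g) := by rw [hg]; trivial
    induction ht using Algebra.adjoin_induction with
    | mem x hx =>
      obtain ⟨i, rfl⟩ := hx
      exact Submodule.subset_span ⟨i, rfl⟩
    | algebraMap r =>
      rw [← IsScalarTower.algebraMap_apply, Derivation.map_algebraMap]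
      exact N.zero_mem
    | add x y _ _ hx hy =>
      rw [map_add, map_add]
      exact N.add_mem hx hy
    | mul x y _ _ hx hy =>
      rw [map_mul, Derivation.leibniz]
      exact N.add_mem (N.smul_mem _ hy) (N.smul_mem _ hx)
  rw [eq_top_iff, ← KaehlerDifferential.span_range_map_derivation_of_isLocalization R T A M,
    Submodule.span_le]
  rintro _ ⟨t, rfl⟩
  rw [Function.comp_apply, KaehlerDifferential.map_D]
  exact h1 t

end Span

section Key

variable {T : Type} [CommRing T] [IsDomain T] [IsNoetherianRing T] [Algebra P3 T]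
  [Algebra.FiniteType P3 T] {ϖ : T}

omit [IsNoetherianRing T] [Algebra P3 T] [Algebra.FiniteType P3 T] in
lemma algebraMap_mem_pow_iff (hϖ : Prime ϖ) (hP : (Ideal.span {ϖ}).IsPrime) (t : T) (j : ℕ) :
    algebraMap T (Localization.AtPrime (Ideal.span {ϖ})) t ∈
      Ideal.span {algebraMap T (Localization.AtPrime (Ideal.span {ϖ})) ϖ} ^ j ↔ ϖ ^ j ∣ t := by
  set A := Localization.AtPrime (Ideal.span {ϖ})
  have hinj : Function.Injective (algebraMap T A) :=
    IsLocalization.injective A (by
      intro x hx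
      rw [mem_nonZeroDivisors_iff_ne_zero]
      rintro rfl
      exact hx (Ideal.zero_mem _) : (Ideal.span {ϖ}).primeCompl ≤ nonZeroDivisors T)
  rw [Ideal.span_singleton_pow, Ideal.mem_span_singleton]
  constructor
  · rintro ⟨x, hx⟩
    obtain ⟨⟨a, s⟩, hs⟩ := IsLocalization.surj (Ideal.span {ϖ}).primeCompl x
    simp only at hs
    have h1 : t * s = ϖ ^ j * a := by
      apply hinj
      rw [map_mul, map_mul, map_pow, hx, ← hs]
      ring
    have hns : ¬ ϖ ∣ (s : T) := by
      intro h
      exact s.2 (Ideal.mem_span_singleton.mpr h)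
    exact hϖ.pow_dvd_of_dvd_mul_right j hns ⟨a, h1⟩
  · rintro ⟨x, rfl⟩
    exact ⟨algebraMap T A x, by rw [map_mul, map_pow]⟩

/-- **Necessary conditions from a chart.** -/
theorem dvd_of_mem_multiplierIdeal (hϖ : Prime ϖ) (hP : (Ideal.span {ϖ}).IsPrime)
    (hinj : Function.Injective (algebraMap P3 T))
    (hbir : ∀ t : T, ∃ r s : P3, s ≠ 0 ∧ algebraMap P3 T s * t = algebraMap P3 T r)
    {K : ℕ} (hlen : Module.length (Localization.AtPrime (Ideal.span {ϖ}))
      (Ω[Localization.AtPrime (Ideal.span {ϖ})⁄P3]) ≤ K)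
    {𝔞 : Ideal P3} {n : ℕ} (hn1 : ∀ g ∈ 𝔞, ϖ ^ n ∣ algebraMap P3 T g)
    (hn2 : ∃ g ∈ 𝔞, ¬ ϖ ^ (n + 1) ∣ algebraMap P3 T g)
    {c : ℝ} {f : P3} (hf : f ∈ multiplierIdeal 𝔞 c) :
    ϖ ^ (⌊c * n⌋₊ - K) ∣ algebraMap P3 T f := by
  set A := Localization.AtPrime (Ideal.span {ϖ})
  obtain ⟨hdvr, hmax⟩ := isDVR_localization hϖ hP
  have hinjA : Function.Injective (algebraMap T A) :=
    IsLocalization.injective A (by
      intro x hx
      rw [mem_nonZeroDivisors_iff_ne_zero]
      rintro rfl
      exact hx (Ideal.zero_mem _) : (Ideal.span {ϖ}).primeCompl ≤ nonZeroDivisors T)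
  have hA : IsPrimeDivisor P3 A := by
    refine ⟨?_, ?_, ?_⟩
    · rw [IsScalarTower.algebraMap_eq P3 T A]
      exact hinjA.comp hinj
    · intro x
      obtain ⟨⟨a, s⟩, hs⟩ := IsLocalization.surj (Ideal.span {ϖ}).primeCompl x
      simp only at hs
      obtain ⟨r1, s1, hs1, e1⟩ := hbir a
      obtain ⟨r2, s2, hs2, e2⟩ := hbir (s : T)
      -- x = a / s = (r1 / s1) / (r2 / s2)
      have hs0 : (s : T) ≠ 0 := by
        intro h
        apply s.2
        rw [SetLike.mem_coe, h]
        exact Ideal.zero_mem _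
      have hr2 : r2 ≠ 0 := by
        rintro rfl
        rw [map_zero, mul_eq_zero] at e2
        rcases e2 with e2 | e2
        · exact hs2 (hinj (by rw [e2, map_zero]))
        · exact hs0 e2
      refine ⟨r1 * s2, s1 * r2, mul_ne_zero hs1 hr2, ?_⟩
      rw [IsScalarTower.algebraMap_apply P3 T A, IsScalarTower.algebraMap_apply P3 T A,
        map_mul (algebraMap P3 T) s1 r2, map_mul (algebraMap P3 T) r1 s2, ← e1, ← e2]
      have h3 : algebraMap T A (algebraMap P3 T s1 * (algebraMap P3 T s2 * ↑s)) * x =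
          algebraMap T A (algebraMap P3 T s1 * algebraMap P3 T s2) * (x * algebraMap T A s) := by
        simp only [map_mul]; ring
      rw [h3, hs, ← map_mul]
      congr 1
      ring
    · exact Algebra.EssFiniteType.comp P3 T A
  obtain ⟨k, hk⟩ : ∃ k : ℕ, Module.length A (Ω[A⁄P3]) = k := by
    have : Module.length A (Ω[A⁄P3]) ≠ ⊤ := ne_top_of_le_ne_top (by simp) hlen
    exact ⟨_, (ENat.natCast_toNat this).symm⟩
  have hkK : k ≤ K := by
    rw [hk] at hlen
    exact_mod_cast hlen
  have hmap : 𝔞.map (algebraMap P3 A) = IsLocalRing.maximalIdeal A ^ n := by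
    apply le_antisymm
    · rw [Ideal.map_le_iff_le_comap]
      intro g hg
      rw [Ideal.mem_comap, hmax, IsScalarTower.algebraMap_apply P3 T A, algebraMap_mem_pow_iff hϖ hP]
      exact hn1 g hg
    · obtain ⟨g, hg, hg2⟩ := hn2
      obtain ⟨u, hu⟩ := hn1 g hg
      have hnu : ¬ ϖ ∣ u := by
        rintro ⟨v, hv⟩
        apply hg2
        rw [hu, hv]
        exact ⟨v, by ring⟩
      have hunit : IsUnit (algebraMap T A u) := by
        rw [IsLocalization.AtPrime.isUnit_to_map_iff A (Ideal.span {ϖ})]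
        intro h
        exact hnu (Ideal.mem_span_singleton.mp h)
      rw [hmax, Ideal.span_singleton_pow, Ideal.span_singleton_le_iff_mem]
      have h1 : algebraMap P3 A g ∈ 𝔞.map (algebraMap P3 A) := Ideal.mem_map_of_mem _ hg
      rw [IsScalarTower.algebraMap_apply P3 T A, hu, map_mul, map_pow] at h1
      obtain ⟨v, hv⟩ := hunit
      rw [← hv] at h1
      have := Ideal.mul_mem_right ((v⁻¹ : Aˣ) : A) _ h1
      rwa [mul_assoc, Units.mul_inv, mul_one] at this
  have h1 := mem_multiplierIdeal.mp hf A hA n k hmap hk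
  rw [hmax, IsScalarTower.algebraMap_apply P3 T A, algebraMap_mem_pow_iff hϖ hP] at h1
  exact dvd_trans (pow_dvd_pow _ (by omega)) h1

omit [Algebra.FiniteType P3 T] in
open IsLocalRing in
/-- length of the differentials of a toric chart -/
lemma length_toric_le (hϖ : Prime ϖ) (hP : (Ideal.span {ϖ}).IsPrime) {g1 g2 : T} {k1 k2 : ℕ}
    (hg : Algebra.adjoin P3 (Set.range (![ϖ, g1, g2] : Fin 3 → T)) = ⊤)
    (h0 : ∃ l : P3, algebraMap P3 T l = ϖ) (h1 : ∃ l : P3, algebraMap P3 T l = g1 * ϖ ^ k1)
    (h2 : ∃ l : P3, algebraMap P3 T l = g2 * ϖ ^ k2) :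
    Module.length (Localization.AtPrime (Ideal.span {ϖ}))
      (Ω[Localization.AtPrime (Ideal.span {ϖ})⁄P3]) ≤ ((k1 + k2 : ℕ) : ℕ∞) := by
  set A := Localization.AtPrime (Ideal.span {ϖ})
  obtain ⟨hdvr, hmax⟩ := isDVR_localization hϖ hP
  have hspan := span_D_generators (R := P3) (T := T) (A := A) (Ideal.span {ϖ}).primeCompl _ hg
  have hD : ∀ g : P3, KaehlerDifferential.D P3 A (algebraMap T A (algebraMap P3 T g)) = 0 := by
    intro g
    rw [← IsScalarTower.algebraMap_apply P3 T A, Derivation.map_algebraMap]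
  have hDs : KaehlerDifferential.D P3 A (algebraMap T A ϖ) = 0 := by
    obtain ⟨l, hl⟩ := h0
    have := hD l
    rwa [hl] at this
  have key : ∀ (e : ℕ) (a : T), (∃ g : P3, algebraMap P3 T g = a * ϖ ^ e) →
      ∀ x ∈ maximalIdeal A ^ e, x • KaehlerDifferential.D P3 A (algebraMap T A a) = 0 := by
    rintro e a ⟨g, hg⟩ x hx
    have h1 := hD g
    rw [hg, map_mul, map_pow, Derivation.leibniz, Derivation.leibniz_pow, hDs, smul_zero,
      smul_zero, smul_zero, zero_add] at h1
    rw [hmax, Ideal.span_singleton_pow, Ideal.mem_span_singleton] at hx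
    obtain ⟨u, rfl⟩ := hx
    rw [mul_comm, mul_smul, h1, smul_zero]
  rw [Nat.cast_add]
  refine length_le_of_two (m1 := KaehlerDifferential.D P3 A (algebraMap T A g1))
    (m2 := KaehlerDifferential.D P3 A (algebraMap T A g2)) ?_ (key k1 _ h1) (key k2 _ h2)
  rw [eq_top_iff, ← hspan, Submodule.span_le]
  rintro _ ⟨i, rfl⟩
  fin_cases i
  · change KaehlerDifferential.D P3 A (algebraMap T A ϖ) ∈ _
    rw [hDs]
    exact Submodule.zero_mem _
  · exact Submodule.subset_span (by simp)
  · exact Submodule.subset_span (by simp)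

omit [Algebra.FiniteType P3 T] in
open IsLocalRing in
/-- length of the differentials of the chart `(u, w, V) ↦ (ϖ V, ϖ V u, ϖ V w)` -/
lemma length_curve_le (hϖ : Prime ϖ) (hP : (Ideal.span {ϖ}).IsPrime) {u w V : T}
    (hg : Algebra.adjoin P3 (Set.range (![u, w, V] : Fin 3 → T)) = ⊤)
    (hV : ¬ ϖ ∣ V)
    (h0 : ∃ l : P3, algebraMap P3 T l = ϖ * V) (h1 : ∃ l : P3, algebraMap P3 T l = ϖ * V * u)
    (h2 : ∃ l : P3, algebraMap P3 T l = ϖ * V * w) {a b : T} (ha : ¬ ϖ ∣ a)
    (hd : ∀ (M : Type) [AddCommGroup M] [Module T M] [Module P3 M] [IsScalarTower P3 T M]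
      (D : Derivation P3 T M), D ϖ = a • D u + b • D w) :
    Module.length (Localization.AtPrime (Ideal.span {ϖ}))
      (Ω[Localization.AtPrime (Ideal.span {ϖ})⁄P3]) ≤ ((2 + 1 : ℕ) : ℕ∞) := by
  set A := Localization.AtPrime (Ideal.span {ϖ})
  obtain ⟨hdvr, hmax⟩ := isDVR_localization hϖ hP
  have hspan := span_D_generators (R := P3) (T := T) (A := A) (Ideal.span {ϖ}).primeCompl _ hg
  have hD : ∀ g : P3, KaehlerDifferential.D P3 A (algebraMap T A (algebraMap P3 T g)) = 0 := by
    intro g
    rw [← IsScalarTower.algebraMap_apply P3 T A, Derivation.map_algebraMap]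
  have hunit : ∀ t : T, ¬ ϖ ∣ t → IsUnit (algebraMap T A t) := by
    intro t ht
    rw [IsLocalization.AtPrime.isUnit_to_map_iff A (Ideal.span {ϖ})]
    intro h
    exact ht (Ideal.mem_span_singleton.mp h)
  set p := algebraMap T A ϖ with hp
  set Du := KaehlerDifferential.D P3 A (algebraMap T A u) with hDu
  set Dw := KaehlerDifferential.D P3 A (algebraMap T A w) with hDw
  set DV := KaehlerDifferential.D P3 A (algebraMap T A V) with hDV
  have e00 : KaehlerDifferential.D P3 A (algebraMap T A (ϖ * V)) = 0 := by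
    obtain ⟨l, hl⟩ := h0
    have := hD l
    rwa [hl] at this
  have e0 : p • DV + (algebraMap T A V) • KaehlerDifferential.D P3 A p = 0 := by
    rwa [map_mul, Derivation.leibniz] at e00
  have e1 : (p * algebraMap T A V) • Du = 0 := by
    obtain ⟨l, hl⟩ := h1
    have := hD l
    rwa [hl, map_mul, Derivation.leibniz, e00, smul_zero, add_zero, map_mul] at this
  have e2 : (p * algebraMap T A V) • Dw = 0 := by
    obtain ⟨l, hl⟩ := h2
    have := hD l
    rwa [hl, map_mul, Derivation.leibniz, e00, smul_zero, add_zero, map_mul] at this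
  have hVu := hunit V hV
  have hau := hunit a ha
  have e1' : p • Du = 0 := by
    obtain ⟨v, hv⟩ := hVu
    rw [← hv, mul_comm, mul_smul] at e1
    have := congrArg (fun m => ((v⁻¹ : Aˣ) : A) • m) e1
    simp only [smul_smul, smul_zero] at this
    rwa [← mul_assoc, Units.inv_mul, one_mul] at this
  have e2' : p • Dw = 0 := by
    obtain ⟨v, hv⟩ := hVu
    rw [← hv, mul_comm, mul_smul] at e2
    have := congrArg (fun m => ((v⁻¹ : Aˣ) : A) • m) e2
    simp only [smul_smul, smul_zero] at this
    rwa [← mul_assoc, Units.inv_mul, one_mul] at this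
  have e3 : KaehlerDifferential.D P3 A p = algebraMap T A a • Du + algebraMap T A b • Dw := by
    have := hd (Ω[A⁄P3]) ((KaehlerDifferential.D P3 A).compAlgebraMap T)
    rw [← algebraMap_smul A a, ← algebraMap_smul A b] at this
    exact this
  -- `p ^ 2 • DV = 0`
  have e4 : (p * p) • DV = 0 := by
    have h5 : p • (p • DV + (algebraMap T A V) • KaehlerDifferential.D P3 A p) = 0 := by
      rw [e0, smul_zero]
    rw [e3, smul_add, smul_add, smul_add, smul_smul, smul_smul, smul_smul, smul_smul,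
      smul_smul] at h5
    have h6 : (p * algebraMap T A V * algebraMap T A a) • Du = 0 := by
      rw [mul_assoc, mul_comm, mul_smul, e1', smul_zero]
    have h7 : (p * algebraMap T A V * algebraMap T A b) • Dw = 0 := by
      rw [mul_assoc, mul_comm, mul_smul, e2', smul_zero]
    rw [h6, h7, add_zero, add_zero] at h5
    exact h5
  have hmem : ∀ (e : ℕ) (m : Ω[A⁄P3]), p ^ e • m = 0 → ∀ x ∈ maximalIdeal A ^ e, x • m = 0 := by
    intro e m hm x hx
    rw [hmax, Ideal.span_singleton_pow, Ideal.mem_span_singleton] at hx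
    obtain ⟨y, rfl⟩ := hx
    rw [mul_comm, mul_smul, hm, smul_zero]
  rw [Nat.cast_add]
  refine length_le_of_two (m1 := DV) (m2 := Dw) ?_ (hmem 2 _ (by rw [pow_two]; exact e4))
    (hmem 1 _ (by rw [pow_one]; exact e2'))
  -- `Du` is in the span of `DV` and `Dw`
  have hDu_mem : Du ∈ Submodule.span A {DV, Dw} := by
    obtain ⟨α, hα⟩ := hau
    obtain ⟨v, hv⟩ := hVu
    have h8 : Du = -(((α⁻¹ : Aˣ) : A) * ((v⁻¹ : Aˣ) : A) * p) • DV -
        (((α⁻¹ : Aˣ) : A) * algebraMap T A b) • Dw := by
      rw [e3, ← hα, ← hv] at e0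
      have h9 := congrArg (fun m => (((α⁻¹ : Aˣ) : A) * ((v⁻¹ : Aˣ) : A)) • m) e0
      simp only [smul_add, smul_smul, smul_zero] at h9
      have h10 : ((α⁻¹ : Aˣ) : A) * ((v⁻¹ : Aˣ) : A) * ((v : A) * (α : A)) = 1 := by
        have e5 : ((v⁻¹ : Aˣ) : A) * (v : A) = 1 := Units.inv_mul v
        have e6 : ((α⁻¹ : Aˣ) : A) * (α : A) = 1 := Units.inv_mul α
        linear_combination (((α⁻¹ : Aˣ) : A) * (α : A)) * e5 + e6
      have h11 : ((α⁻¹ : Aˣ) : A) * ((v⁻¹ : Aˣ) : A) * ((v : A) * algebraMap T A b) =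
          ((α⁻¹ : Aˣ) : A) * algebraMap T A b := by
        have e5 : ((v⁻¹ : Aˣ) : A) * (v : A) = 1 := Units.inv_mul v
        linear_combination (((α⁻¹ : Aˣ) : A) * algebraMap T A b) * e5
      rw [h10, h11, one_smul] at h9
      rw [neg_smul, eq_sub_iff_add_eq, eq_neg_iff_add_eq_zero, ← h9]
      abel
    rw [h8]
    refine Submodule.sub_mem _ (Submodule.smul_mem _ _ (Submodule.subset_span (by simp)))
      (Submodule.smul_mem _ _ (Submodule.subset_span (by simp)))
  rw [eq_top_iff, ← hspan, Submodule.span_le]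
  rintro _ ⟨i, rfl⟩
  fin_cases i
  · exact hDu_mem
  · exact Submodule.subset_span (by simp [hDw])
  · exact Submodule.subset_span (by simp [hDV])

end Key

end Pool.Agent.MPafef76

end

section

/-!
# Eleven points on a smooth cubic in good position
-/

set_option autoImplicit false

namespace Pool.Agent.MPafef76

open MvPolynomial Module

/-- cross product -/
def cr (u w : Fin 3 → ℂ) : Fin 3 → ℂ :=
  ![u 1 * w 2 - u 2 * w 1, u 2 * w 0 - u 0 * w 2, u 0 * w 1 - u 1 * w 0]

/-- The derivative of `Q` at `p` in the direction `grad F p × a` (tangent to `F = 0`). -/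
noncomputable def tanD (F : P3) (a p : Fin 3 → ℂ) : P3 →ₗ[ℂ] ℂ := dirD (cr (grad F p) a) p

lemma tanD_apply (F : P3) (a p : Fin 3 → ℂ) (Q : P3) :
    tanD F a p Q = ∑ i, cr (grad F p) a i * grad Q p i := dirD_apply _ _ _

lemma tanD_self (F : P3) (a p : Fin 3 → ℂ) : tanD F a p F = 0 := by
  rw [tanD_apply]
  simp only [cr, Fin.sum_univ_three, Matrix.cons_val_zero, Matrix.cons_val_one, Matrix.cons_val]
  ring

lemma tanD_mul (F : P3) (a p : Fin 3 → ℂ) (f g : P3) :
    tanD F a p (f * g) = eval p f * tanD F a p g + tanD F a p f * eval p g := dirD_mul _ _ _ _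

/-- The good position condition: for each `i`, the twelve conditions value at the eleven points
and tangential derivative at the `i`-th point are independent on quartic forms. -/
def Good (F : P3) (a : Fin 3 → ℂ) (z : Fin 11 → Fin 3 → ℂ) : Prop :=
  ∀ i : Fin 11, ∀ (y : Fin 11 → ℂ) (w : ℂ), ∃ Q : P3, Q.IsHomogeneous 4 ∧
    (∀ j, eval (z j) Q = y j) ∧ tanD F a (z i) Q = w

/-- The data attached to eleven points in good position. -/
structure Config (F G H : P3) (z : Fin 11 → Fin 3 → ℂ) (q : Fin 3 → ℂ) : Prop where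
  hF : F.IsHomogeneous 3
  hG : G.IsHomogeneous 4
  hH : H.IsHomogeneous 5
  smooth : SmoothForm F
  irr : Irreducible F
  ndvd : ¬ F ∣ G
  z_ne : ∀ i, z i ≠ 0
  zF : ∀ i, eval (z i) F = 0
  zG : ∀ i, eval (z i) G = 0
  zH : ∀ i, eval (z i) H = 0
  q_ne : q ≠ 0
  qF : eval q F = 0
  qG : eval q G = 0
  qH : eval q H ≠ 0
  z_par : ∀ i j, i ≠ j → ¬ Par (z i) (z j)
  zq_par : ∀ i, ¬ Par (z i) q
  zeros : ∀ p : Fin 3 → ℂ, p ≠ 0 → eval p F = 0 → eval p G = 0 → (∃ i, Par (z i) p) ∨ Par q p
  trans : ∀ p : Fin 3 → ℂ, p ≠ 0 → eval p F = 0 → eval p G = 0 → Transversal F G p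
  ideal : ∀ f : P3, (∀ i, ∀ t : ℂ, eval (t • z i) f = 0) ↔ f ∈ Ideal.span {F, G, H}

lemma grad_smul {F : P3} {n : ℕ} (hF : F.IsHomogeneous n) (c : ℂ) (p : Fin 3 → ℂ) :
    grad F (c • p) = c ^ (n - 1) • grad F p := by
  funext i
  simp only [grad, Pi.smul_apply, smul_eq_mul]
  exact eval_smul_homog hF.pderiv c p

lemma Transversal.smul {F G : P3} {n m : ℕ} (hF : F.IsHomogeneous n) (hG : G.IsHomogeneous m)
    {p : Fin 3 → ℂ} (h : Transversal F G p) {c : ℂ} (hc : c ≠ 0) : Transversal F G (c • p) := by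
  intro s t hst
  rw [grad_smul hF, grad_smul hG, smul_smul, smul_smul] at hst
  obtain ⟨h1, h2⟩ := h _ _ hst
  have hc1 : c ^ (n - 1) ≠ 0 := pow_ne_zero _ hc
  have hc2 : c ^ (m - 1) ≠ 0 := pow_ne_zero _ hc
  exact ⟨(mul_eq_zero.mp h1).resolve_right hc1, (mul_eq_zero.mp h2).resolve_right hc2⟩

lemma SmoothForm.grad_ne {F : P3} (hs : SmoothForm F) {p : Fin 3 → ℂ} (hp : p ≠ 0) :
    grad F p ≠ 0 := by
  obtain ⟨i, hi⟩ := hs p hp
  intro h
  exact hi (congrFun h i)

section
variable {F : P3} {a : Fin 3 → ℂ} {z : Fin 11 → Fin 3 → ℂ}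

lemma Good.not_par (hg : Good F a z) (hz : ∀ i, z i ≠ 0) {i j : Fin 11} (hij : i ≠ j) :
    ¬ Par (z i) (z j) := by
  intro h
  obtain ⟨c, hc⟩ := h.exists_smul (hz i)
  obtain ⟨Q, hQ, hQ1, -⟩ := hg i (fun k => if k = i then 1 else 0) 0
  have h1 := hQ1 i
  have h2 := hQ1 j
  rw [if_pos rfl] at h1
  rw [if_neg (Ne.symm hij), hc, eval_smul_homog hQ, h1, mul_one] at h2
  have hc0 : c = 0 := by
    by_contra h'
    exact pow_ne_zero 4 h' h2
  apply hz j
  rw [hc, hc0, zero_smul]

/-- Quartics through the points and tangent to the cubic at one of them contain the cubic. -/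
lemma Good.dvd (hF : F.IsHomogeneous 3) (hF0 : F ≠ 0) (hzF : ∀ i, eval (z i) F = 0)
    (hg : Good F a z) (i : Fin 11) {Q : P3} (hQ : Q.IsHomogeneous 4)
    (hQz : ∀ j, eval (z j) Q = 0) (hQt : tanD F a (z i) Q = 0) : F ∣ Q := by
  classical
  let T : P3 →ₗ[ℂ] (Fin 12 → ℂ) :=
    LinearMap.pi (Fin.lastCases (tanD F a (z i))
      (fun j => (aeval (z j) : P3 →ₐ[ℂ] ℂ).toLinearMap))
  have hTc : ∀ (f : P3) (j : Fin 11), T f j.castSucc = eval (z j) f := by
    intro f j
    simp only [T, LinearMap.pi_apply, Fin.lastCases_castSucc]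
    rfl
  have hTl : ∀ (f : P3), T f (Fin.last 11) = tanD F a (z i) f := by
    intro f
    simp only [T, LinearMap.pi_apply, Fin.lastCases_last]
  let T' : Fm 4 →ₗ[ℂ] (Fin 12 → ℂ) := T.comp (Fm 4).subtype
  have hT' : ∀ f : Fm 4, T' f = T f.1 := fun f => rfl
  have hrange : LinearMap.range T' = ⊤ := by
    rw [LinearMap.range_eq_top]
    intro y
    obtain ⟨Q, hQ, hQ1, hQ2⟩ := hg i (fun j => y j.castSucc) (y (Fin.last 11))
    refine ⟨⟨Q, hQ⟩, ?_⟩
    funext j
    rw [hT']
    refine Fin.lastCases ?_ (fun j => ?_) j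
    · rw [hTl]; exact hQ2
    · rw [hTc]; exact hQ1 j
  have hdim := LinearMap.finrank_range_add_finrank_ker T'
  rw [hrange, finrank_top, Module.finrank_fin_fun, finrank_Fm] at hdim
  have hker : finrank ℂ (LinearMap.ker T') = 3 := by
    have : (4 + 2).choose 2 = 15 := by decide
    omega
  set K : Submodule ℂ P3 := (LinearMap.ker T').map (Fm 4).subtype with hK
  have hKrank : finrank ℂ K = 3 :=
    (LinearEquiv.finrank_eq
      (Submodule.equivMapOfInjective _ (Submodule.injective_subtype _) _)).symm.trans hker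
  have hle : mulSub F 1 ≤ K := by
    rintro _ ⟨L, hL, rfl⟩
    have hh : (F * L).IsHomogeneous 4 := hF.mul hL
    refine ⟨⟨F * L, hh⟩, ?_, rfl⟩
    simp only [SetLike.mem_coe, LinearMap.mem_ker]
    rw [hT']
    funext j
    refine Fin.lastCases ?_ (fun j => ?_) j
    · rw [hTl, tanD_mul, tanD_self, hzF]; simp
    · rw [hTc, map_mul, hzF]; simp
  have : FiniteDimensional ℂ K := by rw [hK]; infer_instance
  have heq : mulSub F 1 = K := by
    apply Submodule.eq_of_le_of_finrank_le hle
    rw [hKrank, finrank_mulSub hF0]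
    decide
  have hQK : Q ∈ K := by
    refine ⟨⟨Q, hQ⟩, ?_, rfl⟩
    simp only [SetLike.mem_coe, LinearMap.mem_ker]
    rw [hT']
    funext j
    refine Fin.lastCases ?_ (fun j => ?_) j
    · rw [hTl]; simpa using hQt
    · rw [hTc]; simpa using hQz j
  rw [← heq] at hQK
  obtain ⟨L, -, hL⟩ := hQK
  exact ⟨L, hL.symm⟩

/-- Forms through `N` points outside a given small subspace. -/
lemma exists_form {N m : ℕ} (z : Fin N → Fin 3 → ℂ) (W : Submodule ℂ P3)
    [FiniteDimensional ℂ W] (hW : finrank ℂ W + N < (m + 2).choose 2) :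
    ∃ Q : P3, Q.IsHomogeneous m ∧ (∀ i, eval (z i) Q = 0) ∧ Q ∉ W := by
  by_contra hcon
  push Not at hcon
  let T' : Fm m →ₗ[ℂ] (Fin N → ℂ) := (evs z).comp (Fm m).subtype
  have hdim := LinearMap.finrank_range_add_finrank_ker T'
  rw [finrank_Fm] at hdim
  have hr : finrank ℂ (LinearMap.range T') ≤ N := by
    have := Submodule.finrank_le (LinearMap.range T')
    simpa using this
  set K : Submodule ℂ P3 := (LinearMap.ker T').map (Fm m).subtype with hK
  have hKrank : finrank ℂ K = finrank ℂ (LinearMap.ker T') :=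
    (LinearEquiv.finrank_eq
      (Submodule.equivMapOfInjective _ (Submodule.injective_subtype _) _)).symm
  have hle : K ≤ W := by
    rintro _ ⟨⟨Q, hQ⟩, hQ2, rfl⟩
    exact hcon Q hQ fun i => congrFun hQ2 i
  have := Submodule.finrank_mono hle
  omega

/-- There is a quartic through eleven points not containing the cubic. -/
lemma exists_quartic (hF : F.IsHomogeneous 3) (z : Fin 11 → Fin 3 → ℂ) :
    ∃ G : P3, G.IsHomogeneous 4 ∧ (∀ i, eval (z i) G = 0) ∧ ¬ F ∣ G := by
  obtain ⟨G, h1, h2, h3⟩ := exists_form (m := 4) z (mulSub F 1) (by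
    have h1 := finrank_mulSub_le F 1
    have h2 : (1 + 2).choose 2 = 3 := by decide
    have h3 : (4 + 2).choose 2 = 15 := by decide
    omega)
  refine ⟨G, h1, h2, fun hd => h3 ?_⟩
  obtain ⟨L, hL1, hL2, -⟩ := exists_homog_dvd hF h1 hd
  exact ⟨L, hL2, by rw [hL1, mul_comm]; rfl⟩

/-- There is a quintic through eleven points not in the ideal of a cubic and a quartic. -/
lemma exists_quintic {G : P3} (hF : F.IsHomogeneous 3) (hG : G.IsHomogeneous 4)
    (z : Fin 11 → Fin 3 → ℂ) :
    ∃ H : P3, H.IsHomogeneous 5 ∧ (∀ i, eval (z i) H = 0) ∧ H ∉ Ideal.span {F, G} := by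
  obtain ⟨H, h1, h2, h3⟩ := exists_form (m := 5) z (mulSub F 2 ⊔ mulSub G 1) (by
    have h1 := finrank_mulSub_le F 2
    have h1' := finrank_mulSub_le G 1
    have h2 : (1 + 2).choose 2 = 3 := by decide
    have h2' : (2 + 2).choose 2 = 6 := by decide
    have h3 : (5 + 2).choose 2 = 21 := by decide
    have h4 := Submodule.finrank_add_le_finrank_add_finrank (mulSub F 2) (mulSub G 1)
    omega)
  refine ⟨H, h1, h2, fun hd => h3 ?_⟩
  obtain ⟨α, β, hαβ, hα, hβ, -, -⟩ := exists_homog_pair hF hG h1 hd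
  rw [hαβ]
  refine Submodule.add_mem_sup ?_ ?_
  · exact ⟨α, hα, by rw [LinearMap.mulLeft_apply, mul_comm]⟩
  · exact ⟨β, hβ, by rw [LinearMap.mulLeft_apply, mul_comm]⟩

/-- The homogeneous components of a polynomial vanishing on a line through the origin vanish. -/
lemma eval_component_of_line {f : P3} {p : Fin 3 → ℂ} (h : ∀ t : ℂ, eval (t • p) f = 0) (n : ℕ) :
    eval p (homogeneousComponent n f) = 0 := by
  set r : Polynomial ℂ := ∑ i ∈ Finset.range (f.totalDegree + 1),
    Polynomial.C (eval p (homogeneousComponent i f)) * Polynomial.X ^ i with hr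
  have hr0 : r = 0 := by
    apply Polynomial.funext
    intro t
    rw [Polynomial.eval_zero, ← h t, hr, Polynomial.eval_finsetSum]
    conv_rhs => rw [← sum_homogeneousComponent f, map_sum]
    refine Finset.sum_congr rfl fun i _ => ?_
    rw [eval_smul_homog (homogeneousComponent_isHomogeneous i f)]
    simp
    ring
  by_cases hn : n < f.totalDegree + 1
  · have := congrArg (fun q => Polynomial.coeff q n) hr0
    simp only [hr, Polynomial.finsetSum_coeff, Polynomial.coeff_C_mul, Polynomial.coeff_X_pow,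
      Polynomial.coeff_zero] at this
    simp only [mul_ite, mul_one, mul_zero] at this
    rw [Finset.sum_ite_eq] at this
    rwa [if_pos (Finset.mem_range.mpr hn)] at this
  · rw [homogeneousComponent_eq_zero n f (by omega)]
    simp

lemma eval_line_of_homog {f : P3} {m : ℕ} (hf : f.IsHomogeneous m) {p : Fin 3 → ℂ}
    (h : eval p f = 0) (t : ℂ) : eval (t • p) f = 0 := by
  rw [eval_smul_homog hf, h, mul_zero]

/-- **Structure of eleven points in good position.** -/
theorem Good.config (hF : F.IsHomogeneous 3) (hs : SmoothForm F) (hz : ∀ i, z i ≠ 0)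
    (hzF : ∀ i, eval (z i) F = 0) (hg : Good F a z) :
    ∃ (G H : P3) (q : Fin 3 → ℂ), Config F G H z q := by
  have hirr : Irreducible F := hs.irreducible hF
  have hF0 : F ≠ 0 := hirr.ne_zero
  obtain ⟨G, hG, hGz, hFG⟩ := exists_quartic hF z
  obtain ⟨H, hH, hHz, hHFG⟩ := exists_quintic hF hG z
  have hG0 : G ≠ 0 := by rintro rfl; exact hFG (dvd_zero _)
  have hrel : IsRelPrime F G := hirr.isRelPrime_iff_not_dvd.mpr hFG
  -- tangential derivatives of G
  have htan : ∀ i, tanD F a (z i) G ≠ 0 := fun i h =>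
    hFG (hg.dvd hF hF0 hzF i hG hGz h)
  -- transversality at the eleven points
  have htr : ∀ i, Transversal F G (z i) := by
    intro i s t hst
    have h1 : s * tanD F a (z i) F + t * tanD F a (z i) G = 0 := by
      have : ∑ k, cr (grad F (z i)) a k * (s • grad F (z i) + t • grad G (z i)) k = 0 := by
        rw [hst]; simp
      rw [tanD_apply, tanD_apply, Finset.mul_sum, Finset.mul_sum, ← Finset.sum_add_distrib,
        ← this]
      refine Finset.sum_congr rfl fun k _ => ?_
      simp only [Pi.add_apply, Pi.smul_apply, smul_eq_mul]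
      ring
    rw [tanD_self, mul_zero, zero_add] at h1
    have ht : t = 0 := (mul_eq_zero.mp h1).resolve_right (htan i)
    refine ⟨?_, ht⟩
    rw [ht, zero_smul, add_zero, smul_eq_zero] at hst
    exact hst.resolve_right (hs.grad_ne (hz i))
  have hpar : ∀ i j, i ≠ j → ¬ Par (z i) (z j) := fun i j hij => hg.not_par hz hij
  -- existence of the twelfth point
  obtain ⟨q, hq, hqF, hqG, hzq⟩ : ∃ q : Fin 3 → ℂ, q ≠ 0 ∧ eval q F = 0 ∧ eval q G = 0 ∧
      ∀ i, ¬ Par (z i) q := by
    by_contra hcon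
    push Not at hcon
    apply hHFG
    refine noether hF hG hrel hF0 hG0 ?_ ?_
    · intro p hp h1 h2
      obtain ⟨i, hi⟩ := hcon p hp h1 h2
      obtain ⟨c, hc⟩ := hi.exists_smul (hz i)
      have hc0 : c ≠ 0 := by rintro rfl; exact hp (by rw [hc, zero_smul])
      rw [hc]
      exact (htr i).smul hF hG hc0
    · intro p hp h1 h2 t
      obtain ⟨i, hi⟩ := hcon p hp h1 h2
      obtain ⟨c, hc⟩ := hi.exists_smul (hz i)
      rw [hc, smul_smul]
      exact eval_line_of_homog hH (hHz i) _
  -- the twelve points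
  set p12 : Fin 12 → Fin 3 → ℂ := Fin.lastCases q z with hp12
  have hpc : ∀ i : Fin 11, p12 i.castSucc = z i := fun i => by
    simp only [hp12, Fin.lastCases_castSucc]
  have hpl : p12 (Fin.last 11) = q := by simp only [hp12, Fin.lastCases_last]
  have h12ne : ∀ i, p12 i ≠ 0 := by
    intro i
    refine Fin.lastCases ?_ (fun i => ?_) i
    · rw [hpl]; exact hq
    · rw [hpc]; exact hz i
  have h12F : ∀ i, eval (p12 i) F = 0 := by
    intro i
    refine Fin.lastCases ?_ (fun i => ?_) i
    · rw [hpl]; exact hqF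
    · rw [hpc]; exact hzF i
  have h12G : ∀ i, eval (p12 i) G = 0 := by
    intro i
    refine Fin.lastCases ?_ (fun i => ?_) i
    · rw [hpl]; exact hqG
    · rw [hpc]; exact hGz i
  have h12par : ∀ i j, i ≠ j → ¬ Par (p12 i) (p12 j) := by
    intro i j
    refine Fin.lastCases ?_ (fun i => ?_) i
    · refine Fin.lastCases ?_ (fun j => ?_) j
      · intro h; exact absurd rfl h
      · intro _ h
        rw [hpl, hpc] at h
        exact hzq j h.symm
    · refine Fin.lastCases ?_ (fun j => ?_) j
      · intro _ h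
        rw [hpl, hpc] at h
        exact hzq i h
      · intro h
        rw [hpc, hpc]
        exact hpar i j (fun h' => h (by rw [h']))
  have htrq : Transversal F G q := by
    have := transversal_of_card hF hG hrel hF0 hG0 h12ne h12par h12F h12G (by norm_num)
      (fun i => hs.grad_ne (h12ne i)) (Fin.last 11)
    rwa [hpl] at this
  have hzeros : ∀ p : Fin 3 → ℂ, p ≠ 0 → eval p F = 0 → eval p G = 0 →
      (∃ i, Par (z i) p) ∨ Par q p := by
    intro p hp h1 h2
    by_contra hcon
    push Not at hcon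
    obtain ⟨hc1, hc2⟩ := hcon
    set p13 : Fin 13 → Fin 3 → ℂ := Fin.lastCases p p12 with hp13
    have hpc' : ∀ i : Fin 12, p13 i.castSucc = p12 i := fun i => by
      simp only [hp13, Fin.lastCases_castSucc]
    have hpl' : p13 (Fin.last 12) = p := by simp only [hp13, Fin.lastCases_last]
    have hnp : ∀ i, ¬ Par (p12 i) p := by
      intro i
      refine Fin.lastCases ?_ (fun i => ?_) i
      · rw [hpl]; exact hc2
      · rw [hpc]; exact hc1 i
    have := card_zeros_le (N := 13) hF hG hrel hF0 hG0 (p := p13) ?_ ?_ ?_ ?_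
    · omega
    · intro i
      refine Fin.lastCases ?_ (fun i => ?_) i
      · rw [hpl']; exact hp
      · rw [hpc']; exact h12ne i
    · intro i j
      refine Fin.lastCases ?_ (fun i => ?_) i
      · refine Fin.lastCases ?_ (fun j => ?_) j
        · intro h; exact absurd rfl h
        · intro _ h
          rw [hpl', hpc'] at h
          exact hnp j h.symm
      · refine Fin.lastCases ?_ (fun j => ?_) j
        · intro _ h
          rw [hpl', hpc'] at h
          exact hnp i h
        · intro h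
          rw [hpc', hpc']
          exact h12par i j (fun h' => h (by rw [h']))
    · intro i
      refine Fin.lastCases ?_ (fun i => ?_) i
      · rw [hpl']; exact h1
      · rw [hpc']; exact h12F i
    · intro i
      refine Fin.lastCases ?_ (fun i => ?_) i
      · rw [hpl']; exact h2
      · rw [hpc']; exact h12G i
  have htrans : ∀ p : Fin 3 → ℂ, p ≠ 0 → eval p F = 0 → eval p G = 0 → Transversal F G p := by
    intro p hp h1 h2
    rcases hzeros p hp h1 h2 with ⟨i, hi⟩ | hi
    · obtain ⟨c, hc⟩ := hi.exists_smul (hz i)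
      have hc0 : c ≠ 0 := by rintro rfl; exact hp (by rw [hc, zero_smul])
      rw [hc]
      exact (htr i).smul hF hG hc0
    · obtain ⟨c, hc⟩ := hi.exists_smul hq
      have hc0 : c ≠ 0 := by rintro rfl; exact hp (by rw [hc, zero_smul])
      rw [hc]
      exact htrq.smul hF hG hc0
  -- Noether's theorem for the twelve points
  have hnoether : ∀ (f : P3) (m : ℕ), f.IsHomogeneous m → (∀ i, eval (z i) f = 0) →
      eval q f = 0 → f ∈ Ideal.span {F, G} := by
    intro f m hf hfz hfq
    refine noether hF hG hrel hF0 hG0 htrans ?_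
    intro p hp h1 h2 t
    rcases hzeros p hp h1 h2 with ⟨i, hi⟩ | hi
    · obtain ⟨c, hc⟩ := hi.exists_smul (hz i)
      rw [hc, smul_smul]
      exact eval_line_of_homog hf (hfz i) _
    · obtain ⟨c, hc⟩ := hi.exists_smul hq
      rw [hc, smul_smul]
      exact eval_line_of_homog hf hfq _
  have hqH : eval q H ≠ 0 := fun h => hHFG (hnoether H 5 hH hHz h)
  -- Cayley-Bacharach
  have hCB : ∀ (f : P3), f.IsHomogeneous 4 → (∀ i, eval (z i) f = 0) → eval q f = 0 := by
    intro f hf hfz
    set lam : ℂ := tanD F a (z 0) f / tanD F a (z 0) G with hlam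
    have h1 : F ∣ f - C lam * G := by
      refine hg.dvd hF hF0 hzF 0 (hf.sub (hG.C_mul _)) ?_ ?_
      · intro j
        rw [map_sub, map_mul, hfz, hGz]; simp
      · rw [map_sub, ← smul_eq_C_mul, map_smul, smul_eq_mul, hlam, div_mul_cancel₀ _ (htan 0),
          sub_self]
    obtain ⟨L, hL⟩ := h1
    have h2 := congrArg (eval q) hL
    rw [map_sub, map_mul, map_mul, hqG, hqF] at h2
    simpa using h2
  obtain ⟨M, hM1, hM2⟩ := exists_lin_ne hq
  refine ⟨G, H, q, ⟨hF, hG, hH, hs, hirr, hFG, hz, hzF, hGz, hHz, hq, hqF, hqG, hqH, hpar, hzq,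
    hzeros, htrans, ?_⟩⟩
  intro f
  constructor
  · intro hf
    rw [← sum_homogeneousComponent f]
    refine Ideal.sum_mem _ fun n _ => ?_
    have hfn := homogeneousComponent_isHomogeneous n f
    have hfz : ∀ i, eval (z i) (homogeneousComponent n f) = 0 :=
      fun i => eval_component_of_line (hf i) n
    set g := homogeneousComponent n f with hgdef
    have hsub : Ideal.span {F, G} ≤ Ideal.span {F, G, H} := by
      apply Ideal.span_mono
      intro x hx
      rcases hx with rfl | hx
      · simp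
      · rw [Set.mem_singleton_iff] at hx
        subst hx
        simp
    rcases Nat.lt_or_ge n 5 with h5 | h5
    · -- degree at most four
      have h4 : (M ^ (4 - n) * g).IsHomogeneous 4 := by
        have := (hM1.pow (4 - n)).mul hfn
        rwa [show 1 * (4 - n) + n = 4 by omega] at this
      have hq0 := hCB _ h4 (fun i => by rw [map_mul, hfz i, mul_zero])
      rw [map_mul, map_pow, hM2, one_pow, one_mul] at hq0
      exact hsub (hnoether g n hfn hfz hq0)
    · set c : ℂ := eval q g / eval q H with hc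
      have hdeg : (C c * (M ^ (n - 5) * H)).IsHomogeneous n := by
        have := ((hM1.pow (n - 5)).mul hH).C_mul c
        rwa [show 1 * (n - 5) + 5 = n by omega] at this
      have h1 : g - C c * (M ^ (n - 5) * H) ∈ Ideal.span {F, G} := by
        refine hnoether _ n (hfn.sub hdeg) ?_ ?_
        · intro i
          rw [map_sub, map_mul, map_mul, hfz, hHz]; simp
        · rw [map_sub, map_mul, map_mul, map_pow, hM2, eval_C, one_pow, one_mul, hc,
            div_mul_cancel₀ _ hqH, sub_self]
      have h2 : C c * (M ^ (n - 5) * H) ∈ Ideal.span {F, G, H} := by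
        rw [← mul_assoc]
        exact Ideal.mul_mem_left _ _ (Ideal.subset_span (by simp))
      have := Ideal.add_mem _ (hsub h1) h2
      simpa using this
  · intro hf i t
    have hle : Ideal.span {F, G, H} ≤ RingHom.ker (eval (t • z i)) := by
      rw [Ideal.span_le]
      intro x hx
      simp only [SetLike.mem_coe, RingHom.mem_ker]
      rcases hx with rfl | rfl | hx
      · exact eval_line_of_homog hF (hzF i) t
      · exact eval_line_of_homog hG (hGz i) t
      · rw [Set.mem_singleton_iff] at hx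
        subst hx
        exact eval_line_of_homog hH (hHz i) t
    exact hle hf

end

end Pool.Agent.MPafef76

end

section

/-!
# Toric divisors (in suitable linear coordinates)
-/

set_option autoImplicit false

namespace Pool.Agent.MPafef76

open MvPolynomial

/-- polynomial ring in three variables `x, y, s`, as polynomials in `s` over `ℂ[x, y]` -/
abbrev T2 := Polynomial (MvPolynomial (Fin 2) ℂ)

lemma T2_induction {motive : T2 → Prop} (hC : ∀ c : ℂ, motive (Polynomial.C (C c)))
    (hs : motive Polynomial.X) (hx : ∀ i : Fin 2, motive (Polynomial.C (X i)))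
    (hadd : ∀ a b, motive a → motive b → motive (a + b))
    (hmul : ∀ a b, motive a → motive b → motive (a * b)) (t : T2) : motive t := by
  have h1 : ∀ a : MvPolynomial (Fin 2) ℂ, motive (Polynomial.C a) := by
    intro a
    induction a using MvPolynomial.induction_on with
    | C c => exact hC c
    | add p q hp hq => rw [Polynomial.C_add]; exact hadd _ _ hp hq
    | mul_X p i hp => rw [Polynomial.C_mul]; exact hmul _ _ hp (hx i)
  induction t using Polynomial.induction_on with
  | C a => exact h1 a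
  | add p q hp hq => exact hadd _ _ hp hq
  | monomial n a h =>
    rw [pow_succ, ← mul_assoc]
    exact hmul _ _ h hs

section Alg

variable [Algebra P3 T2]

lemma adjoin_T2 (h : ∀ c : ℂ, algebraMap P3 T2 (C c) = Polynomial.C (C c)) :
    Algebra.adjoin P3 (Set.range (![Polynomial.X, Polynomial.C (X 0), Polynomial.C (X 1)] :
      Fin 3 → T2)) = ⊤ := by
  rw [eq_top_iff]
  rintro t -
  refine T2_induction ?_ ?_ ?_ ?_ ?_ t
  · intro c
    rw [← h]
    exact Subalgebra.algebraMap_mem _ _
  · exact Algebra.subset_adjoin ⟨0, rfl⟩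
  · intro i
    fin_cases i
    · exact Algebra.subset_adjoin ⟨1, rfl⟩
    · exact Algebra.subset_adjoin ⟨2, rfl⟩
  · intro a b ha hb
    exact Subalgebra.add_mem _ ha hb
  · intro a b ha hb
    exact Subalgebra.mul_mem _ ha hb

lemma finiteType_T2 (h : ∀ c : ℂ, algebraMap P3 T2 (C c) = Polynomial.C (C c)) :
    Algebra.FiniteType P3 T2 := by
  refine ⟨⟨Finset.univ.image (![Polynomial.X, Polynomial.C (X 0), Polynomial.C (X 1)] :
      Fin 3 → T2), ?_⟩⟩
  rw [Finset.coe_image, Finset.coe_univ, Set.image_univ]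
  exact adjoin_T2 h

lemma birational_T2 (h : ∀ c : ℂ, algebraMap P3 T2 (C c) = Polynomial.C (C c))
    (hs : ∃ r s : P3, s ≠ 0 ∧ algebraMap P3 T2 s * Polynomial.X = algebraMap P3 T2 r)
    (hx : ∀ i : Fin 2, ∃ r s : P3, s ≠ 0 ∧
      algebraMap P3 T2 s * Polynomial.C (X i) = algebraMap P3 T2 r) (t : T2) :
    ∃ r s : P3, s ≠ 0 ∧ algebraMap P3 T2 s * t = algebraMap P3 T2 r := by
  refine T2_induction (motive := fun t => ∃ r s : P3, s ≠ 0 ∧
    algebraMap P3 T2 s * t = algebraMap P3 T2 r) ?_ hs hx ?_ ?_ t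
  · intro c
    exact ⟨C c, 1, one_ne_zero, by rw [map_one, one_mul, h]⟩
  · rintro a b ⟨r1, s1, h1, e1⟩ ⟨r2, s2, h2, e2⟩
    refine ⟨r1 * s2 + r2 * s1, s1 * s2, mul_ne_zero h1 h2, ?_⟩
    rw [map_mul, map_add, map_mul, map_mul, ← e1, ← e2]
    ring
  · rintro a b ⟨r1, s1, h1, e1⟩ ⟨r2, s2, h2, e2⟩
    refine ⟨r1 * r2, s1 * s2, mul_ne_zero h1 h2, ?_⟩
    rw [map_mul, map_mul, ← e1, ← e2]
    ring

end Alg

/-- the toric coordinates -/
noncomputable def tm (p r : ℕ) : Fin 3 → T2 :=
  ![Polynomial.X, Polynomial.C (X 0) * Polynomial.X ^ p, Polynomial.C (X 1) * Polynomial.X ^ r]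

/-- The toric chart `(s, x, y) ↦ s B₀ + s ^ p x B₁ + s ^ r y B₂` -/
noncomputable def torMap (p r : ℕ) (B : Matrix (Fin 3) (Fin 3) ℂ) : P3 →ₐ[ℂ] T2 :=
  aeval (fun i => ∑ j, Polynomial.C (C (B j i)) * tm p r j)

lemma torMap_X (p r : ℕ) (B : Matrix (Fin 3) (Fin 3) ℂ) (i : Fin 3) :
    torMap p r B (X i) = ∑ j, Polynomial.C (C (B j i)) * tm p r j := by
  rw [torMap, aeval_X]

lemma torMap_C (p r : ℕ) (B : Matrix (Fin 3) (Fin 3) ℂ) (c : ℂ) :
    torMap p r B (C c) = Polynomial.C (C c) := by
  rw [torMap, aeval_C]; rfl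

/-- dual linear forms -/
noncomputable def dualF (B : Matrix (Fin 3) (Fin 3) ℂ) (k : Fin 3) : P3 :=
  ∑ i, C (B⁻¹ i k) * X i

lemma torMap_dualF (p r : ℕ) {B : Matrix (Fin 3) (Fin 3) ℂ} (hB : IsUnit B.det) (k : Fin 3) :
    torMap p r B (dualF B k) = tm p r k := by
  rw [dualF, map_sum]
  simp only [map_mul, torMap_C, torMap_X, Finset.mul_sum]
  rw [Finset.sum_comm]
  have : ∀ j, ∑ i, Polynomial.C (C (B⁻¹ i k)) * (Polynomial.C (C (B j i)) * tm p r j) =
      Polynomial.C (C ((B * B⁻¹) j k)) * tm p r j := by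
    intro j
    rw [Matrix.mul_apply, map_sum, map_sum, Finset.sum_mul]
    refine Finset.sum_congr rfl fun i _ => ?_
    rw [C_mul, Polynomial.C_mul]
    ring
  simp only [this, Matrix.mul_nonsing_inv _ hB, Matrix.one_apply]
  rw [Finset.sum_eq_single k]
  · simp
  · intro j _ hj
    simp [hj]
  · simp

/-- evaluation of `T2` at a point of an algebra -/
noncomputable def evT {S : Type*} [CommRing S] [Algebra ℂ S] (s x y : S) : T2 →ₐ[ℂ] S :=
  { Polynomial.eval₂RingHom ((aeval (![x, y] : Fin 2 → S) : MvPolynomial (Fin 2) ℂ →ₐ[ℂ] S) :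
      MvPolynomial (Fin 2) ℂ →+* S) s with
    commutes' := fun c => by
      have : (algebraMap ℂ T2 c) = Polynomial.C (C c) := rfl
      rw [this]
      simp }

lemma evT_C {S : Type*} [CommRing S] [Algebra ℂ S] (s x y : S) (a : MvPolynomial (Fin 2) ℂ) :
    evT s x y (Polynomial.C a) = aeval (![x, y] : Fin 2 → S) a := by
  simp [evT]

lemma evT_X {S : Type*} [CommRing S] [Algebra ℂ S] (s x y : S) :
    evT s x y Polynomial.X = s := by
  simp [evT]

lemma evT_torMap {S : Type*} [CommRing S] [Algebra ℂ S] (s x y : S) (p r : ℕ)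
    (B : Matrix (Fin 3) (Fin 3) ℂ) (f : P3) :
    evT s x y (torMap p r B f) =
      aeval (fun i => algebraMap ℂ S (B 0 i) * s + algebraMap ℂ S (B 1 i) * (x * s ^ p) +
        algebraMap ℂ S (B 2 i) * (y * s ^ r)) f := by
  rw [← AlgHom.comp_apply]
  congr 1
  apply MvPolynomial.algHom_ext
  intro i
  rw [AlgHom.comp_apply, torMap_X, aeval_X, map_sum, Fin.sum_univ_three]
  simp only [map_mul, evT_C, tm, Matrix.cons_val_zero, Matrix.cons_val_one, Matrix.cons_val,
    map_pow, evT_X, aeval_X, aeval_C]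

lemma torMap_injective (p r : ℕ) {B : Matrix (Fin 3) (Fin 3) ℂ} (hB : IsUnit B.det) :
    Function.Injective (torMap p r B) := by
  rw [injective_iff_map_eq_zero]
  intro f hf
  have hdual0 : dualF B 0 ≠ 0 := by
    intro h
    have := torMap_dualF p r hB 0
    rw [h, map_zero] at this
    exact Polynomial.X_ne_zero this.symm
  have key : dualF B 0 * f = 0 := by
    apply MvPolynomial.funext
    intro y
    rw [map_mul, map_zero]
    by_cases hs : eval y (dualF B 0) = 0
    · rw [hs, zero_mul]
    · set s := eval y (dualF B 0) with hsdef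
      have h1 := evT_torMap (S := ℂ) s (eval y (dualF B 1) / s ^ p) (eval y (dualF B 2) / s ^ r)
        p r B f
      rw [hf, map_zero] at h1
      have h2 : (fun i => algebraMap ℂ ℂ (B 0 i) * s +
          algebraMap ℂ ℂ (B 1 i) * (eval y (dualF B 1) / s ^ p * s ^ p) +
          algebraMap ℂ ℂ (B 2 i) * (eval y (dualF B 2) / s ^ r * s ^ r)) = y := by
        funext i
        rw [div_mul_cancel₀ _ (pow_ne_zero _ hs), div_mul_cancel₀ _ (pow_ne_zero _ hs)]
        simp only [Algebra.algebraMap_self, RingHom.id_apply, hsdef]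
        have h3 : ∀ k, eval y (dualF B k) = ∑ l, B⁻¹ l k * y l := by
          intro k
          rw [dualF, map_sum]
          simp
        rw [h3, h3, h3]
        have h4 : ∑ l, (B⁻¹ * B) l i * y l = y i := by
          rw [Matrix.nonsing_inv_mul _ hB]
          simp [Matrix.one_apply]
        rw [← h4]
        simp only [Matrix.mul_apply, Fin.sum_univ_three]
        ring
      rw [h2, MvPolynomial.aeval_eq_eval] at h1
      rw [← h1, mul_zero]
  exact (mul_eq_zero.mp key).resolve_left hdual0

/-- **Necessary conditions from toric divisors.** -/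
theorem toric_dvd (p r : ℕ) {B : Matrix (Fin 3) (Fin 3) ℂ} (hB : IsUnit B.det)
    {𝔞 : Ideal P3} {n : ℕ} (hn1 : ∀ g ∈ 𝔞, Polynomial.X ^ n ∣ torMap p r B g)
    (hn2 : ∃ g ∈ 𝔞, ¬ Polynomial.X ^ (n + 1) ∣ torMap p r B g)
    {c : ℝ} {f : P3} (hf : f ∈ multiplierIdeal 𝔞 c) :
    Polynomial.X ^ (⌊c * n⌋₊ - (p + r)) ∣ torMap p r B f := by
  let _ : Algebra P3 T2 := (torMap p r B).toRingHom.toAlgebra
  have hmap : ∀ g : P3, algebraMap P3 T2 g = torMap p r B g := fun g => rfl
  have hC : ∀ c : ℂ, algebraMap P3 T2 (C c) = Polynomial.C (C c) := fun c => torMap_C _ _ _ _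
  have hP : (Ideal.span {(Polynomial.X : T2)}).IsPrime := by
    rw [Ideal.span_singleton_prime Polynomial.X_ne_zero]
    exact Polynomial.prime_X
  have hft : Algebra.FiniteType P3 T2 := finiteType_T2 hC
  refine dvd_of_mem_multiplierIdeal (T := T2) Polynomial.prime_X hP (torMap_injective p r hB)
    (birational_T2 hC ?_ ?_)
    (length_toric_le (T := T2) Polynomial.prime_X hP (adjoin_T2 hC)
      ⟨dualF B 0, torMap_dualF p r hB 0⟩ ⟨dualF B 1, torMap_dualF p r hB 1⟩
      ⟨dualF B 2, torMap_dualF p r hB 2⟩) hn1 hn2 hf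
  · refine ⟨dualF B 0, 1, one_ne_zero, ?_⟩
    rw [map_one, one_mul, hmap, torMap_dualF p r hB]
    rfl
  · have h0 : dualF B 0 ≠ 0 := by
      intro h
      have := torMap_dualF p r hB 0
      rw [h, map_zero] at this
      exact Polynomial.X_ne_zero this.symm
    intro i
    fin_cases i
    · refine ⟨dualF B 1, dualF B 0 ^ p, pow_ne_zero _ h0, ?_⟩
      rw [map_pow, hmap, hmap, torMap_dualF p r hB, torMap_dualF p r hB]
      exact mul_comm _ _
    · refine ⟨dualF B 2, dualF B 0 ^ r, pow_ne_zero _ h0, ?_⟩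
      rw [map_pow, hmap, hmap, torMap_dualF p r hB, torMap_dualF p r hB]
      exact mul_comm _ _

end Pool.Agent.MPafef76

end

section

/-!
# Existence of eleven points in good position on every smooth cubic
-/

set_option autoImplicit false

namespace Pool.Agent.MPafef76

open MvPolynomial Module

/-- chain rule for a derivation -/
lemma derivation_aeval {S M : Type*} [CommRing S] [Algebra ℂ S] [AddCommGroup M] [Module S M]
    [Module ℂ M] [IsScalarTower ℂ S M] (D : Derivation ℂ S M) (g : Fin 3 → S) (f : P3) :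
    D (aeval g f) = ∑ i, aeval g (pderiv i f) • D (g i) := by
  induction f using MvPolynomial.induction_on with
  | C a => simp
  | add p q hp hq => simp [hp, hq, add_smul, Finset.sum_add_distrib]
  | mul_X p j hp =>
    rw [map_mul, Derivation.leibniz, hp, aeval_X]
    have : ∀ i, aeval g (pderiv i (p * X j)) • D (g i) =
        g j • (aeval g (pderiv i p) • D (g i)) + (if i = j then aeval g p • D (g j) else 0) := by
      intro i
      rw [pderiv_mul, map_add, map_mul, map_mul, aeval_X, add_smul]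
      congr 1
      · rw [mul_comm, mul_smul]
      · by_cases hij : i = j
        · subst hij
          simp
        · have h' : j ≠ i := fun h => hij h.symm
          simp [pderiv_X_of_ne h', hij]
    simp only [this, Finset.sum_add_distrib, Finset.sum_ite_eq', Finset.mem_univ, if_true,
      ← Finset.smul_sum]
    rw [add_comm]

lemma lin_irreducible {L : P3} (hL : L.IsHomogeneous 1) (h0 : L ≠ 0) : Irreducible L := by
  apply irreducible_of_totalDegree_eq_one (hL.totalDegree h0)
  intro x hx
  rw [isUnit_iff_ne_zero]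
  rintro rfl
  apply h0
  ext i
  have := hx i
  rw [zero_dvd_iff] at this
  rw [this]; simp

/-- Cayley-Bacharach: a quartic through eleven of the twelve points of a complete intersection of
a cubic and a quartic passes through the twelfth. -/
lemma cayley_bacharach {F G : P3} (hF : F.IsHomogeneous 3) (hG : G.IsHomogeneous 4)
    (hrel : IsRelPrime F G) (hF0 : F ≠ 0) (hG0 : G ≠ 0) {w : Fin 3 → ℂ} (hw : w ≠ 0)
    (hwF : eval w F = 0) (hwG : eval w G = 0)
    (htr : ∀ p : Fin 3 → ℂ, p ≠ 0 → eval p F = 0 → eval p G = 0 → Transversal F G p)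
    {Q : P3} (hQ : Q.IsHomogeneous 4)
    (hQz : ∀ p : Fin 3 → ℂ, p ≠ 0 → eval p F = 0 → eval p G = 0 → ¬ Par w p → eval p Q = 0) :
    eval w Q = 0 := by
  obtain ⟨j, hj⟩ : ∃ j, w j ≠ 0 := by
    by_contra h
    push Not at h
    exact hw (funext h)
  have key : ∀ i : Fin 3, ∃ α β : P3, lin w j i * Q = α * F + β * G ∧
      α.IsHomogeneous 2 ∧ β.IsHomogeneous 1 := by
    intro i
    have hh : (lin w j i * Q).IsHomogeneous 5 := (lin_homog w j i).mul hQ
    have hmem : lin w j i * Q ∈ Ideal.span {F, G} := by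
      refine noether hF hG hrel hF0 hG0 htr ?_
      intro p hp h1 h2 t
      by_cases hpar : Par w p
      · obtain ⟨c, hc⟩ := hpar.exists_smul hw
        rw [hc, smul_smul]
        apply eval_line_of_homog hh
        rw [map_mul, lin_eval_self, zero_mul]
      · apply eval_line_of_homog hh
        rw [map_mul, hQz p hp h1 h2 hpar, mul_zero]
    obtain ⟨α, β, h1, h2, h3, -, -⟩ := exists_homog_pair hF hG hh hmem
    exact ⟨α, β, h1, h2, h3⟩
  obtain ⟨α1, β1, e1, hα1, hβ1⟩ := key (j + 1)
  obtain ⟨α2, β2, e2, hα2, hβ2⟩ := key (j + 2)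
  set l1 := lin w j (j + 1) with hl1
  set l2 := lin w j (j + 2) with hl2
  have e3 : (l2 * α1 - l1 * α2) * F = (l1 * β2 - l2 * β1) * G := by
    linear_combination (-l2) * e1 + l1 * e2
  have hdvd : G ∣ l2 * α1 - l1 * α2 := by
    apply hrel.symm.dvd_of_dvd_mul_right (z := F)
    rw [e3]
    exact dvd_mul_left _ _
  have hdeg : (l2 * α1 - l1 * α2).IsHomogeneous 3 :=
    ((lin_homog w j (j + 2)).mul hα1).sub ((lin_homog w j (j + 1)).mul hα2)
  have h0 : l2 * α1 - l1 * α2 = 0 := by
    obtain ⟨γ, h1, -, h2⟩ := exists_homog_dvd hG hdeg hdvd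
    rw [h1, h2 (by norm_num), zero_mul]
  have h0' : l1 * β2 - l2 * β1 = 0 := by
    rw [h0, zero_mul] at e3
    exact (mul_eq_zero.mp e3.symm).resolve_right hG0
  have hl1irr : Irreducible l1 := by
    apply lin_irreducible (lin_homog w j (j + 1))
    intro h
    have h2 : eval (Pi.single (j + 1) 1) l1 = w j := by
      rw [hl1, lin, map_sub, map_mul, map_mul, eval_C, eval_C, eval_X, eval_X]
      have : j ≠ j + 1 := by
        have : ∀ j : Fin 3, j ≠ j + 1 := by decide
        exact this j
      simp [this]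
    rw [hl1] at h2
    rw [h] at h2
    exact hj (by simpa using h2.symm)
  have hnd : ¬ l1 ∣ l2 := by
    rintro ⟨c, hc⟩
    have h1 : eval (Pi.single (j + 2) 1) l1 = 0 := by
      rw [hl1, lin, map_sub, map_mul, map_mul, eval_C, eval_C, eval_X, eval_X]
      have h3 : j ≠ j + 2 := by
        have : ∀ j : Fin 3, j ≠ j + 2 := by decide
        exact this j
      have h4 : j + 1 ≠ j + 2 := by
        have : ∀ j : Fin 3, j + 1 ≠ j + 2 := by decide
        exact this j
      rw [Pi.single_eq_of_ne h3, Pi.single_eq_of_ne h4]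
      simp
    have h2 : eval (Pi.single (j + 2) 1) l2 = w j := by
      rw [hl2, lin, map_sub, map_mul, map_mul, eval_C, eval_C, eval_X, eval_X]
      have h3 : j ≠ j + 2 := by
        have : ∀ j : Fin 3, j ≠ j + 2 := by decide
        exact this j
      rw [Pi.single_eq_of_ne h3]
      simp
    rw [hc, map_mul, h1, zero_mul] at h2
    exact hj h2.symm
  have hα : l1 ∣ α1 := by
    have : l1 ∣ l2 * α1 := ⟨α2, by linear_combination h0⟩
    exact (hl1irr.prime.dvd_or_dvd this).resolve_left hnd
  have hβ : l1 ∣ β1 := by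
    have : l1 ∣ l2 * β1 := ⟨β2, by linear_combination -h0'⟩
    exact (hl1irr.prime.dvd_or_dvd this).resolve_left hnd
  obtain ⟨α', hα'⟩ := hα
  obtain ⟨β', hβ'⟩ := hβ
  have hQeq : Q = α' * F + β' * G := by
    apply mul_left_cancel₀ hl1irr.ne_zero
    rw [e1, hα', hβ']
    ring
  rw [hQeq, map_add, map_mul, map_mul, hwF, hwG]
  ring

/-- For a form of degree `n`, the top coefficient of its restriction to the line `u + T v`. -/
lemma coeff_line {f : P3} {n : ℕ} (hf : f.IsHomogeneous n) (u v : Fin 3 → ℂ) :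
    (aeval (fun i => Polynomial.C (u i) + Polynomial.C (v i) * Polynomial.X) f :
      Polynomial ℂ).coeff n = eval v f := by
  rw [aeval_def, eval₂_eq', Polynomial.finsetSum_coeff, eval_eq']
  refine Finset.sum_congr rfl fun d hd => ?_
  have hdeg : d 0 + d 1 + d 2 = n := by
    have := hf.degree_eq_sum_deg_support hd
    rw [this, ← Fin.sum_univ_three]
    exact (Finset.sum_subset (Finset.subset_univ _) (by simp)).symm
  have hl : ∀ i, (Polynomial.C (u i) + Polynomial.C (v i) * Polynomial.X : Polynomial ℂ).natDegree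
      ≤ 1 := by
    intro i
    compute_degree
  have hpow : ∀ i, ((Polynomial.C (u i) + Polynomial.C (v i) * Polynomial.X : Polynomial ℂ)
      ^ d i).natDegree ≤ d i := by
    intro i
    have := Polynomial.natDegree_pow_le_of_le (d i) (hl i)
    simpa using this
  have hcoef : ∀ i, ((Polynomial.C (u i) + Polynomial.C (v i) * Polynomial.X : Polynomial ℂ)
      ^ d i).coeff (d i) = v i ^ d i := by
    intro i
    have := Polynomial.coeff_pow_of_natDegree_le (m := d i) (hl i)
    rw [mul_one] at this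
    rw [this]
    simp
  rw [Polynomial.algebraMap_apply, Polynomial.coeff_C_mul, Fin.prod_univ_three,
    Fin.prod_univ_three, ← hdeg, Polynomial.coeff_mul_add_eq_of_natDegree_le _ (hpow 2),
    Polynomial.coeff_mul_add_eq_of_natDegree_le (hpow 0) (hpow 1), hcoef, hcoef, hcoef]
  · simp
  · exact Polynomial.natDegree_mul_le_of_le (hpow 0) (hpow 1)

/-- points on lines through `o` -/
def pt (o : Fin 3 → ℂ) (s T : ℂ) : Fin 3 → ℂ := ![T * o 0, 1 + T * o 1, s + T * o 2]

lemma pt_ne (o : Fin 3 → ℂ) (ho : o 0 ≠ 0) (s T : ℂ) : pt o s T ≠ 0 := by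
  intro h
  have h0 := congrFun h 0
  have h1 := congrFun h 1
  simp [pt] at h0 h1
  rcases h0 with h0 | h0
  · rw [h0] at h1; simp at h1
  · exact ho h0

/-- the linear form of the line through `o` and `(0, 1, s)` -/
noncomputable def lf (o : Fin 3 → ℂ) (s : ℂ) : P3 :=
  C (o 1 * s - o 2) * X 0 + C (-(o 0 * s)) * X 1 + C (o 0) * X 2

lemma lf_homog (o : Fin 3 → ℂ) (s : ℂ) : (lf o s).IsHomogeneous 1 := by
  unfold lf
  exact ((isHomogeneous_C_mul_X _ _).add (isHomogeneous_C_mul_X _ _)).add
    (isHomogeneous_C_mul_X _ _)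

lemma lf_eval (o : Fin 3 → ℂ) (s s' T : ℂ) : eval (pt o s' T) (lf o s) = o 0 * (s' - s) := by
  simp [lf, pt]
  ring

lemma pt_par {o : Fin 3 → ℂ} (ho : o 0 ≠ 0) {s s' T T' : ℂ} (h : Par (pt o s T) (pt o s' T')) :
    s = s' ∧ T = T' := by
  obtain ⟨c, hc⟩ := h.exists_smul (pt_ne o ho s T)
  have h1 : eval (pt o s' T') (lf o s) = 0 := by
    rw [hc, eval_smul_homog (lf_homog o s), lf_eval]
    ring
  rw [lf_eval] at h1
  have hs : s = s' := by
    have := (mul_eq_zero.mp h1).resolve_left ho
    linear_combination -this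
  refine ⟨hs, ?_⟩
  have e0 := congrFun hc 0
  have e1 := congrFun hc 1
  simp only [pt, Pi.smul_apply, smul_eq_mul, Matrix.cons_val_zero, Matrix.cons_val_one] at e0 e1
  have e2 : T' = c * T := mul_right_cancel₀ ho (by linear_combination e0)
  rw [e2] at e1
  have hc1 : c = 1 := by linear_combination -e1
  rw [e2, hc1, one_mul]

/-- restriction of `F` to the line through `(0,1,s)` and `o` -/
noncomputable def lineP (F : P3) (o : Fin 3 → ℂ) (s : ℂ) : Polynomial ℂ :=
  aeval (fun i => Polynomial.C ((![0, 1, s] : Fin 3 → ℂ) i) + Polynomial.C (o i) * Polynomial.X) F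

lemma lineP_eval (F : P3) (o : Fin 3 → ℂ) (s T : ℂ) :
    (lineP F o s).eval T = eval (pt o s T) F := by
  have h1 : (Polynomial.aeval T) (lineP F o s) = eval (pt o s T) F := by
    rw [lineP, ← AlgHom.comp_apply, MvPolynomial.comp_aeval, ← MvPolynomial.aeval_eq_eval]
    congr 2
    funext i
    fin_cases i <;> simp [pt] <;> ring
  rwa [Polynomial.coe_aeval_eq_eval] at h1

/-- the polar of `F` with respect to `o` -/
noncomputable def polar (F : P3) (o : Fin 3 → ℂ) : P3 := ∑ i, C (o i) * pderiv i F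

lemma lineP_derivative (F : P3) (o : Fin 3 → ℂ) (s T : ℂ) :
    (Polynomial.derivative (lineP F o s)).eval T = eval (pt o s T) (polar F o) := by
  have h1 : Polynomial.derivative (lineP F o s) = lineP (polar F o) o s := by
    have := derivation_aeval (Polynomial.derivative' : Derivation ℂ (Polynomial ℂ) (Polynomial ℂ))
      (fun i => Polynomial.C ((![0, 1, s] : Fin 3 → ℂ) i) + Polynomial.C (o i) * Polynomial.X) F
    rw [Polynomial.derivative'_apply] at this
    rw [lineP, this, lineP, polar, map_sum]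
    refine Finset.sum_congr rfl fun i _ => ?_
    rw [map_mul, aeval_C, Polynomial.derivative'_apply, Polynomial.derivative_add,
      Polynomial.derivative_C, Polynomial.derivative_C_mul, Polynomial.derivative_X, smul_eq_mul,
      zero_add, mul_one, mul_comm]
    rfl
  rw [h1, lineP_eval]

lemma polar_homog {F : P3} (hF : F.IsHomogeneous 3) (o : Fin 3 → ℂ) :
    (polar F o).IsHomogeneous 2 :=
  IsHomogeneous.sum _ _ _ fun i _ => (hF.pderiv (i := i)).C_mul _

lemma polar_eval {F : P3} (hF : F.IsHomogeneous 3) (o : Fin 3 → ℂ) :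
    eval o (polar F o) = 3 * eval o F := by
  have := euler_eval hF o
  rw [polar, map_sum]
  simp only [map_mul, eval_C]
  simpa [grad] using this

/-- directions for which the line through `o` is not transversal to `F` -/
def badS (F : P3) (o : Fin 3 → ℂ) : Set ℂ :=
  {s | ∃ T, eval (pt o s T) F = 0 ∧ eval (pt o s T) (polar F o) = 0}

lemma badS_finite {F : P3} (hF : F.IsHomogeneous 3) (hirr : Irreducible F) {o : Fin 3 → ℂ}
    (ho : o 0 ≠ 0) (hoF : eval o F ≠ 0) : (badS F o).Finite := by
  by_contra hinf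
  have hinf : (badS F o).Infinite := hinf
  have hpol0 : polar F o ≠ 0 := by
    intro h
    have := polar_eval hF o
    rw [h, map_zero] at this
    exact hoF (by
      have h3 : (3 : ℂ) ≠ 0 := by norm_num
      exact (mul_eq_zero.mp this.symm).resolve_left h3)
  have hnd : ¬ F ∣ polar F o := by
    intro h
    obtain ⟨α, h1, -, h2⟩ := exists_homog_dvd hF (polar_homog hF o) h
    rw [h2 (by norm_num), zero_mul] at h1
    exact hpol0 h1
  have hrel : IsRelPrime F (polar F o) := hirr.isRelPrime_iff_not_dvd.mpr hnd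
  let e := hinf.natEmbedding
  have hT : ∀ n : ℕ, ∃ T, eval (pt o (e n : ℂ) T) F = 0 ∧ eval (pt o (e n : ℂ) T) (polar F o) = 0 :=
    fun n => (e n).2
  choose T hT1 hT2 using hT
  have := card_zeros_le (N := 7) hF (polar_homog hF o) hrel hirr.ne_zero hpol0
    (p := fun k : Fin 7 => pt o (e k : ℂ) (T k)) (fun k => pt_ne o ho _ _) ?_
    (fun k => hT1 _) (fun k => hT2 _)
  · omega
  · intro i j hij hpar
    have h1 := (pt_par ho hpar).1
    have h2 : e (i : ℕ) = e (j : ℕ) := Subtype.ext h1
    have h3 := e.injective h2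
    exact hij (Fin.ext h3)

/-- On a good line through `o` there are three distinct points of the cubic. -/
lemma exists_three {F : P3} (hF : F.IsHomogeneous 3) {o : Fin 3 → ℂ}
    (hoF : eval o F ≠ 0) {s : ℂ} (hs : s ∉ badS F o) :
    ∃ T : Fin 3 → ℂ, Function.Injective T ∧ ∀ l, eval (pt o s (T l)) F = 0 := by
  classical
  set φ := lineP F o s with hφ
  have hc3 : φ.coeff 3 = eval o F := coeff_line hF _ _
  have hφ0 : φ ≠ 0 := by
    intro h
    rw [h] at hc3
    exact hoF (by simpa using hc3.symm)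
  have hdeg : 3 ≤ φ.natDegree := Polynomial.le_natDegree_of_ne_zero (by rw [hc3]; exact hoF)
  have hnodup : φ.roots.Nodup := by
    rw [Multiset.nodup_iff_count_le_one]
    intro T
    rw [Polynomial.count_roots]
    by_contra hlt
    push Not at hlt
    rw [Polynomial.one_lt_rootMultiplicity_iff_isRoot hφ0] at hlt
    apply hs
    refine ⟨T, ?_, ?_⟩
    · rw [← lineP_eval]; exact hlt.1
    · rw [← lineP_derivative]; exact hlt.2
  have hcard : 3 ≤ φ.roots.toFinset.card := by
    rw [Multiset.toFinset_card_of_nodup hnodup, IsAlgClosed.card_roots_eq_natDegree]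
    exact hdeg
  have hemb : Nonempty (Fin 3 ↪ φ.roots.toFinset) := by
    apply Function.Embedding.nonempty_of_card_le
    simpa using hcard
  obtain ⟨emb⟩ := hemb
  refine ⟨fun l => (emb l : ℂ), fun a b h => emb.injective (Subtype.ext h), fun l => ?_⟩
  have := (emb l).2
  rw [Multiset.mem_toFinset, Polynomial.mem_roots hφ0] at this
  rw [← lineP_eval]
  exact this

/-- There are twelve points on a smooth cubic cut out transversally by a quartic. -/
theorem exists_twelve {F : P3} (hF : F.IsHomogeneous 3) (hirr : Irreducible F) :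
    ∃ (G : P3) (p : Fin 12 → Fin 3 → ℂ), G.IsHomogeneous 4 ∧ ¬ F ∣ G ∧ (∀ i, p i ≠ 0) ∧
      (∀ i, eval (p i) F = 0) ∧ (∀ i, eval (p i) G = 0) ∧ (∀ i j, i ≠ j → ¬ Par (p i) (p j)) := by
  classical
  -- the centre of projection
  obtain ⟨o, ho, hoF⟩ : ∃ o : Fin 3 → ℂ, o 0 ≠ 0 ∧ eval o F ≠ 0 := by
    by_contra hcon
    push Not at hcon
    have : X 0 * F = 0 := by
      apply MvPolynomial.funext
      intro o
      rw [map_mul, eval_X, map_zero]
      by_cases h : o 0 = 0
      · rw [h, zero_mul]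
      · rw [hcon o h, mul_zero]
    exact hirr.ne_zero ((mul_eq_zero.mp this).resolve_left (X_ne_zero 0))
  have hfin := badS_finite hF hirr ho hoF
  have hinf : (badS F o)ᶜ.Infinite := hfin.infinite_compl
  let e := hinf.natEmbedding
  choose T hT1 hT2 using fun n : ℕ => exists_three hF hoF (s := (e n : ℂ)) (e n).2
  let G : P3 := ∏ k : Fin 4, lf o (e k : ℂ)
  have hGh : G.IsHomogeneous 4 := by
    have : G.IsHomogeneous (∑ _k : Fin 4, 1) := IsHomogeneous.prod _ _ _ fun k _ => lf_homog o _
    simpa using this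
  have hlf0 : ∀ s, lf o s ≠ 0 := by
    intro s h
    have := lf_eval o s (s + 1) 0
    rw [h, map_zero] at this
    have h2 : o 0 * (s + 1 - s) = o 0 := by ring
    rw [h2] at this
    exact ho this.symm
  have hFlf : ∀ s, ¬ F ∣ lf o s := by
    intro s h
    obtain ⟨α, h1, -, h2⟩ := exists_homog_dvd hF (lf_homog o s) h
    rw [h2 (by norm_num), zero_mul] at h1
    exact hlf0 s h1
  refine ⟨G, fun i => pt o (e (finProdFinEquiv.symm i : Fin 4 × Fin 3).1 : ℂ)
    (T (finProdFinEquiv.symm i : Fin 4 × Fin 3).1 (finProdFinEquiv.symm i : Fin 4 × Fin 3).2),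
    hGh, ?_, fun i => pt_ne o ho _ _, fun i => hT2 _ _, fun i => ?_, ?_⟩
  · intro h
    have := hirr.prime.exists_mem_finset_dvd h
    obtain ⟨k, -, hk⟩ := this
    exact hFlf _ hk
  · change eval _ (∏ k : Fin 4, lf o (e k : ℂ)) = 0
    rw [map_prod]
    apply Finset.prod_eq_zero (Finset.mem_univ (finProdFinEquiv.symm i : Fin 4 × Fin 3).1)
    rw [lf_eval]
    ring
  · intro i j hij hpar
    apply hij
    obtain ⟨h1, h2⟩ := pt_par ho hpar
    have h3 := e.injective (Subtype.ext h1)
    have h4 : (finProdFinEquiv.symm i : Fin 4 × Fin 3).1 =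
        (finProdFinEquiv.symm j : Fin 4 × Fin 3).1 := Fin.ext h3
    rw [← h4] at h2
    have h5 := hT1 _ h2
    have h6 : (finProdFinEquiv.symm i : Fin 4 × Fin 3) = finProdFinEquiv.symm j := Prod.ext h4 h5
    exact finProdFinEquiv.symm.injective h6

end Pool.Agent.MPafef76

end

section

/-!
# The divisor attached to the plane cubic
-/

set_option autoImplicit false

namespace Pool.Agent.MPafef76

open MvPolynomial

/-- polynomial ring in two variables -/
abbrev P2 := MvPolynomial (Fin 2) ℂ

/-- dehomogenization -/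
noncomputable def dh : P3 →ₐ[ℂ] P2 := aeval ![1, X 0, X 1]

lemma dh_X0 : dh (X 0) = 1 := by simp [dh]
lemma dh_X1 : dh (X 1) = X 0 := by simp [dh]
lemma dh_X2 : dh (X 2) = X 1 := by simp [dh]

lemma eval_dh (f : P3) (u w : ℂ) : eval ![u, w] (dh f) = eval ![1, u, w] f := by
  have h1 : aeval (![u, w] : Fin 2 → ℂ) (dh f) = aeval (![1, u, w] : Fin 3 → ℂ) f := by
    rw [dh, ← AlgHom.comp_apply, MvPolynomial.comp_aeval]
    congr 2
    funext i
    fin_cases i <;> simp
  rwa [MvPolynomial.aeval_eq_eval, MvPolynomial.aeval_eq_eval] at h1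

lemma eq_zero_of_dh {f : P3} {m : ℕ} (hf : f.IsHomogeneous m) (h : dh f = 0) : f = 0 := by
  have : X 0 * f = 0 := by
    apply MvPolynomial.funext
    intro y
    rw [map_mul, eval_X, map_zero]
    by_cases h0 : y 0 = 0
    · rw [h0, zero_mul]
    · have h1 : y = y 0 • ![1, y 1 / y 0, y 2 / y 0] := by
        funext i
        fin_cases i
        · simp
        · simp; field_simp
        · simp; field_simp
      rw [h1, eval_smul_homog hf, ← eval_dh, h]
      simp
  exact (mul_eq_zero.mp this).resolve_left (X_ne_zero 0)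

lemma exists_homogenization (g : P2) : ∃ (N : ℕ) (G : P3), G.IsHomogeneous N ∧ dh G = g := by
  induction g using MvPolynomial.induction_on with
  | C c => exact ⟨0, C c, isHomogeneous_C _ _, by simp [dh]⟩
  | add p q hp hq =>
    obtain ⟨N, G, hG, rfl⟩ := hp
    obtain ⟨M, H, hH, rfl⟩ := hq
    refine ⟨M + N, X 0 ^ M * G + X 0 ^ N * H, ?_, ?_⟩
    · have h1 := (isHomogeneous_X_pow (R := ℂ) (0 : Fin 3) M).mul hG
      have h2 := (isHomogeneous_X_pow (R := ℂ) (0 : Fin 3) N).mul hH
      rw [add_comm N M] at h2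
      exact h1.add h2
    · rw [map_add, map_mul, map_mul, map_pow, map_pow, dh_X0, one_pow, one_pow, one_mul, one_mul]
  | mul_X p i hp =>
    obtain ⟨N, G, hG, rfl⟩ := hp
    fin_cases i
    · exact ⟨N + 1, G * X 1, hG.mul (isHomogeneous_X _ _), by rw [map_mul, dh_X1]; rfl⟩
    · exact ⟨N + 1, G * X 2, hG.mul (isHomogeneous_X _ _), by rw [map_mul, dh_X2]; rfl⟩

/-- Transfer of divisibility to the homogeneous setting. -/
lemma homog_of_dh_eq {f g : P3} {m n : ℕ} (hf : f.IsHomogeneous m) (hg : g.IsHomogeneous n)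
    (h : dh f = dh g) : X 0 ^ n * f = X 0 ^ m * g := by
  have h1 : (X 0 ^ n * f - X 0 ^ m * g).IsHomogeneous (n + m) := by
    have h1 := (isHomogeneous_X_pow (R := ℂ) (0 : Fin 3) n).mul hf
    have h2 := (isHomogeneous_X_pow (R := ℂ) (0 : Fin 3) m).mul hg
    rw [add_comm m n] at h2
    exact h1.sub h2
  have h2 : dh (X 0 ^ n * f - X 0 ^ m * g) = 0 := by
    rw [map_sub, map_mul, map_mul, map_pow, map_pow, dh_X0, one_pow, one_pow, h, sub_self]
  exact sub_eq_zero.mp (eq_zero_of_dh h1 h2)

section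
variable {F : P3}

lemma not_dvd_X0 (hF : F.IsHomogeneous 3) : ¬ F ∣ X 0 := by
  intro h
  obtain ⟨α, h1, -, h2⟩ := exists_homog_dvd hF (isHomogeneous_X ℂ (0 : Fin 3)) h
  rw [h2 (by norm_num), zero_mul] at h1
  exact X_ne_zero (R := ℂ) (0 : Fin 3) h1

lemma pow_dvd_of_dh (hF : F.IsHomogeneous 3) (hirr : Irreducible F) {f : P3} {m : ℕ}
    (hf : f.IsHomogeneous m) (j : ℕ) (h : dh F ^ j ∣ dh f) : F ^ j ∣ f := by
  obtain ⟨k, hk⟩ := h
  obtain ⟨N, K, hK, rfl⟩ := exists_homogenization k
  rw [← map_pow, ← map_mul] at hk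
  have h1 := homog_of_dh_eq hf ((hF.pow j).mul hK) hk
  have hnd : ¬ F ∣ X 0 ^ (3 * j + N) := fun h =>
    not_dvd_X0 hF (hirr.prime.dvd_of_dvd_pow h)
  apply hirr.prime.pow_dvd_of_dvd_mul_left j hnd
  rw [h1]
  exact ⟨X 0 ^ m * K, by ring⟩

lemma prime_dh (hF : F.IsHomogeneous 3) (hirr : Irreducible F) : Prime (dh F) := by
  refine ⟨?_, ?_, ?_⟩
  · intro h
    exact hirr.ne_zero (eq_zero_of_dh hF h)
  · intro h
    have h1 : dh F ^ 1 ∣ dh (X 0) := by
      rw [dh_X0, pow_one]; exact h.dvd
    have := pow_dvd_of_dh hF hirr (isHomogeneous_X ℂ (0 : Fin 3)) 1 h1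
    rw [pow_one] at this
    exact not_dvd_X0 hF this
  · intro a b hab
    obtain ⟨N, G, hG, rfl⟩ := exists_homogenization a
    obtain ⟨M, H, hH, rfl⟩ := exists_homogenization b
    have h1 : F ^ 1 ∣ G * H := by
      apply pow_dvd_of_dh hF hirr (hG.mul hH)
      rwa [pow_one, map_mul]
    rw [pow_one] at h1
    rcases hirr.prime.dvd_or_dvd h1 with h | h
    · exact Or.inl (map_dvd dh h)
    · exact Or.inr (map_dvd dh h)

lemma exists_zero_dh (hF : F.IsHomogeneous 3) (hirr : Irreducible F) :
    ∃ u w : ℂ, eval ![1, u, w] F = 0 := by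
  by_contra hcon
  push Not at hcon
  have h1 : (Ideal.span {dh F}).radical = ⊤ := by
    rw [← vanishingIdeal_zeroLocus_eq_radical (K := ℂ)]
    have : zeroLocus ℂ (Ideal.span {dh F}) = ∅ := by
      rw [Set.eq_empty_iff_forall_notMem]
      intro x hx
      rw [mem_zeroLocus_iff] at hx
      have h2 := hx (dh F) (Ideal.mem_span_singleton_self _)
      rw [MvPolynomial.aeval_eq_eval] at h2
      have h3 : x = ![x 0, x 1] := by
        funext i; fin_cases i <;> rfl
      rw [h3, eval_dh] at h2
      exact hcon _ _ h2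
    rw [this, vanishingIdeal_empty]
  rw [Ideal.radical_eq_top, Ideal.span_singleton_eq_top] at h1
  exact (prime_dh hF hirr).not_isUnit h1

lemma pderiv_dh (f : P3) (i : Fin 2) : pderiv i (dh f) = dh (pderiv i.succ f) := by
  rw [dh, derivation_aeval (pderiv i : Derivation ℂ P2 P2)]
  rw [Fin.sum_univ_three]
  fin_cases i <;> simp [smul_eq_mul]

lemma not_both_dvd (hF : F.IsHomogeneous 3) (hs : SmoothForm F) :
    ¬ dh F ∣ pderiv 0 (dh F) ∨ ¬ dh F ∣ pderiv 1 (dh F) := by
  by_contra hcon
  push Not at hcon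
  obtain ⟨h0, h1⟩ := hcon
  have hirr := hs.irreducible hF
  obtain ⟨u, w, huw⟩ := exists_zero_dh hF hirr
  have key : ∀ i : Fin 2, dh F ∣ pderiv i (dh F) → eval ![1, u, w] (pderiv i.succ F) = 0 := by
    intro i hi
    obtain ⟨k, hk⟩ := hi
    rw [pderiv_dh] at hk
    rw [← eval_dh, hk, map_mul, eval_dh, huw, zero_mul]
  have e1 : eval ![1, u, w] (pderiv 1 F) = 0 := key 0 h0
  have e2 : eval ![1, u, w] (pderiv 2 F) = 0 := key 1 h1
  have e0 : eval ![1, u, w] (pderiv 0 F) = 0 := by
    have := euler_eval hF ![1, u, w]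
    rw [huw, mul_zero, Fin.sum_univ_three] at this
    simp only [grad, e1, e2, mul_zero, add_zero] at this
    simpa using this
  obtain ⟨i, hi⟩ := hs ![1, u, w] (by
    intro h
    have := congrFun h 0
    simp at this)
  apply hi
  fin_cases i
  · exact e0
  · exact e1
  · exact e2

end

/-- The chart `(u, w, V) ↦ (F̃ V, F̃ V u, F̃ V w)`. -/
noncomputable def curMap (F : P3) : P3 →ₐ[ℂ] T2 :=
  aeval (fun i => (Polynomial.C (dh F) * Polynomial.X) *
    (![1, Polynomial.C (X 0), Polynomial.C (X 1)] : Fin 3 → T2) i)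

lemma aeval_C_dh (f : P3) :
    aeval (![1, Polynomial.C (X 0), Polynomial.C (X 1)] : Fin 3 → T2) f =
      Polynomial.C (dh f) := by
  have : (aeval (![1, Polynomial.C (X 0), Polynomial.C (X 1)] : Fin 3 → T2) : P3 →ₐ[ℂ] T2) =
      (Polynomial.CAlgHom : P2 →ₐ[ℂ] T2).comp dh := by
    apply MvPolynomial.algHom_ext
    intro i
    rw [aeval_X, AlgHom.comp_apply]
    fin_cases i
    · simp [dh_X0]
    · simp [dh_X1]
    · simp [dh_X2]
  rw [this]
  rfl

lemma curMap_homog (F : P3) {f : P3} {m : ℕ} (hf : f.IsHomogeneous m) :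
    curMap F f = (Polynomial.C (dh F) * Polynomial.X) ^ m * Polynomial.C (dh f) := by
  rw [curMap, aeval_mul_homog hf, aeval_C_dh]

lemma curMap_C (F : P3) (c : ℂ) : curMap F (C c) = Polynomial.C (C c) := by
  rw [curMap, aeval_C]; rfl

lemma curMap_injective {F : P3} (hF : F.IsHomogeneous 3) (hF0 : F ≠ 0) :
    Function.Injective (curMap F) := by
  rw [injective_iff_map_eq_zero]
  intro f hf
  have key : X 0 * F * f = 0 := by
    apply MvPolynomial.funext
    intro y
    rw [map_mul, map_mul, eval_X, map_zero]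
    by_cases h0 : y 0 = 0
    · rw [h0, zero_mul, zero_mul]
    by_cases h1 : eval y F = 0
    · rw [h1, mul_zero, zero_mul]
    have hy : y = y 0 • ![1, y 1 / y 0, y 2 / y 0] := by
      funext i
      fin_cases i
      · simp
      · simp; field_simp
      · simp; field_simp
    set d := eval ![y 1 / y 0, y 2 / y 0] (dh F) with hd
    have hd0 : d ≠ 0 := by
      intro h
      apply h1
      rw [hy, eval_smul_homog hF, ← eval_dh, ← hd, h, mul_zero]
    have h2 : evT (S := ℂ) (y 0 / d) (y 1 / y 0) (y 2 / y 0) (curMap F f) = eval y f := by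
      rw [← AlgHom.comp_apply, ← MvPolynomial.aeval_eq_eval]
      congr 1
      apply MvPolynomial.algHom_ext
      intro i
      rw [AlgHom.comp_apply, curMap, aeval_X, aeval_X, map_mul, map_mul, evT_C, evT_X,
        MvPolynomial.aeval_eq_eval, ← hd]
      fin_cases i
      · simp; field_simp
      · simp [evT_C]; field_simp
      · simp [evT_C]; field_simp
    rw [← h2, hf, map_zero, mul_zero]
  have h3 : (X 0 * F : P3) ≠ 0 := mul_ne_zero (X_ne_zero 0) hF0
  exact (mul_eq_zero.mp key).resolve_left h3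

/-- **Necessary condition from the divisor attached to the cubic.** -/
theorem curve_dvd {F : P3} (hF : F.IsHomogeneous 3) (hs : SmoothForm F)
    {𝔞 : Ideal P3} {n : ℕ} (hn1 : ∀ g ∈ 𝔞, Polynomial.C (dh F) ^ n ∣ curMap F g)
    (hn2 : ∃ g ∈ 𝔞, ¬ Polynomial.C (dh F) ^ (n + 1) ∣ curMap F g)
    {c : ℝ} {f : P3} (hf : f ∈ multiplierIdeal 𝔞 c) :
    Polynomial.C (dh F) ^ (⌊c * n⌋₊ - (2 + 1)) ∣ curMap F f := by
  have hirr := hs.irreducible hF
  let _ : Algebra P3 T2 := (curMap F).toRingHom.toAlgebra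
  have hmap : ∀ g : P3, algebraMap P3 T2 g = curMap F g := fun g => rfl
  have hC : ∀ c : ℂ, algebraMap P3 T2 (C c) = Polynomial.C (C c) := fun c => curMap_C _ _
  have hprime : Prime (Polynomial.C (dh F)) := Polynomial.prime_C_iff.mpr (prime_dh hF hirr)
  have hP : (Ideal.span {Polynomial.C (dh F)}).IsPrime := by
    rw [Ideal.span_singleton_prime hprime.ne_zero]
    exact hprime
  have hft : Algebra.FiniteType P3 T2 := finiteType_T2 hC
  have hX0 : curMap F (X 0) = Polynomial.C (dh F) * Polynomial.X := by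
    rw [curMap, aeval_X]; simp
  have hX1 : curMap F (X 1) = Polynomial.C (dh F) * Polynomial.X * Polynomial.C (X 0) := by
    rw [curMap, aeval_X]; simp
  have hX2 : curMap F (X 2) = Polynomial.C (dh F) * Polynomial.X * Polynomial.C (X 1) := by
    rw [curMap, aeval_X]; simp
  have hnV : ¬ Polynomial.C (dh F) ∣ Polynomial.X := by
    rw [Polynomial.C_dvd_iff_dvd_coeff]
    intro h
    have := h 1
    rw [Polynomial.coeff_X_one] at this
    exact (prime_dh hF hirr).not_isUnit (isUnit_of_dvd_one this)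
  have hadj := adjoin_T2 hC
  have hset1 : Set.range (![Polynomial.C (X 0), Polynomial.C (X 1), Polynomial.X] : Fin 3 → T2) =
      Set.range (![Polynomial.X, Polynomial.C (X 0), Polynomial.C (X 1)] : Fin 3 → T2) := by
    simp only [Matrix.range_cons, Matrix.range_empty, Set.union_empty]
    ext x
    simp only [Set.mem_union, Set.mem_singleton_iff]
    tauto
  have hset2 : Set.range (![Polynomial.C (X 1), Polynomial.C (X 0), Polynomial.X] : Fin 3 → T2) =
      Set.range (![Polynomial.X, Polynomial.C (X 0), Polynomial.C (X 1)] : Fin 3 → T2) := by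
    simp only [Matrix.range_cons, Matrix.range_empty, Set.union_empty]
    ext x
    simp only [Set.mem_union, Set.mem_singleton_iff]
    tauto
  have hder : ∀ (M : Type) [AddCommGroup M] [Module T2 M] [Module P3 M] [IsScalarTower P3 T2 M]
      (D : Derivation P3 T2 M) (g : P2), D (Polynomial.C g) =
        Polynomial.C (pderiv 0 g) • D (Polynomial.C (X 0)) +
        Polynomial.C (pderiv 1 g) • D (Polynomial.C (X 1)) := by
    intro M _ _ _ _ D g
    induction g using MvPolynomial.induction_on with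
    | C c =>
      rw [← hC, Derivation.map_algebraMap]
      simp
    | add p q hp hq =>
      simp only [map_add, hp, hq, add_smul]
      abel
    | mul_X p i hp =>
      rw [Polynomial.C_mul, Derivation.leibniz, hp, pderiv_mul, pderiv_mul]
      fin_cases i
      · simp only [Fin.zero_eta, pderiv_X_self, mul_one,
          pderiv_X_of_ne (show (0 : Fin 2) ≠ 1 by decide), mul_zero, add_zero, Polynomial.C_add,
          Polynomial.C_mul, add_smul, smul_add, mul_smul]
        rw [smul_comm (Polynomial.C (X 0)) (Polynomial.C (pderiv 0 p)),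
          smul_comm (Polynomial.C (X 0)) (Polynomial.C (pderiv 1 p))]
        abel
      · simp only [Fin.mk_one, pderiv_X_self, mul_one,
          pderiv_X_of_ne (show (1 : Fin 2) ≠ 0 by decide), mul_zero, add_zero, Polynomial.C_add,
          Polynomial.C_mul, add_smul, smul_add, mul_smul]
        rw [smul_comm (Polynomial.C (X 1)) (Polynomial.C (pderiv 0 p)),
          smul_comm (Polynomial.C (X 1)) (Polynomial.C (pderiv 1 p))]
        abel
  have hbir : ∀ t : T2, ∃ r s : P3, s ≠ 0 ∧ algebraMap P3 T2 s * t = algebraMap P3 T2 r := by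
    refine birational_T2 hC ?_ ?_
    · refine ⟨X 0 ^ 4, F, hirr.ne_zero, ?_⟩
      rw [hmap, map_pow, hmap, hX0, curMap_homog F hF]
      ring
    · intro i
      fin_cases i
      · exact ⟨X 1, X 0, X_ne_zero 0, by rw [hmap, hmap, hX0, hX1]; rfl⟩
      · exact ⟨X 2, X 0, X_ne_zero 0, by rw [hmap, hmap, hX0, hX2]; rfl⟩
  rcases not_both_dvd hF hs with h | h
  · refine dvd_of_mem_multiplierIdeal (T := T2) hprime hP (curMap_injective hF hirr.ne_zero)
      hbir (length_curve_le (T := T2) hprime hP (u := Polynomial.C (X 0))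
        (w := Polynomial.C (X 1)) (V := Polynomial.X) (by rw [hset1]; exact hadj) hnV ⟨X 0, hX0⟩
        ⟨X 1, hX1⟩ ⟨X 2, hX2⟩ (a := Polynomial.C (pderiv 0 (dh F)))
        (b := Polynomial.C (pderiv 1 (dh F))) ?_ ?_) hn1 hn2 hf
    · intro h'
      rw [Polynomial.C_dvd_iff_dvd_coeff] at h'
      have := h' 0
      rw [Polynomial.coeff_C_zero] at this
      exact h this
    · intro M _ _ _ _ D
      exact hder M D (dh F)
  · refine dvd_of_mem_multiplierIdeal (T := T2) hprime hP (curMap_injective hF hirr.ne_zero)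
      hbir (length_curve_le (T := T2) hprime hP (u := Polynomial.C (X 1))
        (w := Polynomial.C (X 0)) (V := Polynomial.X) (by rw [hset2]; exact hadj) hnV ⟨X 0, hX0⟩
        ⟨X 2, hX2⟩ ⟨X 1, hX1⟩ (a := Polynomial.C (pderiv 1 (dh F)))
        (b := Polynomial.C (pderiv 0 (dh F))) ?_ ?_) hn1 hn2 hf
    · intro h'
      rw [Polynomial.C_dvd_iff_dvd_coeff] at h'
      have := h' 0
      rw [Polynomial.coeff_C_zero] at this
      exact h this
    · intro M _ _ _ _ D
      rw [hder M D (dh F), add_comm]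

end Pool.Agent.MPafef76

end

section

/-!
# The logarithmic Jacobian estimate
-/

set_option autoImplicit false

namespace Pool.Agent.MPafef76

open MvPolynomial

section

variable {A : Type} [CommRing A] [IsDomain A]

omit [IsDomain A] in
/-- Determinant of a derivation matrix of functions with prescribed orders. -/
lemma log_det {R : Type*} [CommRing R] [Algebra R A] (d : Fin 3 → Derivation R A A) (ϖ : A)
    (g : Fin 3 → A) (ρ : Fin 3 → ℕ) (hρ : ∀ i, ϖ ^ ρ i ∣ g i) :
    ϖ ^ (ρ 0 + ρ 1 + ρ 2 + 2) ∣ ϖ ^ 3 * Matrix.det (Matrix.of fun i j => d j (g i)) := by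
  choose u hu using hρ
  have key : ∀ i j, ϖ * d j (g i) = ϖ ^ ρ i * (ϖ * d j (u i) + (ρ i * u i) * d j ϖ) := by
    intro i j
    rw [hu i, Derivation.leibniz, Derivation.leibniz_pow]
    simp only [smul_eq_mul, nsmul_eq_mul]
    rcases Nat.eq_zero_or_pos (ρ i) with h | h
    · rw [h]; simp
    · have : ϖ ^ ρ i = ϖ * ϖ ^ (ρ i - 1) := by
        rw [← pow_succ']; congr 1; omega
      rw [this]
      ring
  have h1 : ϖ ^ 3 * Matrix.det (Matrix.of fun i j => d j (g i)) =
      Matrix.det (Matrix.of fun i j => ϖ * d j (g i)) := by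
    simp only [Matrix.det_fin_three, Matrix.of_apply]
    ring
  rw [h1]
  simp only [key]
  rw [Matrix.det_fin_three]
  simp only [Matrix.of_apply]
  set P := fun i j => d j (u i) with hP
  set r := fun i => (ρ i : A) * u i with hr
  set t := fun j => d j ϖ with ht
  have hP' : ∀ i j, d j (u i) = P i j := fun _ _ => rfl
  have hr' : ∀ i, (ρ i : A) * u i = r i := fun _ => rfl
  have ht' : ∀ j, d j ϖ = t j := fun _ => rfl
  simp only [hP', hr', ht']
  refine ⟨ϖ * (P 0 0 * P 1 1 * P 2 2 - P 0 0 * P 1 2 * P 2 1 - P 0 1 * P 1 0 * P 2 2 +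
    P 0 1 * P 1 2 * P 2 0 + P 0 2 * P 1 0 * P 2 1 - P 0 2 * P 1 1 * P 2 0) +
    r 0 * (t 0 * P 1 1 * P 2 2 - t 0 * P 1 2 * P 2 1 - t 1 * P 1 0 * P 2 2 +
    t 1 * P 1 2 * P 2 0 + t 2 * P 1 0 * P 2 1 - t 2 * P 1 1 * P 2 0) +
    r 1 * (P 0 0 * t 1 * P 2 2 - P 0 0 * t 2 * P 2 1 - P 0 1 * t 0 * P 2 2 +
    P 0 1 * t 2 * P 2 0 + P 0 2 * t 0 * P 2 1 - P 0 2 * t 1 * P 2 0) +
    r 2 * (P 0 0 * P 1 1 * t 2 - P 0 0 * P 1 2 * t 1 - P 0 1 * P 1 0 * t 2 +
    P 0 1 * P 1 2 * t 0 + P 0 2 * P 1 0 * t 1 - P 0 2 * P 1 1 * t 0), ?_⟩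
  ring

variable [IsDiscreteValuationRing A] [Algebra P3 A]

/-- **Logarithmic Jacobian estimate** -/
theorem IsPrimeDivisor.log_ineq (hA : IsPrimeDivisor P3 A) [Algebra ℂ A]
    [IsScalarTower ℂ P3 A] {k : ℕ} (hk : Module.length A (Ω[A⁄P3]) = k) {ϖ : A}
    (hϖ : Irreducible ϖ) (g : Fin 3 → P3) (ρ : Fin 3 → ℕ)
    (hρ : ∀ i, ϖ ^ ρ i ∣ algebraMap P3 A (g i)) {s : ℕ} {u : A} (hu : IsUnit u)
    (hJ : algebraMap P3 A (Matrix.det (Matrix.of fun i j => pderiv j (g i))) = ϖ ^ s * u) :
    ρ 0 + ρ 1 + ρ 2 ≤ s + k + 1 := by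
  obtain ⟨d, hd⟩ := hA.exists_derivations hk hϖ
  have h1 := log_det d ϖ (fun i => algebraMap P3 A (g i)) ρ hρ
  have hchain : ∀ i j, d j (algebraMap P3 A (g i)) =
      ∑ l, algebraMap P3 A (pderiv l (g i)) * d j (algebraMap P3 A (X l)) := by
    intro i j
    have h2 := derivation_aeval (d j) (fun l => algebraMap P3 A (X l)) (g i)
    have h3 : ∀ f : P3, aeval (fun l => algebraMap P3 A (X l)) f = algebraMap P3 A f := by
      intro f
      have : (aeval (fun l => algebraMap P3 A (X l)) : P3 →ₐ[ℂ] A) =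
          IsScalarTower.toAlgHom ℂ P3 A := by
        apply MvPolynomial.algHom_ext
        intro i
        simp
      rw [this]; rfl
    rw [h3] at h2
    rw [h2]
    refine Finset.sum_congr rfl fun l _ => ?_
    rw [h3, smul_eq_mul]
  have hmat : (Matrix.of fun i j => d j (algebraMap P3 A (g i))) =
      ((algebraMap P3 A).mapMatrix (Matrix.of fun i j => pderiv j (g i))) *
      (Matrix.of fun i j => d j (algebraMap P3 A (X i))) := by
    ext i j
    rw [Matrix.mul_apply, Matrix.of_apply, hchain]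
    rfl
  rw [hmat, Matrix.det_mul, ← RingHom.map_det, hJ] at h1
  by_contra hcon
  push Not at hcon
  apply hd
  set D := Matrix.det (Matrix.of fun i j => d j (algebraMap P3 A (X i))) with hD
  have h2 : ϖ ^ (s + 3) * ϖ ^ (k + 1) ∣ ϖ ^ (s + 3) * (u * D) := by
    refine dvd_trans ?_ (dvd_trans h1 (dvd_of_eq (by ring)))
    rw [← pow_add]
    exact pow_dvd_pow _ (by omega)
  have h3 : ϖ ^ (k + 1) ∣ u * D :=
    (mul_dvd_mul_iff_left (pow_ne_zero _ hϖ.ne_zero)).mp h2
  exact (hu.dvd_mul_left).mp h3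

end

end Pool.Agent.MPafef76

end
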