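import Mathlib
import Pool.Agent.Work.MP_afef76_ag.Bd.B01

/-! Bundle of small proof modules (one section per former module). -/

section

/-!
# The lower bound for the multiplier ideals
-/

set_option autoImplicit false

namespace Pool.Agent.MPafef76

open MvPolynomial

/-- The ideal generated by products `p F^a G^b H^d` with numerical conditions. -/
noncomputable def expIdeal (F G H : P3) (c : ℝ) : Ideal P3 :=
  Ideal.span {f | ∃ (e a b d : ℕ) (p : P3), p.IsHomogeneous e ∧
    4 * c < e + 4 * a + 4 * b + 5 * d + 4 ∧ 5 * c < e + 5 * a + 5 * b + 5 * d + 6 ∧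
    c < a + b + d + 2 ∧ f = p * F ^ a * G ^ b * H ^ d}

/-- Nullstellensatz, used in a local ring. -/
lemma exists_unit_of_no_zero {A : Type*} [CommRing A] [IsLocalRing A] (φ : P3 →+* A)
    (hφ : ∃ l, IsUnit (φ (X l))) (S : Set P3)
    (hS : ∀ p : Fin 3 → ℂ, p ≠ 0 → ∃ g ∈ S, eval p g ≠ 0) : ∃ g ∈ S, IsUnit (φ g) := by
  obtain ⟨l, hl⟩ := hφ
  have hrad : X l ∈ (Ideal.span S).radical := by
    rw [← vanishingIdeal_zeroLocus_eq_radical (K := ℂ) (Ideal.span S), mem_vanishingIdeal_iff]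
    intro x hx
    rw [mem_zeroLocus_iff] at hx
    by_contra hne
    have hx0 : x ≠ 0 := by
      rintro rfl
      simp at hne
    obtain ⟨g, hg, hg'⟩ := hS x hx0
    apply hg'
    have := hx g (Ideal.subset_span hg)
    rwa [MvPolynomial.aeval_eq_eval] at this
  obtain ⟨n, hn⟩ := hrad
  by_contra hcon
  push Not at hcon
  have h1 : Ideal.span S ≤ (IsLocalRing.maximalIdeal A).comap φ := by
    rw [Ideal.span_le]
    intro g hg
    exact (IsLocalRing.mem_maximalIdeal _).mpr (hcon g hg)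
  have h2 := h1 hn
  rw [Ideal.mem_comap, map_pow] at h2
  exact (IsLocalRing.mem_maximalIdeal _).mp h2 (hl.pow n)

section

variable {A : Type} [CommRing A] [IsDomain A] [IsDiscreteValuationRing A] [Algebra P3 A]

lemma exists_scaling (hinj : Function.Injective (algebraMap P3 A)) [Algebra ℂ A]
    [IsScalarTower ℂ P3 A] {ϖ : A} (hϖ : Irreducible ϖ) :
    ∃ (τ : ℕ) (φ : P3 →ₐ[ℂ] A), (∃ l, IsUnit (φ (X l))) ∧
      ∀ (m : ℕ) (f : P3), f.IsHomogeneous m → algebraMap P3 A f = ϖ ^ (τ * m) * φ f := by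
  have hx : ∀ i : Fin 3, algebraMap P3 A (X i) ≠ 0 := by
    intro i h
    exact X_ne_zero (R := ℂ) i (hinj (by rw [h, map_zero]))
  choose n hn using fun i => IsDiscreteValuationRing.associated_pow_irreducible (hx i) hϖ
  choose u hu using fun i => (hn i).symm
  obtain ⟨l, hl⟩ : ∃ l : Fin 3, ∀ i, n l ≤ n i := by
    obtain ⟨l, -, hl⟩ := Finset.exists_min_image Finset.univ n ⟨0, Finset.mem_univ _⟩
    exact ⟨l, fun i => hl i (Finset.mem_univ _)⟩
  refine ⟨n l, aeval (fun i => ϖ ^ (n i - n l) * u i), ⟨l, ?_⟩, ?_⟩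
  · rw [aeval_X, Nat.sub_self, pow_zero, one_mul]
    exact (u l).isUnit
  · intro m f hf
    have h1 : (aeval (fun i => algebraMap P3 A (X i)) : P3 →ₐ[ℂ] A) =
        IsScalarTower.toAlgHom ℂ P3 A := by
      apply MvPolynomial.algHom_ext
      intro i
      simp
    have h2 : algebraMap P3 A f = aeval (fun i => algebraMap P3 A (X i)) f := by
      rw [h1]; rfl
    have h3 : (fun i => algebraMap P3 A (X i)) =
        fun i => ϖ ^ (n l) * (ϖ ^ (n i - n l) * u i) := by
      funext i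
      rw [← mul_assoc, ← pow_add, Nat.add_sub_cancel' (hl i), ← hu i]
    rw [h2, h3, aeval_mul_homog hf, ← pow_mul]

/-- Order of a nonzero form with respect to a scaled point. -/
lemma exists_order (hinj : Function.Injective (algebraMap P3 A)) [Algebra ℂ A] {ϖ : A}
    (hϖ : Irreducible ϖ) {τ : ℕ} {φ : P3 →ₐ[ℂ] A}
    (hφ : ∀ (m : ℕ) (f : P3), f.IsHomogeneous m → algebraMap P3 A f = ϖ ^ (τ * m) * φ f)
    {f : P3} {m : ℕ} (hf : f.IsHomogeneous m) (hf0 : f ≠ 0) :
    ∃ (x : ℕ) (u : Aˣ), φ f = ϖ ^ x * u ∧ algebraMap P3 A f = ϖ ^ (τ * m + x) * u := by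
  have h1 : algebraMap P3 A f ≠ 0 := by
    intro h
    exact hf0 (hinj (by rw [h, map_zero]))
  have h2 : φ f ≠ 0 := by
    intro h
    rw [hφ m f hf, h, mul_zero] at h1
    exact h1 rfl
  obtain ⟨x, hx⟩ := IsDiscreteValuationRing.associated_pow_irreducible h2 hϖ
  obtain ⟨u, hu⟩ := hx.symm
  refine ⟨x, u, hu.symm, ?_⟩
  rw [hφ m f hf, ← hu, pow_add]
  ring

/-- First discrepancy inequality. -/
lemma discrepancy_one (hA : IsPrimeDivisor P3 A) [Algebra ℂ A] [IsScalarTower ℂ P3 A] {k : ℕ}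
    (hk : Module.length A (Ω[A⁄P3]) = k) {ϖ : A} (hϖ : Irreducible ϖ) {τ : ℕ} {φ : P3 →ₐ[ℂ] A}
    (hl : ∃ l, IsUnit (φ (X l)))
    (hφ : ∀ (m : ℕ) (f : P3), f.IsHomogeneous m → algebraMap P3 A f = ϖ ^ (τ * m) * φ f)
    {F : P3} (hF : F.IsHomogeneous 3) (hs : SmoothForm F) {x : ℕ} {u : Aˣ}
    (hx : φ F = ϖ ^ x * u) : 3 * τ + x ≤ k + 1 := by
  obtain ⟨g, ⟨i, rfl⟩, hg⟩ := exists_unit_of_no_zero (φ : P3 →+* A) hl
    (Set.range fun i : Fin 3 => pderiv i F) (by
      intro p hp
      obtain ⟨i, hi⟩ := hs p hp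
      exact ⟨_, ⟨i, rfl⟩, hi⟩)
  have hdF : (pderiv i F).IsHomogeneous 2 := hF.pderiv
  have h1 := hA.log_ineq hk hϖ (fun j => if j = i then F else X j)
    (fun j => if j = i then 3 * τ + x else τ) (by
      intro j
      by_cases hj : j = i
      · simp only [hj, if_true]
        rw [hφ 3 F hF, hx]
        exact ⟨u, by rw [pow_add, mul_comm 3 τ]; ring⟩
      · simp only [hj, if_false]
        rw [hφ 1 (X j) (isHomogeneous_X _ _), mul_one]
        exact ⟨_, rfl⟩) (s := 2 * τ) (u := φ (pderiv i F)) hg (by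
      rw [mul_comm 2 τ, ← hφ 2 _ hdF]
      congr 1
      rw [Matrix.det_fin_three]
      fin_cases i <;> simp [Matrix.of_apply, pderiv_X])
  fin_cases i <;> simp at h1 <;> omega

/-- Second discrepancy inequality. -/
lemma discrepancy_two (hA : IsPrimeDivisor P3 A) [Algebra ℂ A] [IsScalarTower ℂ P3 A] {k : ℕ}
    (hk : Module.length A (Ω[A⁄P3]) = k) {ϖ : A} (hϖ : Irreducible ϖ) {τ : ℕ} {φ : P3 →ₐ[ℂ] A}
    (hl : ∃ l, IsUnit (φ (X l)))
    (hφ : ∀ (m : ℕ) (f : P3), f.IsHomogeneous m → algebraMap P3 A f = ϖ ^ (τ * m) * φ f)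
    {F G : P3} (hF : F.IsHomogeneous 3) (hG : G.IsHomogeneous 4)
    (htr : ∀ p : Fin 3 → ℂ, p ≠ 0 → eval p F = 0 → eval p G = 0 → Transversal F G p) {x y : ℕ}
    {u w : Aˣ} (hx : φ F = ϖ ^ x * u) (hy : φ G = ϖ ^ y * w) (hx0 : 0 < x) (hy0 : 0 < y) :
    3 * τ + x + y ≤ k + 1 := by
  set J : Fin 3 → P3 := fun l =>
    Matrix.det (Matrix.of fun i j => pderiv j ((![F, G, X l] : Fin 3 → P3) i)) with hJ
  have hJh : ∀ l, (J l).IsHomogeneous 5 := by
    intro l
    have h1 : ∀ i, (pderiv i F).IsHomogeneous 2 := fun i => hF.pderiv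
    have h2 : ∀ i, (pderiv i G).IsHomogeneous 3 := fun i => hG.pderiv
    simp only [hJ, Matrix.det_fin_three, Matrix.of_apply, Matrix.cons_val_zero,
      Matrix.cons_val_one, Matrix.cons_val, pderiv_X]
    have h3 : ∀ (i j l m : Fin 3), (pderiv i F * pderiv j G *
        (Pi.single l (1 : P3) : Fin 3 → P3) m).IsHomogeneous 5 := by
      intro i j l m
      by_cases hlm : m = l
      · subst hlm
        rw [Pi.single_eq_same, mul_one]
        exact (h1 i).mul (h2 j)
      · rw [Pi.single_eq_of_ne hlm, mul_zero]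
        exact isHomogeneous_zero _ _ _
    exact (((((h3 _ _ _ _).sub (h3 _ _ _ _)).sub (h3 _ _ _ _)).add (h3 _ _ _ _)).add
      (h3 _ _ _ _)).sub (h3 _ _ _ _)
  obtain ⟨g, hg, hgu⟩ := exists_unit_of_no_zero (φ : P3 →+* A) hl ({F, G} ∪ Set.range J) (by
    intro p hp
    by_contra hcon
    push Not at hcon
    have h1 := hcon F (by simp)
    have h2 := hcon G (by simp)
    have h3 : ∀ l, eval p (J l) = 0 := fun l => hcon (J l) (Or.inr ⟨l, rfl⟩)
    have htr' := htr p hp h1 h2
    have h0 := h3 0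
    have h1' := h3 1
    have h2' := h3 2
    simp only [hJ, Matrix.det_fin_three, Matrix.of_apply, Matrix.cons_val_zero,
      Matrix.cons_val_one, Matrix.cons_val, pderiv_X] at h0 h1' h2'
    simp at h0 h1' h2'
    have hrel : ∀ j : Fin 3, grad G p j • grad F p + (-(grad F p j)) • grad G p = 0 := by
      intro j
      funext i
      simp only [Pi.add_apply, Pi.smul_apply, smul_eq_mul, Pi.zero_apply, grad]
      fin_cases i <;> fin_cases j <;> simp <;>
        first
          | (ring; done)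
          | (linear_combination h0)
          | (linear_combination h1')
          | (linear_combination h2')
          | (linear_combination (-1 : ℂ) * h0)
          | (linear_combination (-1 : ℂ) * h1')
          | (linear_combination (-1 : ℂ) * h2')
    have hF0 : grad F p = 0 := by
      funext j
      have := (htr' _ _ (hrel j)).2
      simpa using this
    have := htr' 1 0 (by rw [hF0]; simp)
    exact one_ne_zero this.1)
  rcases hg with hg | ⟨l, rfl⟩
  · exfalso
    rcases hg with rfl | hg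
    · have : IsUnit (ϖ ^ x * (u : A)) := by rw [← hx]; exact hgu
      rw [Units.isUnit_mul_units, isUnit_pow_iff hx0.ne'] at this
      exact hϖ.not_isUnit this
    · rw [Set.mem_singleton_iff] at hg
      subst hg
      have : IsUnit (ϖ ^ y * (w : A)) := by rw [← hy]; exact hgu
      rw [Units.isUnit_mul_units, isUnit_pow_iff hy0.ne'] at this
      exact hϖ.not_isUnit this
  · have h1 := hA.log_ineq hk hϖ ![F, G, X l] ![3 * τ + x, 4 * τ + y, τ] (by
      intro j
      fin_cases j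
      · simp only [Fin.zero_eta, Matrix.cons_val_zero]
        rw [hφ 3 F hF, hx]
        exact ⟨u, by rw [pow_add, mul_comm 3 τ]; ring⟩
      · simp only [Fin.mk_one, Matrix.cons_val_one, Matrix.cons_val_zero]
        rw [hφ 4 G hG, hy]
        exact ⟨w, by rw [pow_add, mul_comm 4 τ]; ring⟩
      · simp only [Fin.reduceFinMk, Matrix.cons_val]
        rw [hφ 1 (X l) (isHomogeneous_X _ _), mul_one]
        exact ⟨_, rfl⟩) (s := τ * 5) (u := φ (J l)) hgu (hφ 5 _ (hJh l))
    simp at h1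
    omega

end

section Config

variable {F G H : P3} {z : Fin 11 → Fin 3 → ℂ} {q : Fin 3 → ℂ}

lemma Config.F_ne (C : Config F G H z q) : F ≠ 0 := C.irr.ne_zero

lemma Config.G_ne (C : Config F G H z q) : G ≠ 0 := by
  intro h
  exact C.ndvd (by rw [h]; exact dvd_zero _)

lemma Config.H_ne (C : Config F G H z q) : H ≠ 0 := by
  intro h
  exact C.qH (by rw [h, map_zero])

lemma Config.isRelPrime (C : Config F G H z q) : IsRelPrime F G :=
  C.irr.isRelPrime_iff_not_dvd.mpr C.ndvd

/-- forms vanishing at the twelve points -/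
lemma Config.mem_span (C : Config F G H z q) {f : P3} {m : ℕ} (hf : f.IsHomogeneous m)
    (hfz : ∀ i, eval (z i) f = 0) (hfq : eval q f = 0) : f ∈ Ideal.span {F, G} := by
  refine noether C.hF C.hG C.isRelPrime C.F_ne C.G_ne C.trans ?_
  intro p hp h1 h2 t
  rcases C.zeros p hp h1 h2 with ⟨i, hi⟩ | hi
  · obtain ⟨c, hc⟩ := hi.exists_smul (C.z_ne i)
    rw [hc, smul_smul]
    exact eval_line_of_homog hf (hfz i) _
  · obtain ⟨c, hc⟩ := hi.exists_smul C.q_ne
    rw [hc, smul_smul]
    exact eval_line_of_homog hf hfq _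

lemma Config.exists_sep (C : Config F G H z q) :
    ∃ T : P3, T.IsHomogeneous 11 ∧ eval q T = 0 ∧ ∀ i, eval (z i) T = 1 := by
  set p12 : Fin 12 → Fin 3 → ℂ := Fin.lastCases q z with hp12
  have hpc : ∀ i : Fin 11, p12 i.castSucc = z i := fun i => by
    simp only [hp12, Fin.lastCases_castSucc]
  have hpl : p12 (Fin.last 11) = q := by simp only [hp12, Fin.lastCases_last]
  have h12ne : ∀ i, p12 i ≠ 0 := by
    intro i
    refine Fin.lastCases ?_ (fun i => ?_) i
    · rw [hpl]; exact C.q_ne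
    · rw [hpc]; exact C.z_ne i
  have h12par : ∀ i j, i ≠ j → ¬ Par (p12 i) (p12 j) := by
    intro i j
    refine Fin.lastCases ?_ (fun i => ?_) i
    · refine Fin.lastCases ?_ (fun j => ?_) j
      · intro h; exact absurd rfl h
      · intro _ h
        rw [hpl, hpc] at h
        exact C.zq_par j h.symm
    · refine Fin.lastCases ?_ (fun j => ?_) j
      · intro _ h
        rw [hpl, hpc] at h
        exact C.zq_par i h
      · intro h
        rw [hpc, hpc]
        exact C.z_par i j (fun h' => h (by rw [h']))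
  obtain ⟨T, hT1, hT2⟩ := exists_interp h12ne h12par (d := 11) (by norm_num)
    (Fin.lastCases 0 (fun _ => 1))
  refine ⟨T, hT1, ?_, fun i => ?_⟩
  · have := hT2 (Fin.last 11)
    rwa [hpl, Fin.lastCases_last] at this
  · have := hT2 i.castSucc
    rwa [hpc, Fin.lastCases_castSucc] at this

variable {A : Type} [CommRing A] [IsDomain A] [IsDiscreteValuationRing A]

/-- Relation between the orders of the three generators. -/
lemma Config.order_H (C : Config F G H z q) [Algebra ℂ A] {ϖ : A} (hϖ : Irreducible ϖ)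
    {φ : P3 →ₐ[ℂ] A} (hl : ∃ l, IsUnit (φ (X l))) {x y h : ℕ} {u w t : Aˣ}
    (hx : φ F = ϖ ^ x * u) (hy : φ G = ϖ ^ y * w) (hh : φ H = ϖ ^ h * t)
    (hx0 : 0 < x) (hy0 : 0 < y) : h = 0 ∨ min x y ≤ h := by
  obtain ⟨T, hT, hTq, hTz⟩ := C.exists_sep
  have hTH : T * H ∈ Ideal.span {F, G} := by
    refine C.mem_span (hT.mul C.hH) ?_ ?_
    · intro i
      rw [map_mul, C.zH, mul_zero]
    · rw [map_mul, hTq, zero_mul]
  obtain ⟨g, hg, hgu⟩ := exists_unit_of_no_zero (φ : P3 →+* A) hl {F, G, H, T} (by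
    intro p hp
    by_contra hcon
    push Not at hcon
    have h1 := hcon F (by simp)
    have h2 := hcon G (by simp)
    have h3 := hcon H (by simp)
    have h4 := hcon T (by simp)
    rcases C.zeros p hp h1 h2 with ⟨i, hi⟩ | hi
    · obtain ⟨c, hc⟩ := hi.exists_smul (C.z_ne i)
      have hc0 : c ≠ 0 := by rintro rfl; exact hp (by rw [hc, zero_smul])
      rw [hc, eval_smul_homog hT, hTz, mul_one] at h4
      exact pow_ne_zero _ hc0 h4
    · obtain ⟨c, hc⟩ := hi.exists_smul C.q_ne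
      have hc0 : c ≠ 0 := by rintro rfl; exact hp (by rw [hc, zero_smul])
      rw [hc, eval_smul_homog C.hH] at h3
      exact mul_ne_zero (pow_ne_zero _ hc0) C.qH h3)
  have hnu : ∀ (n : ℕ) (v : Aˣ), 0 < n → ¬ IsUnit (ϖ ^ n * (v : A)) := by
    intro n v hn h
    rw [Units.isUnit_mul_units, isUnit_pow_iff hn.ne'] at h
    exact hϖ.not_isUnit h
  have hgu' : IsUnit (φ g) := hgu
  rcases hg with rfl | rfl | rfl | hg
  · rw [hx] at hgu'
    exact absurd hgu' (hnu _ _ hx0)
  · rw [hy] at hgu'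
    exact absurd hgu' (hnu _ _ hy0)
  · left
    rw [hh] at hgu'
    by_contra h0
    exact hnu _ _ (Nat.pos_of_ne_zero h0) hgu'
  · right
    rw [Set.mem_singleton_iff] at hg
    subst hg
    rw [Ideal.mem_span_pair] at hTH
    obtain ⟨α, β, hαβ⟩ := hTH
    have h1 := congrArg φ hαβ
    rw [map_add, map_mul, map_mul, map_mul, hx, hy, hh] at h1
    have h2 : ϖ ^ min x y ∣ φ g * (ϖ ^ h * t) := by
      rw [← h1]
      refine dvd_add (Dvd.dvd.mul_left ?_ _) (Dvd.dvd.mul_left ?_ _)
      · exact Dvd.dvd.mul_right (pow_dvd_pow _ (min_le_left _ _)) _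
      · exact Dvd.dvd.mul_right (pow_dvd_pow _ (min_le_right _ _)) _
    have h3 := (hgu'.dvd_mul_left).mp h2
    have h4 : ϖ ^ min x y ∣ ϖ ^ h := (t.isUnit.dvd_mul_right).mp h3
    rwa [pow_dvd_pow_iff hϖ.ne_zero hϖ.not_isUnit] at h4

/-- **Lower bound for the multiplier ideals** -/
theorem Config.le_multiplierIdeal (C : Config F G H z q) {c : ℝ} (hc : 0 < c) :
    expIdeal F G H c ≤ multiplierIdeal (Ideal.span {F, G, H}) c := by
  rw [expIdeal, Ideal.span_le]
  rintro f ⟨e, a, b, d, p, hp, hB, hC, hD, rfl⟩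
  rw [SetLike.mem_coe, mem_multiplierIdeal]
  intro A _ _ _ _ hA n k hn hk
  let _ : Algebra ℂ A := ((algebraMap P3 A).comp (algebraMap ℂ P3)).toAlgebra
  have : IsScalarTower ℂ P3 A := IsScalarTower.of_algebraMap_eq fun _ => rfl
  obtain ⟨ϖ, hϖ⟩ := IsDiscreteValuationRing.exists_irreducible A
  obtain ⟨τ, φ, hl, hφ⟩ := exists_scaling hA.injective hϖ
  obtain ⟨x, u, hx, hx'⟩ := exists_order hA.injective hϖ hφ C.hF C.F_ne
  obtain ⟨y, w, hy, hy'⟩ := exists_order hA.injective hϖ hφ C.hG C.G_ne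
  obtain ⟨h, t, hh, hh'⟩ := exists_order hA.injective hϖ hφ C.hH C.H_ne
  have hk1 := discrepancy_one hA hk hϖ hl hφ C.hF C.smooth hx
  have hk2 : 0 < x → 0 < y → 3 * τ + x + y ≤ k + 1 :=
    fun h1 h2 => discrepancy_two hA hk hϖ hl hφ C.hF C.hG C.trans hx hy h1 h2
  have hh2 : 0 < x → 0 < y → h = 0 ∨ min x y ≤ h :=
    fun h1 h2 => C.order_H hϖ hl hx hy hh h1 h2
  have hmem : ∀ (g : P3) (v : Aˣ) (j : ℕ), g ∈ Ideal.span {F, G, H} →
      algebraMap P3 A g = ϖ ^ j * v → n ≤ j := by
    intro g v j hg hgj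
    have h1 : algebraMap P3 A g ∈ IsLocalRing.maximalIdeal A ^ n := by
      rw [← hn]; exact Ideal.mem_map_of_mem _ hg
    rw [hgj, hϖ.maximalIdeal_eq, Ideal.span_singleton_pow, Ideal.mem_span_singleton] at h1
    have h4 : ϖ ^ n ∣ ϖ ^ j := (v.isUnit.dvd_mul_right).mp h1
    rwa [pow_dvd_pow_iff hϖ.ne_zero hϖ.not_isUnit] at h4
  have hn1 : n ≤ 3 * τ + x := by
    have := hmem F u _ (Ideal.subset_span (by simp)) hx'
    omega
  have hn2 : n ≤ 4 * τ + y := by
    have := hmem G w _ (Ideal.subset_span (by simp)) hy'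
    omega
  have hn3 : n ≤ 5 * τ + h := by
    have := hmem H t _ (Ideal.subset_span (by simp)) hh'
    omega
  have hnum := numeric hc hk1 hk2 hh2 hn1 hn2 hn3 hB hC hD
  set V : ℕ := e * τ + a * (3 * τ + x) + b * (4 * τ + y) + d * (5 * τ + h) with hV
  have hle : ⌊c * n⌋₊ - k ≤ V := by
    have h1 : (c * n : ℝ) < ((V + k + 1 : ℕ) : ℝ) := by
      rw [hV]; push_cast; linarith
    have h2 : ⌊c * n⌋₊ < V + k + 1 := (Nat.floor_lt (by positivity)).mpr h1
    omega
  rw [hϖ.maximalIdeal_eq, Ideal.span_singleton_pow, Ideal.mem_span_singleton]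
  refine dvd_trans (pow_dvd_pow _ hle) ?_
  rw [map_mul, map_mul, map_mul, map_pow, map_pow, map_pow, hx', hy', hh', hφ e p hp]
  refine ⟨φ p * (u : A) ^ a * (w : A) ^ b * (t : A) ^ d, ?_⟩
  rw [hV]
  simp only [mul_pow, ← pow_mul]
  ring

end Config

end Pool.Agent.MPafef76

end

section

/-!
# Homogeneous components
-/

set_option autoImplicit false

namespace Pool.Agent.MPafef76

open MvPolynomial

/-- Torus-invariant valuations: divisibility passes to homogeneous components. -/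
lemma dvd_component {T : Type*} [CommRing T] [Algebra ℂ T] (φ : P3 →ₐ[ℂ] T) (ϖ : T)
    (ρ : ℂ → T →ₐ[ℂ] T) (hϖ : ∀ l : ℂ, l ≠ 0 → ϖ ∣ ρ l ϖ)
    (hρ : ∀ l : ℂ, l ≠ 0 → ∀ i, ρ l (φ (X i)) = algebraMap ℂ T l * φ (X i)) {f : P3} {j : ℕ}
    (hf : ϖ ^ j ∣ φ f) (m : ℕ) : ϖ ^ j ∣ φ (homogeneousComponent m f) := by
  set I : Ideal T := Ideal.span {ϖ ^ j} with hI
  set v : ℕ → T ⧸ I := fun i => Ideal.Quotient.mk I (φ (homogeneousComponent i f)) with hv
  have hscale : ∀ l : ℂ, l ≠ 0 → ∀ (n : ℕ) (g : P3), g.IsHomogeneous n →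
      ρ l (φ g) = algebraMap ℂ T l ^ n * φ g := by
    intro l hl n g hg
    have h1 : (ρ l).comp φ = aeval (fun i => algebraMap ℂ T l * φ (X i)) := by
      apply MvPolynomial.algHom_ext
      intro i
      rw [AlgHom.comp_apply, aeval_X, hρ l hl]
    have h2 : φ = aeval (fun i => φ (X i)) := by
      apply MvPolynomial.algHom_ext
      intro i
      rw [aeval_X]
    have h3 : ρ l (φ g) = aeval (fun i => algebraMap ℂ T l * φ (X i)) g := by
      rw [← h1]; rfl
    rw [h3, aeval_mul_homog hg, ← h2]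
  have hsum : ∀ l : ℂ, l ≠ 0 → ∑ i ∈ Finset.range (f.totalDegree + 1), l ^ i • v i = 0 := by
    intro l hl
    have h1 : ϖ ^ j ∣ ρ l (φ f) := by
      refine dvd_trans ?_ (map_dvd (ρ l) hf)
      rw [map_pow]
      exact pow_dvd_pow_of_dvd (hϖ l hl) j
    have h2 : Ideal.Quotient.mk I (ρ l (φ f)) = 0 := by
      rw [Ideal.Quotient.eq_zero_iff_mem, Ideal.mem_span_singleton]
      exact h1
    rw [← h2]
    conv_rhs => rw [← sum_homogeneousComponent f, map_sum, map_sum, map_sum]
    refine Finset.sum_congr rfl fun i _ => ?_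
    rw [hscale l hl i _ (homogeneousComponent_isHomogeneous i f), hv, map_mul, ← map_pow,
      Algebra.smul_def]
    rfl
  have hv0 : ∀ i ∈ Finset.range (f.totalDegree + 1), v i = 0 := by
    intro i hi
    rw [← Module.forall_dual_apply_eq_zero_iff ℂ]
    intro g
    set r : Polynomial ℂ := ∑ i ∈ Finset.range (f.totalDegree + 1),
      Polynomial.C (g (v i)) * Polynomial.X ^ i with hr
    have hr0 : r = 0 := by
      apply Polynomial.eq_zero_of_infinite_isRoot
      refine Set.Infinite.mono (s := {l : ℂ | l ≠ 0}) ?_ (Set.infinite_of_finite_compl (by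
        have : ({l : ℂ | l ≠ 0} : Set ℂ)ᶜ = {0} := by ext; simp
        rw [this]; exact Set.finite_singleton _))
      intro l hl
      rw [Set.mem_ofPred_eq, Polynomial.IsRoot.def, hr, Polynomial.eval_finsetSum]
      have := congrArg g (hsum l hl)
      rw [map_sum, map_zero] at this
      rw [← this]
      refine Finset.sum_congr rfl fun i _ => ?_
      rw [map_smul, smul_eq_mul]
      simp
      ring
    have := congrArg (fun q => Polynomial.coeff q i) hr0
    simp only [hr, Polynomial.finsetSum_coeff, Polynomial.coeff_C_mul, Polynomial.coeff_X_pow,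
      Polynomial.coeff_zero, mul_ite, mul_one, mul_zero] at this
    rw [Finset.sum_ite_eq, if_pos hi] at this
    exact this
  by_cases hm : m < f.totalDegree + 1
  · have := hv0 m (Finset.mem_range.mpr hm)
    rwa [hv, Ideal.Quotient.eq_zero_iff_mem, Ideal.mem_span_singleton] at this
  · rw [homogeneousComponent_eq_zero m f (by omega), map_zero]
    exact dvd_zero _

/-- Components of polynomials for a toric valuation. -/
lemma torMap_component (p r : ℕ) (B : Matrix (Fin 3) (Fin 3) ℂ) {f : P3} {j : ℕ}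
    (hf : Polynomial.X ^ j ∣ torMap p r B f) (m : ℕ) :
    Polynomial.X ^ j ∣ torMap p r B (homogeneousComponent m f) := by
  refine dvd_component (torMap p r B) Polynomial.X
    (fun l => evT (Polynomial.C (C l) * Polynomial.X)
      (Polynomial.C (C (l * (l⁻¹) ^ p)) * Polynomial.C (X 0))
      (Polynomial.C (C (l * (l⁻¹) ^ r)) * Polynomial.C (X 1))) ?_ ?_ hf m
  · intro l _
    rw [evT_X]
    exact Dvd.intro_left _ rfl
  · intro l hl i
    rw [torMap_X, map_sum, Finset.mul_sum]
    refine Finset.sum_congr rfl fun k _ => ?_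
    have hC : algebraMap ℂ T2 l = Polynomial.C (C l) := rfl
    have h1 : ∀ a : ℂ, aeval (![Polynomial.C (C (l * (l⁻¹) ^ p)) * Polynomial.C (X 0),
      Polynomial.C (C (l * (l⁻¹) ^ r)) * Polynomial.C (X 1)] : Fin 2 → T2)
        (C a : MvPolynomial (Fin 2) ℂ) = Polynomial.C (C a) := by
      intro a
      rw [aeval_C]; rfl
    have hpow : ∀ s : ℕ, (Polynomial.C (C (l⁻¹)) : T2) ^ s * (Polynomial.C (C l)) ^ s = 1 := by
      intro s
      rw [← mul_pow, ← Polynomial.C_mul, ← C_mul, inv_mul_cancel₀ hl, C_1, Polynomial.C_1, one_pow]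
    rw [map_mul, evT_C, h1, hC]
    fin_cases k
    · simp only [tm, Fin.zero_eta, Matrix.cons_val_zero, evT_X]
      ring
    · simp only [tm, Fin.mk_one, Matrix.cons_val_one, Matrix.cons_val_zero, map_mul, map_pow,
        evT_X, evT_C, aeval_X]
      rw [mul_pow]
      linear_combination (Polynomial.C (C (B 1 i)) * Polynomial.C (C l) * Polynomial.C (X 0) *
        Polynomial.X ^ p) * hpow p
    · simp only [tm, Fin.reduceFinMk, Matrix.cons_val, map_mul, map_pow, Matrix.cons_val_one,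
        evT_X, evT_C, aeval_X]
      rw [mul_pow]
      linear_combination (Polynomial.C (C (B 2 i)) * Polynomial.C (C l) * Polynomial.C (X 1) *
        Polynomial.X ^ r) * hpow r

/-- Components of polynomials for the valuation attached to the cubic. -/
lemma curMap_component (F : P3) {f : P3} {j : ℕ}
    (hf : (Polynomial.C (dh F) : T2) ^ j ∣ curMap F f) (m : ℕ) :
    (Polynomial.C (dh F) : T2) ^ j ∣ curMap F (homogeneousComponent m f) := by
  have hfix : ∀ (l : ℂ) (g : P2), evT (S := T2) (Polynomial.C (C l) * Polynomial.X)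
      (Polynomial.C (X 0)) (Polynomial.C (X 1)) (Polynomial.C g) = (Polynomial.C g : T2) := by
    intro l g
    rw [evT_C]
    have : (aeval (![Polynomial.C (X 0), Polynomial.C (X 1)] : Fin 2 → T2) : P2 →ₐ[ℂ] T2) =
        Polynomial.CAlgHom := by
      apply MvPolynomial.algHom_ext
      intro i
      rw [aeval_X]
      fin_cases i <;> rfl
    rw [this]
    rfl
  refine dvd_component (curMap F) (Polynomial.C (dh F))
    (fun l => evT (Polynomial.C (C l) * Polynomial.X) (Polynomial.C (X 0)) (Polynomial.C (X 1)))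
    ?_ ?_ hf m
  · intro l _
    rw [hfix]
  · intro l hl i
    have hC : algebraMap ℂ T2 l = Polynomial.C (C l) := rfl
    rw [curMap, aeval_X, map_mul, map_mul, hfix, evT_X, hC]
    fin_cases i
    · simp only [Fin.zero_eta, Matrix.cons_val_zero, map_one]
      ring
    · simp only [Fin.mk_one, Matrix.cons_val_one, Matrix.cons_val_zero, hfix]
      ring
    · simp only [Fin.reduceFinMk, Matrix.cons_val, hfix]
      ring

end Pool.Agent.MPafef76

end

section

/-!
# Formal branches of a smooth plane cubic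
-/

set_option autoImplicit false

namespace Pool.Agent.MPafef76

open MvPolynomial

/-- Restriction of a form to a line, over an algebra: top coefficient. -/
lemma coeff_line' {R : Type*} [CommRing R] [Algebra ℂ R] {f : P3} {n : ℕ} (hf : f.IsHomogeneous n)
    (u v : Fin 3 → R) :
    (aeval (fun i => Polynomial.C (u i) + Polynomial.C (v i) * Polynomial.X) f :
      Polynomial R).coeff n = aeval v f := by
  rw [aeval_def, eval₂_eq', Polynomial.finsetSum_coeff, aeval_def, eval₂_eq']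
  refine Finset.sum_congr rfl fun d hd => ?_
  have hdeg : d 0 + d 1 + d 2 = n := by
    have := hf.degree_eq_sum_deg_support hd
    rw [this, ← Fin.sum_univ_three]
    exact (Finset.sum_subset (Finset.subset_univ _) (by simp)).symm
  have hl : ∀ i, (Polynomial.C (u i) + Polynomial.C (v i) * Polynomial.X : Polynomial R).natDegree
      ≤ 1 := by
    intro i
    compute_degree
  have hpow : ∀ i, ((Polynomial.C (u i) + Polynomial.C (v i) * Polynomial.X : Polynomial R)
      ^ d i).natDegree ≤ d i := by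
    intro i
    have := Polynomial.natDegree_pow_le_of_le (d i) (hl i)
    simpa using this
  have hcoef : ∀ i, ((Polynomial.C (u i) + Polynomial.C (v i) * Polynomial.X : Polynomial R)
      ^ d i).coeff (d i) = v i ^ d i := by
    intro i
    have := Polynomial.coeff_pow_of_natDegree_le (m := d i) (hl i)
    rw [mul_one] at this
    rw [this]
    simp
  rw [IsScalarTower.algebraMap_apply ℂ R (Polynomial R), Polynomial.algebraMap_apply,
    Algebra.algebraMap_self, RingHom.id_apply, Polynomial.coeff_C_mul, Fin.prod_univ_three,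
    Fin.prod_univ_three, ← hdeg, Polynomial.coeff_mul_add_eq_of_natDegree_le _ (hpow 2),
    Polynomial.coeff_mul_add_eq_of_natDegree_le (hpow 0) (hpow 1), hcoef, hcoef, hcoef]
  exact Polynomial.natDegree_mul_le_of_le (hpow 0) (hpow 1)

lemma natDegree_line {R : Type*} [CommRing R] [Algebra ℂ R] {f : P3} {n : ℕ}
    (hf : f.IsHomogeneous n) (u v : Fin 3 → R) :
    (aeval (fun i => Polynomial.C (u i) + Polynomial.C (v i) * Polynomial.X) f :
      Polynomial R).natDegree ≤ n := by
  rw [aeval_def, eval₂_eq']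
  apply Polynomial.natDegree_sum_le_of_forall_le
  intro d hd
  have hdeg : d 0 + d 1 + d 2 = n := by
    have := hf.degree_eq_sum_deg_support hd
    rw [this, ← Fin.sum_univ_three]
    exact (Finset.sum_subset (Finset.subset_univ _) (by simp)).symm
  have hl : ∀ i, (Polynomial.C (u i) + Polynomial.C (v i) * Polynomial.X : Polynomial R).natDegree
      ≤ 1 := by
    intro i
    compute_degree
  have hpow : ∀ i, ((Polynomial.C (u i) + Polynomial.C (v i) * Polynomial.X : Polynomial R)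
      ^ d i).natDegree ≤ d i := by
    intro i
    have := Polynomial.natDegree_pow_le_of_le (d i) (hl i)
    simpa using this
  rw [IsScalarTower.algebraMap_apply ℂ R (Polynomial R), Polynomial.algebraMap_apply,
    Algebra.algebraMap_self, RingHom.id_apply]
  refine (Polynomial.natDegree_C_mul_le _ _).trans ?_
  rw [Fin.prod_univ_three, ← hdeg]
  exact Polynomial.natDegree_mul_le_of_le
    (Polynomial.natDegree_mul_le_of_le (hpow 0) (hpow 1)) (hpow 2)

/-- The point of a branch. -/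
noncomputable def brPt (p p1 p2 : Fin 3 → ℂ) (α : PowerSeries ℂ) : Fin 3 → PowerSeries ℂ :=
  fun i => PowerSeries.C (p i) + PowerSeries.X * (PowerSeries.C (p2 i) +
    PowerSeries.X * (α * PowerSeries.C (p1 i)))

/-- Evaluation along a branch. -/
noncomputable def brMap (p p1 p2 : Fin 3 → ℂ) (α : PowerSeries ℂ) : P3 →ₐ[ℂ] PowerSeries ℂ :=
  aeval (brPt p p1 p2 α)

/-- A formal branch of `F = 0` at `p`. -/
structure IsBranch (F : P3) (p p1 p2 : Fin 3 → ℂ) (α : PowerSeries ℂ) : Prop where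
  hp : eval p F = 0
  tan : ∑ i, grad F p i * p2 i = 0
  nor : ∑ i, grad F p i * p1 i ≠ 0
  det : IsUnit (Matrix.of ![p, p1, p2]).det
  root : brMap p p1 p2 α F = 0

lemma aeval_C_powerSeries (p : Fin 3 → ℂ) (f : P3) :
    aeval (fun i => (PowerSeries.C (p i) : PowerSeries ℂ)) f = PowerSeries.C (eval p f) := by
  have : (aeval (fun i => (PowerSeries.C (p i) : PowerSeries ℂ)) : P3 →ₐ[ℂ] PowerSeries ℂ) =
      (Algebra.ofId ℂ (PowerSeries ℂ)).comp (aeval p) := by
    apply MvPolynomial.algHom_ext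
    intro i
    rw [aeval_X, AlgHom.comp_apply, aeval_X]
    rfl
  rw [this, AlgHom.comp_apply, MvPolynomial.aeval_eq_eval]
  rfl

lemma exists_tangent {F : P3} {p : Fin 3 → ℂ} (hp : p ≠ 0) :
    ∃ v : Fin 3 → ℂ, (∑ i, grad F p i * v i = 0) ∧ ¬ Par p v := by
  set L : P3 := ∑ i, C (grad F p i) * X i with hL
  have hLh : L.IsHomogeneous 1 := IsHomogeneous.sum _ _ _ fun i _ => isHomogeneous_C_mul_X _ _
  have hLe : ∀ v : Fin 3 → ℂ, eval v L = ∑ i, grad F p i * v i := by
    intro v
    rw [hL, map_sum]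
    refine Finset.sum_congr rfl fun i _ => ?_
    rw [map_mul, eval_C, eval_X]
  obtain ⟨u, v, hind, hz⟩ := exists_plane hLh
  by_cases hu : Par p u
  · refine ⟨v, ?_, ?_⟩
    · have := hz 0 1
      rw [← hLe]; simpa using this
    · intro hv
      obtain ⟨c, hc⟩ := hu.exists_smul hp
      obtain ⟨e, he⟩ := hv.exists_smul hp
      have h1 := hind e (-c) (by
        rw [hc, he, smul_smul, smul_smul]; rw [neg_mul, mul_comm c e]; simp)
      have hc0 : c = 0 := by simpa using h1.2
      have h2 := hind 1 0 (by rw [hc, hc0]; simp)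
      exact one_ne_zero h2.1
  · refine ⟨u, ?_, hu⟩
    have := hz 1 0
    rw [← hLe]; simpa using this

lemma exists_normal {F : P3} (hF0 : F ≠ 0) {p : Fin 3 → ℂ} (hg : grad F p ≠ 0) :
    ∃ v : Fin 3 → ℂ, (∑ i, grad F p i * v i ≠ 0) ∧ eval v F ≠ 0 := by
  set L : P3 := ∑ i, C (grad F p i) * X i with hL
  have hLe : ∀ v : Fin 3 → ℂ, eval v L = ∑ i, grad F p i * v i := by
    intro v
    rw [hL, map_sum]
    refine Finset.sum_congr rfl fun i _ => ?_
    rw [map_mul, eval_C, eval_X]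
  obtain ⟨j, hj⟩ : ∃ j, grad F p j ≠ 0 := by
    by_contra h
    push Not at h
    exact hg (funext h)
  have hL0 : L ≠ 0 := by
    intro h
    have := hLe (Pi.single j 1)
    rw [h, map_zero] at this
    simp [Pi.single_apply] at this
    exact hj this.symm
  by_contra hcon
  push Not at hcon
  have : L * F = 0 := by
    apply MvPolynomial.funext
    intro v
    rw [map_mul, map_zero, hLe]
    by_cases h : ∑ i, grad F p i * v i = 0
    · rw [h, zero_mul]
    · rw [hcon v h, mul_zero]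
  exact mul_ne_zero hL0 hF0 this

lemma frame_det {g p p1 p2 : Fin 3 → ℂ} (hp : p ≠ 0) (h0 : ∑ i, g i * p i = 0)
    (h1 : ∑ i, g i * p1 i ≠ 0) (h2 : ∑ i, g i * p2 i = 0) (hpar : ¬ Par p p2) :
    (Matrix.of ![p, p1, p2]).det ≠ 0 := by
  intro hdet
  obtain ⟨w, hw0, hw⟩ := Matrix.exists_vecMul_eq_zero_iff.mpr hdet
  have hrel : ∀ i, w 0 * p i + w 1 * p1 i + w 2 * p2 i = 0 := by
    intro i
    have := congrFun hw i
    simp only [Matrix.vecMul, dotProduct, Fin.sum_univ_three, Matrix.of_apply,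
      Matrix.cons_val_zero, Matrix.cons_val_one, Matrix.cons_val, Pi.zero_apply] at this
    exact this
  have hw1 : w 1 = 0 := by
    have h3 : w 0 * (∑ i, g i * p i) + w 1 * (∑ i, g i * p1 i) + w 2 * (∑ i, g i * p2 i) = 0 := by
      simp only [Fin.sum_univ_three]
      linear_combination g 0 * hrel 0 + g 1 * hrel 1 + g 2 * hrel 2
    rw [h0, h2, mul_zero, mul_zero, add_zero, zero_add] at h3
    exact (mul_eq_zero.mp h3).resolve_right h1
  by_cases hw2 : w 2 = 0
  · obtain ⟨j, hj⟩ : ∃ j, p j ≠ 0 := by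
      by_contra h
      push Not at h
      exact hp (funext h)
    have hw00 : w 0 = 0 := by
      have := hrel j
      rw [hw1, hw2, zero_mul, zero_mul, add_zero, add_zero] at this
      exact (mul_eq_zero.mp this).resolve_right hj
    apply hw0
    funext i
    fin_cases i
    · exact hw00
    · exact hw1
    · exact hw2
  · apply hpar
    intro i j
    have h3 := hrel i
    have h4 := hrel j
    rw [hw1, zero_mul, add_zero] at h3 h4
    have h5 : w 2 * (p j * p2 i - p i * p2 j) = 0 := by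
      linear_combination p j * h3 - p i * h4
    exact sub_eq_zero.mp ((mul_eq_zero.mp h5).resolve_left hw2)

/-- **Existence of formal branches** -/
theorem exists_branch {F : P3} (hF : F.IsHomogeneous 3) (hF0 : F ≠ 0) {p : Fin 3 → ℂ}
    (hp : p ≠ 0) (hpF : eval p F = 0) (hg : grad F p ≠ 0) :
    ∃ (p1 p2 : Fin 3 → ℂ) (α : PowerSeries ℂ), IsBranch F p p1 p2 α := by
  obtain ⟨p2, h2, hpar⟩ := exists_tangent (F := F) hp
  obtain ⟨p1, h1, hc⟩ := exists_normal hF0 hg
  have h0 : ∑ i, grad F p i * p i = 0 := by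
    have := euler_eval hF p
    rw [hpF, mul_zero] at this
    rw [← this]
    exact Finset.sum_congr rfl fun i _ => mul_comm _ _
  set u : Fin 3 → PowerSeries ℂ := fun i => PowerSeries.C (p i) + PowerSeries.X *
    PowerSeries.C (p2 i) with hu
  set v : Fin 3 → PowerSeries ℂ := fun i => PowerSeries.C (p1 i) with hv
  set P0 : Polynomial (PowerSeries ℂ) :=
    aeval (fun i => Polynomial.C (u i) + Polynomial.C (v i) * Polynomial.X) F with hP0
  set a0 : PowerSeries ℂ := aeval u F with ha0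
  set b : PowerSeries ℂ := ∑ i, aeval u (pderiv i F) * v i with hb
  have hCu : ∀ f : P3, aeval (fun i => (Polynomial.C (u i) : Polynomial (PowerSeries ℂ))) f =
      Polynomial.C (aeval u f) := by
    intro f
    have : (aeval (fun i => (Polynomial.C (u i) : Polynomial (PowerSeries ℂ))) :
        P3 →ₐ[ℂ] Polynomial (PowerSeries ℂ)) =
        ((Algebra.ofId (PowerSeries ℂ) (Polynomial (PowerSeries ℂ))).restrictScalars ℂ).comp
          (aeval u) := by
      apply MvPolynomial.algHom_ext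
      intro i
      rw [aeval_X, AlgHom.comp_apply, aeval_X]
      rfl
    rw [this, AlgHom.comp_apply]
    rfl
  obtain ⟨W, hW⟩ := taylor_one F (Polynomial.X : Polynomial (PowerSeries ℂ))
    (fun i => Polynomial.C (u i)) (fun i => Polynomial.C (v i))
  have hP0' : P0 = Polynomial.C a0 + Polynomial.X * Polynomial.C b + Polynomial.X ^ 2 * W := by
    have h3 : (fun i => Polynomial.C (u i) + Polynomial.C (v i) * Polynomial.X) =
        fun i => Polynomial.C (u i) + Polynomial.X * Polynomial.C (v i) := by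
      funext i; ring
    rw [hP0, h3, hW, hCu]
    simp only [hCu, ← Polynomial.C_mul, ← map_sum]
    rfl
  -- constant coefficients
  obtain ⟨W', hW'⟩ := taylor_one F (PowerSeries.X : PowerSeries ℂ)
    (fun i => PowerSeries.C (p i)) (fun i => PowerSeries.C (p2 i))
  have ha0' : a0 = PowerSeries.X ^ 2 * W' := by
    have h3 : ∑ i, aeval (fun i => (PowerSeries.C (p i) : PowerSeries ℂ)) (pderiv i F) *
        PowerSeries.C (p2 i) = PowerSeries.C (∑ i, grad F p i * p2 i) := by
      rw [map_sum]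
      refine Finset.sum_congr rfl fun i _ => ?_
      rw [aeval_C_powerSeries, map_mul]
      rfl
    rw [ha0, hu, hW', h3, h2, aeval_C_powerSeries, hpF]
    simp
  have hconst : ∀ f : P3, PowerSeries.constantCoeff (aeval u f) = eval p f := by
    intro f
    have : ((PowerSeries.constantCoeff (R := ℂ)) : PowerSeries ℂ →+* ℂ).comp
        ((aeval u : P3 →ₐ[ℂ] PowerSeries ℂ) : P3 →+* PowerSeries ℂ) = eval p := by
      apply MvPolynomial.ringHom_ext
      · intro c
        simp
      · intro i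
        simp [hu]
    exact congrArg (fun g => g f) this
  have hbc : PowerSeries.constantCoeff b = ∑ i, grad F p i * p1 i := by
    rw [hb, map_sum]
    refine Finset.sum_congr rfl fun i _ => ?_
    rw [map_mul, hconst, hv, PowerSeries.constantCoeff_C]
    rfl
  have hbu : IsUnit b := by
    rw [PowerSeries.isUnit_iff_constantCoeff, hbc]
    exact isUnit_iff_ne_zero.mpr h1
  -- monic
  set c := eval p1 F with hcdef
  set P : Polynomial (PowerSeries ℂ) := Polynomial.C (PowerSeries.C c⁻¹) * P0 with hP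
  have hmonic : P.Monic := by
    apply Polynomial.monic_of_natDegree_le_of_coeff_eq_one 3
    · exact (Polynomial.natDegree_C_mul_le _ _).trans (natDegree_line hF u v)
    · rw [hP, Polynomial.coeff_C_mul, hP0, coeff_line' hF, hv, aeval_C_powerSeries, ← map_mul,
        inv_mul_cancel₀ hc, map_one]
  have hcu : IsUnit (PowerSeries.C c⁻¹ : PowerSeries ℂ) :=
    (isUnit_iff_ne_zero.mpr (inv_ne_zero hc)).map _
  obtain ⟨a, hroot, ha⟩ := HenselianRing.is_henselian (I := Ideal.span {PowerSeries.X}) P hmonic 0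
    (by
      rw [hP, Polynomial.eval_mul, hP0', Polynomial.eval_add, Polynomial.eval_add]
      simp only [Polynomial.eval_C, Polynomial.eval_mul, Polynomial.eval_X, Polynomial.eval_pow,
        zero_mul, add_zero, ne_eq, OfNat.ofNat_ne_zero, not_false_eq_true, zero_pow]
      rw [ha0', Ideal.mem_span_singleton]
      exact ⟨PowerSeries.C c⁻¹ * (PowerSeries.X * W'), by ring⟩)
    (by
      refine IsUnit.map _ ?_
      rw [hP, hP0']
      simp only [Polynomial.derivative_mul, Polynomial.derivative_C, zero_mul, zero_add,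
        Polynomial.derivative_add, Polynomial.derivative_X, one_mul, mul_zero, add_zero,
        Polynomial.derivative_X_pow, Polynomial.eval_mul, Polynomial.eval_C, Polynomial.eval_add,
        Polynomial.eval_pow, Polynomial.eval_X]
      simp only [Nat.add_one_sub_one, pow_one, mul_zero, zero_mul, add_zero,
        ne_eq, OfNat.ofNat_ne_zero, not_false_eq_true, zero_pow]
      exact hcu.mul hbu)
  rw [sub_zero, Ideal.mem_span_singleton] at ha
  have hroot' : a0 + a * b + a ^ 2 * W.eval a = 0 := by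
    rw [Polynomial.IsRoot.def, hP, Polynomial.eval_mul, Polynomial.eval_C] at hroot
    have h3 := (hcu.mul_right_eq_zero).mp hroot
    rw [hP0'] at h3
    rw [mul_comm a b]
    simpa using h3
  have hunit : IsUnit (b + a * W.eval a) := by
    rw [PowerSeries.isUnit_iff_constantCoeff, map_add, map_mul,
      PowerSeries.X_dvd_iff.mp ha, zero_mul, add_zero, hbc]
    exact isUnit_iff_ne_zero.mpr h1
  have ha2 : PowerSeries.X ^ 2 ∣ a := by
    rw [← hunit.dvd_mul_right]
    refine ⟨-W', ?_⟩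
    rw [ha0'] at hroot'
    linear_combination hroot'
  obtain ⟨α, hα⟩ := ha2
  refine ⟨p1, p2, α, hpF, h2, h1, isUnit_iff_ne_zero.mpr (frame_det hp h0 h1 h2 hpar), ?_⟩
  have h4 : brPt p p1 p2 α = fun i => u i + v i * a := by
    funext i
    simp only [brPt, hu, hv]
    rw [hα]
    ring
  have h5 : aeval (fun i => u i + v i * a) F = P0.eval a := by
    have : (aeval (fun i => u i + v i * a) : P3 →ₐ[ℂ] PowerSeries ℂ) =
        ((Polynomial.aeval (R := PowerSeries ℂ) a).restrictScalars ℂ).comp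
          (aeval (fun i => Polynomial.C (u i) + Polynomial.C (v i) * Polynomial.X)) := by
      apply MvPolynomial.algHom_ext
      intro i
      rw [aeval_X, AlgHom.comp_apply, aeval_X]
      simp
    rw [this, AlgHom.comp_apply, ← hP0, AlgHom.restrictScalars_apply,
      Polynomial.coe_aeval_eq_eval]
  rw [brMap, h4, h5, hP0']
  rw [mul_comm a b] at hroot'
  simpa using hroot'

end Pool.Agent.MPafef76

end

section

/-!
# Orders along the branches and the toric divisors
-/

set_option autoImplicit false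

namespace Pool.Agent.MPafef76

open MvPolynomial

lemma brMap_const (p p1 p2 : Fin 3 → ℂ) (α : PowerSeries ℂ) (f : P3) :
    PowerSeries.constantCoeff (brMap p p1 p2 α f) = eval p f := by
  have : ((PowerSeries.constantCoeff (R := ℂ)) : PowerSeries ℂ →+* ℂ).comp
      ((brMap p p1 p2 α : P3 →ₐ[ℂ] PowerSeries ℂ) : P3 →+* PowerSeries ℂ) = eval p := by
    apply MvPolynomial.ringHom_ext
    · intro c
      simp [brMap]
    · intro i
      simp [brMap, brPt]
  exact congrArg (fun g => g f) this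

lemma X_dvd_brMap {p p1 p2 : Fin 3 → ℂ} {α : PowerSeries ℂ} {f : P3} (h : eval p f = 0) :
    PowerSeries.X ∣ brMap p p1 p2 α f := by
  rw [PowerSeries.X_dvd_iff, brMap_const, h]

lemma isUnit_brMap {p p1 p2 : Fin 3 → ℂ} {α : PowerSeries ℂ} {f : P3} (h : eval p f ≠ 0) :
    IsUnit (brMap p p1 p2 α f) := by
  rw [PowerSeries.isUnit_iff_constantCoeff, brMap_const]
  exact isUnit_iff_ne_zero.mpr h

/-- The matrix used for the divisor over the point `q`. -/
abbrev matQ (p p1 p2 : Fin 3 → ℂ) : Matrix (Fin 3) (Fin 3) ℂ := Matrix.of ![p, p1, p2]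

/-- The matrix used for the divisor over the points `z`. -/
abbrev matZ (p p1 p2 : Fin 3 → ℂ) : Matrix (Fin 3) (Fin 3) ℂ := Matrix.of ![p2, p1, p]

lemma matZ_det (p p1 p2 : Fin 3 → ℂ) : (matZ p p1 p2).det = -(matQ p p1 p2).det := by
  simp only [matZ, matQ, Matrix.det_fin_three, Matrix.of_apply, Matrix.cons_val_zero,
    Matrix.cons_val_one, Matrix.cons_val]
  ring

lemma evT_matQ (p p1 p2 : Fin 3 → ℂ) (α : PowerSeries ℂ) {f : P3} {m : ℕ}
    (hf : f.IsHomogeneous m) :
    evT PowerSeries.X α 1 (torMap 3 2 (matQ p p1 p2) f) =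
      PowerSeries.X ^ m * brMap p p1 p2 α f := by
  rw [evT_torMap, brMap, ← aeval_mul_homog hf]
  congr 2
  funext i
  have hC : ∀ c : ℂ, algebraMap ℂ (PowerSeries ℂ) c = PowerSeries.C c := fun _ => rfl
  simp only [matQ, hC, Matrix.of_apply, Matrix.cons_val_zero, Matrix.cons_val_one,
    Matrix.cons_val, brPt]
  ring

lemma evT_matZ (p p1 p2 : Fin 3 → ℂ) (α : PowerSeries ℂ) (f : P3) :
    evT PowerSeries.X (α * PowerSeries.X) 1 (torMap 1 0 (matZ p p1 p2) f) =
      brMap p p1 p2 α f := by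
  rw [evT_torMap, brMap]
  congr 2
  funext i
  have hC : ∀ c : ℂ, algebraMap ℂ (PowerSeries ℂ) c = PowerSeries.C c := fun _ => rfl
  simp only [matZ, hC, Matrix.of_apply, Matrix.cons_val_zero, Matrix.cons_val_one,
    Matrix.cons_val, brPt]
  ring

lemma aeval_CC (p : Fin 3 → ℂ) (f : P3) :
    aeval (fun i => (Polynomial.C (C (p i)) : T2)) f = Polynomial.C (C (eval p f)) := by
  have : (aeval (fun i => (Polynomial.C (C (p i)) : T2)) : P3 →ₐ[ℂ] T2) =
      (Algebra.ofId ℂ T2).comp (aeval p) := by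
    apply MvPolynomial.algHom_ext
    intro i
    rw [aeval_X, AlgHom.comp_apply, aeval_X]
    rfl
  rw [this, AlgHom.comp_apply, MvPolynomial.aeval_eq_eval]
  rfl

lemma tor_matQ_expand (p p1 p2 : Fin 3 → ℂ) {f : P3} {m : ℕ} (hf : f.IsHomogeneous m) :
    ∃ W : T2, torMap 3 2 (matQ p p1 p2) f = Polynomial.X ^ m *
      (Polynomial.C (C (eval p f)) + Polynomial.X *
        (Polynomial.C (C (∑ i, grad f p i * p2 i)) * Polynomial.C (X 1)) +
        Polynomial.X ^ 2 * W) := by
  obtain ⟨W, hW⟩ := taylor_one f (Polynomial.X : T2) (fun i => Polynomial.C (C (p i)))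
    (fun i => Polynomial.C (C (p2 i)) * Polynomial.C (X 1) +
      Polynomial.X * (Polynomial.C (C (p1 i)) * Polynomial.C (X 0)))
  refine ⟨W + ∑ i, Polynomial.C (C (grad f p i)) *
    (Polynomial.C (C (p1 i)) * Polynomial.C (X 0)), ?_⟩
  have h1 : torMap 3 2 (matQ p p1 p2) f =
      aeval (fun i => (Polynomial.X : T2) * (Polynomial.C (C (p i)) + Polynomial.X *
        (Polynomial.C (C (p2 i)) * Polynomial.C (X 1) +
      Polynomial.X * (Polynomial.C (C (p1 i)) * Polynomial.C (X 0))))) f := by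
    rw [torMap]
    congr 2
    funext i
    rw [Fin.sum_univ_three]
    simp only [matQ, tm, Matrix.of_apply, Matrix.cons_val_zero, Matrix.cons_val_one,
      Matrix.cons_val]
    ring
  rw [h1, aeval_mul_homog hf, hW, aeval_CC]
  simp only [aeval_CC, map_mul, Fin.sum_univ_three, grad, map_add]
  ring

lemma tor_matQ_dvd (p p1 p2 : Fin 3 → ℂ) {f : P3} {m : ℕ} (hf : f.IsHomogeneous m) :
    Polynomial.X ^ m ∣ torMap 3 2 (matQ p p1 p2) f := by
  obtain ⟨W, hW⟩ := tor_matQ_expand p p1 p2 hf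
  exact ⟨_, hW⟩

lemma tor_matQ_dvd_succ {p p1 p2 : Fin 3 → ℂ} {f : P3} {m : ℕ} (hf : f.IsHomogeneous m)
    (h : eval p f = 0) : Polynomial.X ^ (m + 1) ∣ torMap 3 2 (matQ p p1 p2) f := by
  obtain ⟨W, hW⟩ := tor_matQ_expand p p1 p2 hf
  rw [hW, h]
  exact ⟨Polynomial.C (C (∑ i, grad f p i * p2 i)) * Polynomial.C (X 1) + Polynomial.X * W, by
    simp only [map_zero]; ring⟩

lemma tor_matQ_dvd_two {p p1 p2 : Fin 3 → ℂ} {f : P3} {m : ℕ} (hf : f.IsHomogeneous m)
    (h : eval p f = 0) (h2 : ∑ i, grad f p i * p2 i = 0) :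
    Polynomial.X ^ (m + 2) ∣ torMap 3 2 (matQ p p1 p2) f := by
  obtain ⟨W, hW⟩ := tor_matQ_expand p p1 p2 hf
  rw [hW, h, h2]
  exact ⟨W, by simp only [map_zero]; ring⟩

lemma tor_matQ_not_dvd {p p1 p2 : Fin 3 → ℂ} {f : P3} {m : ℕ} (hf : f.IsHomogeneous m)
    (h : eval p f ≠ 0) : ¬ Polynomial.X ^ (m + 1) ∣ torMap 3 2 (matQ p p1 p2) f := by
  intro hd
  have h1 := map_dvd (evT (S := PowerSeries ℂ) PowerSeries.X 0 1) hd
  rw [evT_matQ _ _ _ _ hf, map_pow, evT_X, pow_succ,
    mul_dvd_mul_iff_left (pow_ne_zero _ PowerSeries.X_ne_zero), PowerSeries.X_dvd_iff,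
    brMap_const] at h1
  exact h h1

lemma tor_matQ_not_dvd_three {p p1 p2 : Fin 3 → ℂ} {f : P3} {m : ℕ} (hf : f.IsHomogeneous m)
    (h : eval p f = 0) (h1 : ∑ i, grad f p i * p1 i ≠ 0) :
    ¬ Polynomial.X ^ (m + 3) ∣ torMap 3 2 (matQ p p1 p2) f := by
  intro hd
  have h2 := map_dvd (evT (S := PowerSeries ℂ) PowerSeries.X 1 0) hd
  obtain ⟨W, hW⟩ := taylor_one f (PowerSeries.X ^ 2 : PowerSeries ℂ)
    (fun i => PowerSeries.C (p i)) (fun i => PowerSeries.C (p1 i))
  have h3 : evT (S := PowerSeries ℂ) PowerSeries.X 1 0 (torMap 3 2 (matQ p p1 p2) f) =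
      PowerSeries.X ^ m * (PowerSeries.X ^ 2 *
        (PowerSeries.C (∑ i, grad f p i * p1 i) + PowerSeries.X ^ 2 * W)) := by
    have hC : ∀ c : ℂ, algebraMap ℂ (PowerSeries ℂ) c = PowerSeries.C c := fun _ => rfl
    have h4 : evT (S := PowerSeries ℂ) PowerSeries.X 1 0 (torMap 3 2 (matQ p p1 p2) f) =
        aeval (fun i => (PowerSeries.X : PowerSeries ℂ) * (PowerSeries.C (p i) +
          PowerSeries.X ^ 2 * PowerSeries.C (p1 i))) f := by
      rw [evT_torMap]
      congr 2
      funext i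
      simp only [matQ, hC, Matrix.of_apply, Matrix.cons_val_zero, Matrix.cons_val_one,
        Matrix.cons_val]
      ring
    rw [h4, aeval_mul_homog hf, hW, aeval_C_powerSeries, h]
    simp only [aeval_C_powerSeries, map_mul, Fin.sum_univ_three, grad, map_add,
      map_zero]
    ring
  rw [h3, map_pow, evT_X, show m + 3 = m + (2 + 1) by ring, pow_add,
    mul_dvd_mul_iff_left (pow_ne_zero _ PowerSeries.X_ne_zero), pow_add,
    mul_dvd_mul_iff_left (pow_ne_zero _ PowerSeries.X_ne_zero), pow_one,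
    PowerSeries.X_dvd_iff] at h2
  apply h1
  simpa using h2

lemma tor_matZ_dvd {p p1 p2 : Fin 3 → ℂ} {f : P3} {m : ℕ} (hf : f.IsHomogeneous m)
    (h : eval p f = 0) : Polynomial.X ∣ torMap 1 0 (matZ p p1 p2) f := by
  obtain ⟨W, hW⟩ := taylor_one f (Polynomial.X : T2)
    (fun i => Polynomial.C (X 1) * Polynomial.C (C (p i)))
    (fun i => Polynomial.C (C (p2 i)) + Polynomial.C (C (p1 i)) * Polynomial.C (X 0))
  have h1 : torMap 1 0 (matZ p p1 p2) f =
      aeval (fun i => (Polynomial.C (X 1) * Polynomial.C (C (p i)) + Polynomial.X *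
        (Polynomial.C (C (p2 i)) + Polynomial.C (C (p1 i)) * Polynomial.C (X 0)) : T2)) f := by
    rw [torMap]
    congr 2
    funext i
    rw [Fin.sum_univ_three]
    simp only [matZ, tm, Matrix.of_apply, Matrix.cons_val_zero, Matrix.cons_val_one,
      Matrix.cons_val]
    ring
  rw [h1, hW, aeval_mul_homog hf, aeval_CC, h, C_0, Polynomial.C_0, mul_zero, zero_add]
  exact dvd_add (Dvd.intro _ rfl) (by rw [pow_two, mul_assoc]; exact Dvd.intro _ rfl)

lemma tor_matZ_not_dvd {p p1 p2 : Fin 3 → ℂ} {f : P3} (h : eval p f = 0)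
    (h1 : ∑ i, grad f p i * p1 i ≠ 0) (h2 : ∑ i, grad f p i * p2 i = 0) :
    ¬ Polynomial.X ^ 2 ∣ torMap 1 0 (matZ p p1 p2) f := by
  intro hd
  have h3 := map_dvd (evT (S := PowerSeries ℂ) PowerSeries.X 1 1) hd
  obtain ⟨W, hW⟩ := taylor_one f (PowerSeries.X : PowerSeries ℂ)
    (fun i => PowerSeries.C (p i)) (fun i => PowerSeries.C (p1 i + p2 i))
  have h4 : evT (S := PowerSeries ℂ) PowerSeries.X 1 1 (torMap 1 0 (matZ p p1 p2) f) =
      PowerSeries.X * (PowerSeries.C (∑ i, grad f p i * p1 i) + PowerSeries.X * W) := by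
    have hC : ∀ c : ℂ, algebraMap ℂ (PowerSeries ℂ) c = PowerSeries.C c := fun _ => rfl
    have h5 : evT (S := PowerSeries ℂ) PowerSeries.X 1 1 (torMap 1 0 (matZ p p1 p2) f) =
        aeval (fun i => (PowerSeries.C (p i) + PowerSeries.X * PowerSeries.C (p1 i + p2 i) :
          PowerSeries ℂ)) f := by
      rw [evT_torMap]
      congr 2
      funext i
      simp only [matZ, hC, Matrix.of_apply, Matrix.cons_val_zero, Matrix.cons_val_one,
        Matrix.cons_val, map_add]
      ring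
    have h6 : ∑ i, aeval (fun i => (PowerSeries.C (p i) : PowerSeries ℂ)) (pderiv i f) *
        PowerSeries.C (p1 i + p2 i) = PowerSeries.C (∑ i, grad f p i * p1 i) := by
      have h7 : ∑ i, grad f p i * p1 i = ∑ i, grad f p i * (p1 i + p2 i) := by
        simp only [mul_add, Finset.sum_add_distrib, h2, add_zero]
      rw [h7, map_sum]
      refine Finset.sum_congr rfl fun i _ => ?_
      rw [aeval_C_powerSeries, map_mul]
      rfl
    rw [h5, hW, h6, aeval_C_powerSeries, h, map_zero]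
    ring
  rw [h4, map_pow, evT_X, pow_two, mul_dvd_mul_iff_left PowerSeries.X_ne_zero,
    PowerSeries.X_dvd_iff] at h3
  apply h1
  simpa using h3

/-- A transversal form has order one along the branch. -/
lemma IsBranch.order_one {F G : P3} {p p1 p2 : Fin 3 → ℂ} {α : PowerSeries ℂ}
    (hb : IsBranch F p p1 p2 α) {l n : ℕ} (hF : F.IsHomogeneous l) (hG : G.IsHomogeneous n)
    (hGp : eval p G = 0) (htr : Transversal F G p) :
    ∃ u : PowerSeries ℂ, IsUnit u ∧ brMap p p1 p2 α G = PowerSeries.X * u := by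
  obtain ⟨W, hW⟩ := taylor_one G (PowerSeries.X : PowerSeries ℂ)
    (fun i => PowerSeries.C (p i)) (fun i => PowerSeries.C (p2 i) +
    PowerSeries.X * (α * PowerSeries.C (p1 i)))
  refine ⟨PowerSeries.C (∑ i, grad G p i * p2 i) + PowerSeries.X *
    (α * PowerSeries.C (∑ i, grad G p i * p1 i) + W), ?_, ?_⟩
  · rw [PowerSeries.isUnit_iff_constantCoeff]
    simp only [map_add, map_mul, PowerSeries.constantCoeff_X, zero_mul, add_zero,
      PowerSeries.constantCoeff_C]
    rw [isUnit_iff_ne_zero]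
    intro h0
    have hE : ∀ {f : P3} {n : ℕ}, f.IsHomogeneous n → eval p f = 0 → ∑ i, grad f p i * p i = 0 := by
      intro f n hf hfp
      have := euler_eval hf p
      rw [hfp, mul_zero] at this
      rw [← this]
      exact Finset.sum_congr rfl fun i _ => mul_comm _ _
    have hE1 := hE hF hb.hp
    have hE2 := hE hG hGp
    have htan := hb.tan
    set s := ∑ i, grad F p i * p1 i with hs
    set t := ∑ i, grad G p i * p1 i with ht
    have hw : (-t) • grad F p + s • grad G p = 0 := by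
      apply Matrix.eq_zero_of_mulVec_eq_zero (M := Matrix.of ![p, p1, p2]) hb.det.ne_zero
      funext i
      simp only [Matrix.mulVec, dotProduct, Pi.add_apply, Pi.smul_apply, smul_eq_mul,
        Pi.zero_apply]
      simp only [Fin.sum_univ_three] at hE1 hE2 htan h0 hs ht ⊢
      fin_cases i
      · simp only [Fin.zero_eta, Matrix.of_apply, Matrix.cons_val_zero]
        linear_combination (-t) * hE1 + s * hE2
      · simp only [Fin.mk_one, Matrix.of_apply, Matrix.cons_val_one, Matrix.cons_val_zero]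
        linear_combination t * hs - s * ht
      · simp only [Fin.reduceFinMk, Matrix.of_apply, Matrix.cons_val]
        linear_combination (-t) * htan + s * h0
    exact hb.nor (htr _ _ hw).2
  · have h1 : ∀ f : P3, aeval (fun i => (PowerSeries.C (p i) : PowerSeries ℂ)) f =
      PowerSeries.C (eval p f) := aeval_C_powerSeries p
    rw [brMap]
    have h2 : brPt p p1 p2 α = fun i => PowerSeries.C (p i) + PowerSeries.X *
      (PowerSeries.C (p2 i) + PowerSeries.X * (α * PowerSeries.C (p1 i))) := rfl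
    rw [h2, hW, h1, hGp]
    simp only [h1, map_mul, Fin.sum_univ_three, grad, map_add, map_zero]
    ring

end Pool.Agent.MPafef76

end

section

/-!
# The upper bound for the multiplier ideals
-/

set_option autoImplicit false

namespace Pool.Agent.MPafef76

open MvPolynomial

/-- The conditions imposed by the divisors over the cubic, the point `q` and the points `z i`. -/
structure Num (F : P3) (q q1 q2 : Fin 3 → ℂ) (z z1 z2 : Fin 11 → Fin 3 → ℂ) (c : ℝ) (f : P3) :
    Prop where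
  cur : (Polynomial.C (dh F) : T2) ^ (⌊c * 4⌋₊ - 3) ∣ curMap F f
  atq : (Polynomial.X : T2) ^ (⌊c * 5⌋₊ - 5) ∣ torMap 3 2 (matQ q q1 q2) f
  atz : ∀ i, (Polynomial.X : T2) ^ (⌊c⌋₊ - 1) ∣ torMap 1 0 (matZ (z i) (z1 i) (z2 i)) f

section

variable {F : P3} {q q1 q2 : Fin 3 → ℂ} {z z1 z2 : Fin 11 → Fin 3 → ℂ} {c : ℝ} {f g : P3}

lemma Num.sub (hf : Num F q q1 q2 z z1 z2 c f) (hg : Num F q q1 q2 z z1 z2 c g) :
    Num F q q1 q2 z z1 z2 c (f - g) := by
  refine ⟨?_, ?_, fun i => ?_⟩
  · rw [map_sub]; exact dvd_sub hf.cur hg.cur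
  · rw [map_sub]; exact dvd_sub hf.atq hg.atq
  · rw [map_sub]; exact dvd_sub (hf.atz i) (hg.atz i)

lemma Num.component (hf : Num F q q1 q2 z z1 z2 c f) (m : ℕ) :
    Num F q q1 q2 z z1 z2 c (homogeneousComponent m f) :=
  ⟨curMap_component F hf.cur m, torMap_component _ _ _ hf.atq m,
    fun i => torMap_component _ _ _ (hf.atz i) m⟩

end

lemma dvd_cancel {T : Type*} [CommRing T] [IsDomain T] {ϖ a A : T} (hϖ : Prime ϖ) {n N : ℕ}
    (h1 : ϖ ^ n ∣ A) (h2 : ¬ ϖ ^ (n + 1) ∣ A) (h : ϖ ^ N ∣ a * A) : ϖ ^ (N - n) ∣ a := by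
  obtain ⟨u, rfl⟩ := h1
  have hu : ¬ ϖ ∣ u := by
    rintro ⟨v, rfl⟩
    exact h2 ⟨v, by ring⟩
  rcases Nat.lt_or_ge n N with hN | hN
  · obtain ⟨k, rfl⟩ := Nat.exists_eq_add_of_le hN.le
    rw [Nat.add_sub_cancel_left]
    have h3 : ϖ ^ n * ϖ ^ k ∣ ϖ ^ n * (a * u) := by
      rw [← pow_add]
      exact dvd_trans h (dvd_of_eq (by ring))
    rw [mul_dvd_mul_iff_left (pow_ne_zero _ hϖ.ne_zero)] at h3
    exact hϖ.pow_dvd_of_dvd_mul_right k hu h3
  · rw [Nat.sub_eq_zero_of_le hN, pow_zero]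
    exact one_dvd _

lemma span_dvd {T : Type*} [CommRing T] (φ : P3 →+* T) {F G H : P3} {a : T} (h1 : a ∣ φ F)
    (h2 : a ∣ φ G) (h3 : a ∣ φ H) : ∀ g ∈ Ideal.span {F, G, H}, a ∣ φ g := by
  intro g hg
  have : Ideal.span {F, G, H} ≤ (Ideal.span {a}).comap φ := by
    rw [Ideal.span_le]
    rintro x (rfl | rfl | hx)
    · exact Ideal.mem_span_singleton.mpr h1
    · exact Ideal.mem_span_singleton.mpr h2
    · rw [Set.mem_singleton_iff] at hx
      subst hx
      exact Ideal.mem_span_singleton.mpr h3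
  exact Ideal.mem_span_singleton.mp (this hg)

section Config

variable {F G H : P3} {z : Fin 11 → Fin 3 → ℂ} {q : Fin 3 → ℂ}

lemma Config.prime_dh (C : Config F G H z q) : Prime (Polynomial.C (dh F) : T2) :=
  Polynomial.prime_C_iff.mpr (MPafef76.prime_dh C.hF C.irr)

lemma Config.not_dvd_X (C : Config F G H z q) : ¬ (Polynomial.C (dh F) : T2) ∣ Polynomial.X := by
  rw [Polynomial.C_dvd_iff_dvd_coeff]
  intro h
  have := h 1
  rw [Polynomial.coeff_X_one] at this
  exact (MPafef76.prime_dh C.hF C.irr).not_isUnit (isUnit_of_dvd_one this)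

lemma Config.cur_F (C : Config F G H z q) : (Polynomial.C (dh F) : T2) ^ 4 ∣ curMap F F := by
  rw [curMap_homog F C.hF]
  exact ⟨Polynomial.X ^ 3, by ring⟩

lemma Config.cur_F_not (C : Config F G H z q) :
    ¬ (Polynomial.C (dh F) : T2) ^ (4 + 1) ∣ curMap F F := by
  rw [curMap_homog F C.hF]
  intro h
  have h1 : (Polynomial.C (dh F) : T2) ^ 4 * Polynomial.C (dh F) ∣
      Polynomial.C (dh F) ^ 4 * Polynomial.X ^ 3 :=
    dvd_trans (dvd_of_eq (by ring)) (dvd_trans h (dvd_of_eq (by ring)))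
  rw [mul_dvd_mul_iff_left (pow_ne_zero _ C.prime_dh.ne_zero)] at h1
  exact C.not_dvd_X (C.prime_dh.dvd_of_dvd_pow h1)

/-- Values of the ideal: necessary conditions for membership in the multiplier ideals. -/
theorem Config.num (C : Config F G H z q) {q1 q2 : Fin 3 → ℂ} {αq : PowerSeries ℂ}
    (hbq : IsBranch F q q1 q2 αq) {z1 z2 : Fin 11 → Fin 3 → ℂ} {αz : Fin 11 → PowerSeries ℂ}
    (hbz : ∀ i, IsBranch F (z i) (z1 i) (z2 i) (αz i)) {c : ℝ} {f : P3}
    (hf : f ∈ multiplierIdeal (Ideal.span {F, G, H}) c) : Num F q q1 q2 z z1 z2 c f := by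
  refine ⟨?_, ?_, fun i => ?_⟩
  · have := curve_dvd (n := 4) C.hF C.smooth
      (span_dvd (curMap F : P3 →+* T2) C.cur_F ?_ ?_) ⟨F, Ideal.subset_span (by simp), C.cur_F_not⟩ hf
    · exact_mod_cast this
    · change (Polynomial.C (dh F) : T2) ^ 4 ∣ curMap F G
      rw [curMap_homog F C.hG]
      exact ⟨Polynomial.X ^ 4 * Polynomial.C (dh G), by ring⟩
    · change (Polynomial.C (dh F) : T2) ^ 4 ∣ curMap F H
      rw [curMap_homog F C.hH]
      exact ⟨Polynomial.C (dh F) * Polynomial.X ^ 5 * Polynomial.C (dh H), by ring⟩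
  · have := toric_dvd (n := 5) 3 2 (B := matQ q q1 q2) hbq.det
      (span_dvd (torMap 3 2 (matQ q q1 q2) : P3 →+* T2) ?_ ?_ ?_)
      ⟨H, Ideal.subset_span (by simp), tor_matQ_not_dvd C.hH C.qH⟩ hf
    · exact_mod_cast this
    · exact tor_matQ_dvd_two C.hF C.qF hbq.tan
    · exact tor_matQ_dvd_succ C.hG C.qG
    · exact tor_matQ_dvd q q1 q2 C.hH
  · have hdet : IsUnit (matZ (z i) (z1 i) (z2 i)).det := by
      rw [matZ_det]
      exact (hbz i).det.neg
    have := toric_dvd (n := 1) 1 0 (B := matZ (z i) (z1 i) (z2 i)) hdet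
      (span_dvd (torMap 1 0 (matZ (z i) (z1 i) (z2 i)) : P3 →+* T2) ?_ ?_ ?_)
      ⟨F, Ideal.subset_span (by simp), tor_matZ_not_dvd (C.zF i) (hbz i).nor (hbz i).tan⟩ hf
    · simpa using this
    · rw [pow_one]; exact tor_matZ_dvd C.hF (C.zF i)
    · rw [pow_one]; exact tor_matZ_dvd C.hG (C.zG i)
    · rw [pow_one]; exact tor_matZ_dvd C.hH (C.zH i)

/-- Forms vanishing to order `n` along the cubic at the twelve points. -/
lemma Config.mem_span_pow (C : Config F G H z q) {q1 q2 : Fin 3 → ℂ} {αq : PowerSeries ℂ}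
    (hbq : IsBranch F q q1 q2 αq) {z1 z2 : Fin 11 → Fin 3 → ℂ} {αz : Fin 11 → PowerSeries ℂ}
    (hbz : ∀ i, IsBranch F (z i) (z1 i) (z2 i) (αz i)) (n : ℕ) : ∀ (m : ℕ) (f : P3),
    f.IsHomogeneous m → (∀ i, PowerSeries.X ^ n ∣ brMap (z i) (z1 i) (z2 i) (αz i) f) →
    PowerSeries.X ^ n ∣ brMap q q1 q2 αq f → f ∈ Ideal.span {F, G ^ n} := by
  induction n with
  | zero =>
    intro m f _ _ _
    rw [Ideal.mem_span_pair]
    exact ⟨0, f, by ring⟩
  | succ n ih =>
    intro m f hf hfz hfq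
    have hz0 : ∀ i, eval (z i) f = 0 := by
      intro i
      have h1 : PowerSeries.X ∣ brMap (z i) (z1 i) (z2 i) (αz i) f :=
        dvd_trans (dvd_pow_self _ (Nat.succ_ne_zero n)) (hfz i)
      rwa [PowerSeries.X_dvd_iff, brMap_const] at h1
    have hq0 : eval q f = 0 := by
      have h1 : PowerSeries.X ∣ brMap q q1 q2 αq f :=
        dvd_trans (dvd_pow_self _ (Nat.succ_ne_zero n)) hfq
      rwa [PowerSeries.X_dvd_iff, brMap_const] at h1
    obtain ⟨α, β, hαβ, hα, hβ, -, -⟩ :=
      exists_homog_pair C.hF C.hG hf (C.mem_span hf hz0 hq0)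
    have key : ∀ {p p1 p2 : Fin 3 → ℂ} {a : PowerSeries ℂ}, IsBranch F p p1 p2 a → p ≠ 0 →
        eval p G = 0 → PowerSeries.X ^ (n + 1) ∣ brMap p p1 p2 a f →
        PowerSeries.X ^ n ∣ brMap p p1 p2 a β := by
      intro p p1 p2 a hb hp hGp hd
      obtain ⟨u, hu, hGu⟩ := hb.order_one C.hF C.hG hGp (C.trans p hp hb.hp hGp)
      rw [hαβ, map_add, map_mul, map_mul, hb.root, mul_zero, zero_add, hGu] at hd
      have h1 : PowerSeries.X * PowerSeries.X ^ n ∣
          PowerSeries.X * (brMap p p1 p2 a β * u) := by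
        rw [← pow_succ']
        exact dvd_trans hd (dvd_of_eq (by ring))
      rw [mul_dvd_mul_iff_left PowerSeries.X_ne_zero] at h1
      exact (hu.dvd_mul_right).mp h1
    have hβmem := ih _ β hβ (fun i => key (hbz i) (C.z_ne i) (C.zG i) (hfz i))
      (key hbq C.q_ne C.qG hfq)
    rw [Ideal.mem_span_pair] at hβmem ⊢
    obtain ⟨a, b, hab⟩ := hβmem
    exact ⟨α + a * G, b, by rw [hαβ, ← hab]; ring⟩

lemma mem_expIdeal_gen {F G H : P3} {c : ℝ} {e a b d : ℕ} {p : P3} (hp : p.IsHomogeneous e)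
    (hB : 4 * c < e + 4 * a + 4 * b + 5 * d + 4) (hC : 5 * c < e + 5 * a + 5 * b + 5 * d + 6)
    (hD : c < a + b + d + 2) : p * F ^ a * G ^ b * H ^ d ∈ expIdeal F G H c :=
  Ideal.subset_span ⟨e, a, b, d, p, hp, hB, hC, hD, rfl⟩

lemma expIdeal_mul_F {F G H : P3} {c : ℝ} {f : P3} (hf : f ∈ expIdeal F G H (c - 1)) :
    f * F ∈ expIdeal F G H c := by
  rw [expIdeal] at hf
  induction hf using Submodule.span_induction with
  | mem x hx =>
    obtain ⟨e, a, b, d, p, hp, hB, hC, hD, rfl⟩ := hx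
    have h2 : p * F ^ a * G ^ b * H ^ d * F = p * F ^ (a + 1) * G ^ b * H ^ d := by ring
    rw [h2]
    refine mem_expIdeal_gen hp ?_ ?_ ?_
    · push_cast; linarith
    · push_cast; linarith
    · push_cast; linarith
  | zero => rw [zero_mul]; exact Ideal.zero_mem _
  | add x y _ _ hx hy => rw [add_mul]; exact Ideal.add_mem _ hx hy
  | smul r x _ hx => rw [smul_eq_mul, mul_assoc]; exact Ideal.mul_mem_left _ _ hx

/-- Reduction modulo `F` by raising the order at `q`. -/
lemma Config.reduce (C : Config F G H z q) {q1 q2 : Fin 3 → ℂ} {αq : PowerSeries ℂ}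
    (hbq : IsBranch F q q1 q2 αq) {z1 z2 : Fin 11 → Fin 3 → ℂ} {αz : Fin 11 → PowerSeries ℂ}
    (hbz : ∀ i, IsBranch F (z i) (z1 i) (z2 i) (αz i)) {c : ℝ} {m n : ℕ}
    (hm : 4 * c < m + 4) (hn : c < n + 2) : ∀ (k w : ℕ), w + k = n → 5 * c < m + w + 6 →
    5 * n ≤ m + w → ∀ f : P3, f.IsHomogeneous m →
    (∀ i, PowerSeries.X ^ n ∣ brMap (z i) (z1 i) (z2 i) (αz i) f) →
    PowerSeries.X ^ w ∣ brMap q q1 q2 αq f →
    ∃ g ∈ expIdeal F G H c, ∃ α : P3, α.IsHomogeneous (m - 3) ∧ (m < 3 → α = 0) ∧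
      f = g + α * F := by
  intro k
  induction k with
  | zero =>
    intro w hw hw5 h5n f hf hfz hfq
    rw [add_zero] at hw
    subst hw
    have hmem := C.mem_span_pow hbq hbz w m f hf hfz hfq
    obtain ⟨α, β, hαβ, hα, hβ, hα0, hβ0⟩ := exists_homog_pair C.hF (C.hG.pow w) hf hmem
    refine ⟨β * G ^ w, ?_, α, hα, hα0, by rw [hαβ]; ring⟩
    by_cases hmw : m < 4 * w
    · rw [hβ0 hmw, zero_mul]
      exact Ideal.zero_mem _
    · push Not at hmw
      have h1 : β * G ^ w = β * F ^ 0 * G ^ w * H ^ 0 := by ring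
      rw [h1]
      have h2 : ((m - 4 * w : ℕ) : ℝ) = m - 4 * w := by
        rw [Nat.cast_sub hmw]; push_cast; ring
      refine mem_expIdeal_gen hβ ?_ ?_ ?_
      · rw [h2]; push_cast; linarith
      · rw [h2]; push_cast; linarith
      · push_cast; linarith
  | succ k ih =>
    intro w hw hw5 h5n f hf hfz hfq
    obtain ⟨M, hM1, hM2⟩ := exists_lin_ne C.q_ne
    obtain ⟨φ, hφ⟩ := hfq
    -- the correction term
    have hMh : (M ^ (m + w - 5 * n)).IsHomogeneous (m + w - 5 * n) := by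
      have := hM1.pow (m + w - 5 * n)
      rwa [one_mul] at this
    obtain ⟨u, hu, hGu⟩ := hbq.order_one C.hF C.hG C.qG (C.trans q C.q_ne C.qF C.qG)
    have hHu : IsUnit (brMap q q1 q2 αq H) := isUnit_brMap C.qH
    have hMu : IsUnit (brMap q q1 q2 αq M) := isUnit_brMap (by rw [hM2]; exact one_ne_zero)
    set g0 : P3 := M ^ (m + w - 5 * n) * G ^ w * H ^ (n - w) with hg0
    set ψ : PowerSeries ℂ := brMap q q1 q2 αq M ^ (m + w - 5 * n) * u ^ w *
      brMap q q1 q2 αq H ^ (n - w) with hψ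
    have hψu : IsUnit ψ := ((hMu.pow _).mul (hu.pow _)).mul (hHu.pow _)
    have hg0q : brMap q q1 q2 αq g0 = PowerSeries.X ^ w * ψ := by
      rw [hg0, map_mul, map_mul, map_pow, map_pow, map_pow, hGu, hψ]
      ring
    set l : ℂ := PowerSeries.constantCoeff φ / PowerSeries.constantCoeff ψ with hl
    have hψ0 : PowerSeries.constantCoeff ψ ≠ 0 := by
      rw [PowerSeries.isUnit_iff_constantCoeff] at hψu
      exact hψu.ne_zero
    have hdeg : (MvPolynomial.C l * g0).IsHomogeneous m := by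
      apply IsHomogeneous.C_mul
      have h1 := (hMh.mul (C.hG.pow w)).mul (C.hH.pow (n - w))
      have h2 : m + w - 5 * n + 4 * w + 5 * (n - w) = m := by omega
      rwa [h2] at h1
    obtain ⟨g, hg, α, hα, hα0, hfα⟩ := ih (w + 1) (by omega) (by push_cast; linarith) (by omega)
      (f - MvPolynomial.C l * g0) (hf.sub hdeg) (by
        intro i
        rw [map_sub]
        refine dvd_sub (hfz i) ?_
        rw [map_mul, hg0, map_mul, map_mul, map_pow, map_pow, map_pow]
        have h1 : PowerSeries.X ^ n = (PowerSeries.X : PowerSeries ℂ) ^ w *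
            PowerSeries.X ^ (n - w) := by
          rw [← pow_add]; congr 1; omega
        rw [h1]
        refine Dvd.dvd.mul_left ?_ _
        refine mul_dvd_mul (Dvd.dvd.mul_left ?_ _) ?_
        · exact pow_dvd_pow_of_dvd (X_dvd_brMap (C.zG i)) _
        · exact pow_dvd_pow_of_dvd (X_dvd_brMap (C.zH i)) _) (by
        rw [map_sub, map_mul, hg0q, hφ]
        have h1 : brMap q q1 q2 αq (MvPolynomial.C l) = PowerSeries.C l := by
          rw [brMap, aeval_C]; rfl
        rw [h1]
        have h2 : PowerSeries.X ^ w * φ - PowerSeries.C l * (PowerSeries.X ^ w * ψ) =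
            PowerSeries.X ^ w * (φ - PowerSeries.C l * ψ) := by ring
        rw [h2, pow_succ]
        refine mul_dvd_mul_left _ ?_
        rw [PowerSeries.X_dvd_iff, map_sub, map_mul, PowerSeries.constantCoeff_C, hl,
          div_mul_cancel₀ _ hψ0, sub_self])
    refine ⟨g + MvPolynomial.C l * g0, Ideal.add_mem _ hg ?_, α, hα, hα0, ?_⟩
    · have h1 : MvPolynomial.C l * g0 =
          (MvPolynomial.C l * M ^ (m + w - 5 * n)) * F ^ 0 * G ^ w * H ^ (n - w) := by
        rw [hg0]; ring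
      rw [h1]
      have h2 : ((m + w - 5 * n : ℕ) : ℝ) = m + w - 5 * n := by
        rw [Nat.cast_sub h5n]; push_cast; ring
      have h3 : ((n - w : ℕ) : ℝ) = n - w := by
        rw [Nat.cast_sub (by omega)]
      refine mem_expIdeal_gen (hMh.C_mul l) ?_ ?_ ?_
      · rw [h2, h3]; push_cast; linarith
      · rw [h2, h3]; push_cast; linarith
      · rw [h3]; push_cast; linarith
    · linear_combination hfα

end Config

end Pool.Agent.MPafef76

end

section

/-!
# The structure theorem for the multiplier ideals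
-/

set_option autoImplicit false

namespace Pool.Agent.MPafef76

open MvPolynomial

section Config

variable {F G H : P3} {z : Fin 11 → Fin 3 → ℂ} {q : Fin 3 → ℂ}

/-- Passing from `α F` to `α`. -/
lemma Config.num_of_mul (C : Config F G H z q) {q1 q2 : Fin 3 → ℂ} {αq : PowerSeries ℂ}
    (hbq : IsBranch F q q1 q2 αq) {z1 z2 : Fin 11 → Fin 3 → ℂ} {αz : Fin 11 → PowerSeries ℂ}
    (hbz : ∀ i, IsBranch F (z i) (z1 i) (z2 i) (αz i)) {c : ℝ} {α : P3}
    (h : Num F q q1 q2 z z1 z2 c (α * F)) : Num F q q1 q2 z z1 z2 (c - 1) α := by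
  have h4 : ⌊(c - 1) * 4⌋₊ = ⌊c * 4⌋₊ - 4 := by
    rw [show (c - 1) * 4 = c * 4 - (4 : ℕ) by push_cast; ring, Nat.floor_sub_natCast]
  have h5 : ⌊(c - 1) * 5⌋₊ = ⌊c * 5⌋₊ - 5 := by
    rw [show (c - 1) * 5 = c * 5 - (5 : ℕ) by push_cast; ring, Nat.floor_sub_natCast]
  have h1 : ⌊c - 1⌋₊ = ⌊c⌋₊ - 1 := Nat.floor_sub_one c
  refine ⟨?_, ?_, fun i => ?_⟩
  · have h6 := h.cur
    rw [map_mul] at h6
    have h7 := dvd_cancel C.prime_dh C.cur_F C.cur_F_not h6
    rw [h4]
    exact dvd_trans (pow_dvd_pow _ (by omega)) h7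
  · have h6 := h.atq
    rw [map_mul] at h6
    have h7 := dvd_cancel Polynomial.prime_X (tor_matQ_dvd_two C.hF C.qF hbq.tan)
      (tor_matQ_not_dvd_three C.hF C.qF hbq.nor) h6
    rw [h5]
    exact dvd_trans (pow_dvd_pow _ (by omega)) h7
  · have h6 := h.atz i
    rw [map_mul] at h6
    have h7 := dvd_cancel Polynomial.prime_X (n := 1)
      (by rw [pow_one]; exact tor_matZ_dvd C.hF (C.zF i))
      (tor_matZ_not_dvd (C.zF i) (hbz i).nor (hbz i).tan) h6
    rw [h1]
    exact dvd_trans (pow_dvd_pow _ (by omega)) h7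

/-- **Forms satisfying the valuative conditions are in the explicit ideal.** -/
theorem Config.mem_expIdeal_of_num (C : Config F G H z q) {q1 q2 : Fin 3 → ℂ}
    {αq : PowerSeries ℂ} (hbq : IsBranch F q q1 q2 αq) {z1 z2 : Fin 11 → Fin 3 → ℂ}
    {αz : Fin 11 → PowerSeries ℂ} (hbz : ∀ i, IsBranch F (z i) (z1 i) (z2 i) (αz i)) :
    ∀ (m : ℕ) (c : ℝ), 0 < c → ∀ f : P3, f.IsHomogeneous m → Num F q q1 q2 z z1 z2 c f →
      f ∈ expIdeal F G H c := by
  intro m
  induction m using Nat.strong_induction_on with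
  | _ m ih =>
    intro c hc f hf hnum
    -- multiples of `F`
    have key : ∀ α : P3, α.IsHomogeneous (m - 3) → (m < 3 → α = 0) →
        Num F q q1 q2 z z1 z2 c (α * F) → α * F ∈ expIdeal F G H c := by
      intro α hα hα0 hn
      by_cases hm3 : m < 3
      · rw [hα0 hm3, zero_mul]
        exact Ideal.zero_mem _
      rcases le_or_gt c 1 with hc1 | hc1
      · have h1 : α * F = α * F ^ 1 * G ^ 0 * H ^ 0 := by ring
        rw [h1]
        have h0 : (0 : ℝ) ≤ ((m - 3 : ℕ) : ℝ) := Nat.cast_nonneg _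
        refine mem_expIdeal_gen hα ?_ ?_ ?_
        · push_cast; linarith
        · push_cast; linarith
        · push_cast; linarith
      · exact expIdeal_mul_F (ih (m - 3) (by omega) (c - 1) (by linarith) α hα
          (C.num_of_mul hbq hbz hn))
    by_cases hdvd : F ∣ f
    · obtain ⟨α, hα1, hα2, hα3⟩ := exists_homog_dvd C.hF hf hdvd
      rw [hα1] at hnum ⊢
      exact key α hα2 hα3 hnum
    -- numerical conditions
    have hndh : ¬ dh F ∣ dh f := by
      intro h
      have := pow_dvd_of_dh C.hF C.irr hf 1 (by rw [pow_one]; exact h)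
      rw [pow_one] at this
      exact hdvd this
    have hm4 : ⌊c * 4⌋₊ - 3 ≤ m := by
      by_contra hcon
      push Not at hcon
      have h1 : (Polynomial.C (dh F) : T2) ^ (m + 1) ∣ curMap F f :=
        dvd_trans (pow_dvd_pow _ (by omega)) hnum.cur
      rw [curMap_homog F hf] at h1
      have h2 : (Polynomial.C (dh F) : T2) ^ m * Polynomial.C (dh F) ∣
          Polynomial.C (dh F) ^ m * (Polynomial.X ^ m * Polynomial.C (dh f)) :=
        dvd_trans (dvd_of_eq (by ring)) (dvd_trans h1 (dvd_of_eq (by ring)))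
      rw [mul_dvd_mul_iff_left (pow_ne_zero _ C.prime_dh.ne_zero)] at h2
      rcases C.prime_dh.dvd_or_dvd h2 with h3 | h3
      · exact C.not_dvd_X (C.prime_dh.dvd_of_dvd_pow h3)
      · apply hndh
        rw [Polynomial.C_dvd_iff_dvd_coeff] at h3
        have := h3 0
        rwa [Polynomial.coeff_C_zero] at this
    have hfl4 : c * 4 < ⌊c * 4⌋₊ + 1 := Nat.lt_floor_add_one _
    have hfl5 : c * 5 < ⌊c * 5⌋₊ + 1 := Nat.lt_floor_add_one _
    have hfl1 : c < ⌊c⌋₊ + 1 := Nat.lt_floor_add_one _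
    have h51 : 5 * ⌊c⌋₊ ≤ ⌊c * 5⌋₊ := by
      rw [Nat.le_floor_iff (by positivity)]
      have := Nat.floor_le hc.le
      push_cast; linarith
    have h41 : 4 * ⌊c⌋₊ ≤ ⌊c * 4⌋₊ := by
      rw [Nat.le_floor_iff (by positivity)]
      have := Nat.floor_le hc.le
      push_cast; linarith
    have h541 : ⌊c * 5⌋₊ < ⌊c * 4⌋₊ + ⌊c⌋₊ + 2 := by
      rw [Nat.floor_lt (by positivity)]
      push_cast; linarith
    have h0 : ⌊c⌋₊ = 0 → ⌊c * 5⌋₊ < 5 := by
      intro h
      rw [Nat.floor_lt (by positivity)]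
      rw [Nat.floor_eq_zero] at h
      push_cast; linarith
    set n := ⌊c⌋₊ - 1 with hn
    set w := ⌊c * 5⌋₊ - 5 - m with hw
    have hwn : w ≤ n := by
      rcases Nat.eq_zero_or_pos ⌊c⌋₊ with h | h
      · have := h0 h
        omega
      · omega
    have hmR : (⌊c * 4⌋₊ : ℝ) ≤ m + 3 := by
      have : ⌊c * 4⌋₊ ≤ m + 3 := by omega
      exact_mod_cast this
    have hnR : (⌊c⌋₊ : ℝ) ≤ n + 1 := by
      have : ⌊c⌋₊ ≤ n + 1 := by omega
      exact_mod_cast this
    have hwR : (⌊c * 5⌋₊ : ℝ) ≤ m + w + 5 := by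
      have : ⌊c * 5⌋₊ ≤ m + w + 5 := by omega
      exact_mod_cast this
    obtain ⟨g, hg, α, hα, hα0, hfα⟩ := C.reduce hbq hbz (c := c) (m := m) (n := n)
      (by linarith) (by linarith) (n - w) w (by omega) (by linarith) (by omega) f hf (by
        intro i
        have h1 := map_dvd (evT (S := PowerSeries ℂ) PowerSeries.X (αz i * PowerSeries.X) 1)
          (hnum.atz i)
        rwa [map_pow, evT_X, evT_matZ] at h1) (by
        have h1 := map_dvd (evT (S := PowerSeries ℂ) PowerSeries.X αq 1) hnum.atq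
        rw [map_pow, evT_X, evT_matQ _ _ _ _ hf] at h1
        rcases Nat.lt_or_ge m (⌊c * 5⌋₊ - 5) with h2 | h2
        · have h3 : ⌊c * 5⌋₊ - 5 = m + w := by omega
          rw [h3, pow_add, mul_dvd_mul_iff_left (pow_ne_zero _ PowerSeries.X_ne_zero)] at h1
          exact h1
        · have h3 : w = 0 := by omega
          rw [h3, pow_zero]
          exact one_dvd _)
    have hgn : Num F q q1 q2 z z1 z2 c g := C.num hbq hbz (C.le_multiplierIdeal hc hg)
    have h2 : α * F ∈ expIdeal F G H c := by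
      refine key α hα hα0 ?_
      have h3 : α * F = f - g := by rw [hfα]; ring
      rw [h3]
      exact hnum.sub hgn
    rw [hfα]
    exact Ideal.add_mem _ hg h2

/-- **The multiplier ideals of eleven points on a smooth cubic.** -/
theorem Config.multiplierIdeal_eq (C : Config F G H z q) {c : ℝ} (hc : 0 < c) :
    multiplierIdeal (Ideal.span {F, G, H}) c = expIdeal F G H c := by
  obtain ⟨q1, q2, αq, hbq⟩ := exists_branch C.hF C.F_ne C.q_ne C.qF (C.smooth.grad_ne C.q_ne)
  choose z1 z2 αz hbz using fun i =>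
    exists_branch C.hF C.F_ne (C.z_ne i) (C.zF i) (C.smooth.grad_ne (C.z_ne i))
  refine le_antisymm ?_ (C.le_multiplierIdeal hc)
  intro f hf
  have hnum := C.num hbq hbz hf
  rw [← sum_homogeneousComponent f]
  exact Ideal.sum_mem _ fun m _ => C.mem_expIdeal_of_num hbq hbz m c hc _
    (homogeneousComponent_isHomogeneous m f) (hnum.component m)

end Config

end Pool.Agent.MPafef76

end

section

/-!
# The jumping numbers
-/

set_option autoImplicit false

namespace Pool.Agent.MPafef76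

open MvPolynomial

lemma expIdeal_anti {F G H : P3} {c c' : ℝ} (h : c' ≤ c) :
    expIdeal F G H c ≤ expIdeal F G H c' := by
  rw [expIdeal, Ideal.span_le]
  rintro x ⟨e, a, b, d, p, hp, hB, hC, hD, rfl⟩
  exact mem_expIdeal_gen hp (by linarith) (by linarith) (by linarith)

/-- The ideal does not jump away from the given list. -/
lemma expIdeal_eq_of_not_jump {F G H : P3} {c : ℝ} (hc : 0 < c)
    (h4 : ¬ ∃ m : ℕ, 4 ≤ m ∧ c = m / 4) (h5 : ¬ ∃ m : ℕ, 10 ≤ m ∧ c = m / 5) :
    ∃ c' : ℝ, 0 < c' ∧ c' < c ∧ expIdeal F G H c' = expIdeal F G H c := by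
  push Not at h4 h5
  have hlt : ∀ y : ℝ, 0 < y → (⌈y⌉₊ : ℝ) - 1 < y := by
    intro y hy
    have := Nat.ceil_lt_add_one hy.le
    linarith
  set c' : ℝ := max (max (c / 2) ((⌈4 * c⌉₊ - 1) / 4)) (max ((⌈5 * c⌉₊ - 1) / 5) (⌈c⌉₊ - 1))
    with hc'
  have h1 : c / 2 ≤ c' := le_trans (le_max_left _ _) (le_max_left _ _)
  have h2 : ((⌈4 * c⌉₊ : ℝ) - 1) / 4 ≤ c' := le_trans (le_max_right _ _) (le_max_left _ _)
  have h3 : ((⌈5 * c⌉₊ : ℝ) - 1) / 5 ≤ c' := le_trans (le_max_left _ _) (le_max_right _ _)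
  have h6 : (⌈c⌉₊ : ℝ) - 1 ≤ c' := le_trans (le_max_right _ _) (le_max_right _ _)
  have hc'c : c' < c := by
    rw [hc']
    refine max_lt (max_lt (by linarith) ?_) (max_lt ?_ ?_)
    · have := hlt (4 * c) (by linarith); linarith
    · have := hlt (5 * c) (by linarith); linarith
    · exact hlt c hc
  -- natural numbers above `r c'` are at least `r c`
  have key : ∀ (r : ℝ) (N : ℕ), (⌈r * c⌉₊ : ℝ) - 1 ≤ r * c' → r * c' < N → r * c ≤ N := by
    intro r N hr hN
    have h7 : (⌈r * c⌉₊ : ℝ) < ((N + 1 : ℕ) : ℝ) := by push_cast; linarith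
    have h8 : ⌈r * c⌉₊ ≤ N := by
      have : ⌈r * c⌉₊ < N + 1 := by exact_mod_cast h7
      omega
    exact le_trans (Nat.le_ceil _) (by exact_mod_cast h8)
  refine ⟨c', by linarith, hc'c, le_antisymm ?_ (expIdeal_anti hc'c.le)⟩
  rw [expIdeal, Ideal.span_le]
  rintro x ⟨e, a, b, d, p, hp, hB, hC, hD, rfl⟩
  have hB1 : 4 * c ≤ ((e + 4 * a + 4 * b + 5 * d + 4 : ℕ) : ℝ) :=
    key 4 _ (by linarith) (by push_cast; linarith)
  have hC1 : 5 * c ≤ ((e + 5 * a + 5 * b + 5 * d + 6 : ℕ) : ℝ) :=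
    key 5 _ (by linarith) (by push_cast; linarith)
  have hD1 : 1 * c ≤ ((a + b + d + 2 : ℕ) : ℝ) :=
    key 1 _ (by rw [one_mul, one_mul]; exact h6) (by push_cast; linarith)
  have hB2 : 4 * c < ((e + 4 * a + 4 * b + 5 * d + 4 : ℕ) : ℝ) := by
    refine lt_of_le_of_ne hB1 fun h => h4 (e + 4 * a + 4 * b + 5 * d + 4) (by omega) ?_
    rw [← h]; ring
  have hD2 : c < ((a + b + d + 2 : ℕ) : ℝ) := by
    refine lt_of_le_of_ne (by linarith) fun h => h4 (4 * (a + b + d + 2)) (by omega) ?_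
    rw [h]; push_cast; ring
  have hC2 : 5 * c < ((e + 5 * a + 5 * b + 5 * d + 6 : ℕ) : ℝ) := by
    refine lt_of_le_of_ne hC1 fun h => ?_
    by_cases h10 : 10 ≤ e + 5 * a + 5 * b + 5 * d + 6
    · refine h5 _ h10 ?_
      rw [← h]; ring
    · have ha : a = 0 := by omega
      have hb : b = 0 := by omega
      have hd : d = 0 := by omega
      have he : e ≤ 3 := by omega
      subst ha hb hd
      have he' : (e : ℝ) ≤ 3 := by exact_mod_cast he
      push_cast at h hB2
      linarith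
  push_cast at hB2 hC2 hD2
  exact mem_expIdeal_gen hp (by linarith) (by linarith) (by linarith)

section Config

variable {F G H : P3} {z : Fin 11 → Fin 3 → ℂ} {q : Fin 3 → ℂ}

/-- The numbers `m / 4` are jumping numbers. -/
lemma Config.jump_four (C : Config F G H z q) {c' : ℝ} {m : ℕ} (hm : 4 ≤ m)
    (hc'm : c' < m / 4) : expIdeal F G H c' ≠ expIdeal F G H (m / 4) := by
  intro heq
  obtain ⟨q1, q2, αq, hbq⟩ := exists_branch C.hF C.F_ne C.q_ne C.qF (C.smooth.grad_ne C.q_ne)
  choose z1 z2 αz hbz using fun i =>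
    exists_branch C.hF C.F_ne (C.z_ne i) (C.zF i) (C.smooth.grad_ne (C.z_ne i))
  obtain ⟨M, hM1, hM2⟩ := exists_lin_ne C.q_ne
  have hm0 : (4 : ℝ) ≤ m := by exact_mod_cast hm
  set j := (m + 3) / 4 - 2 with hj
  set e := m - 4 - 4 * j with he
  have h1 : m = e + 4 * j + 4 := by omega
  have h2 : m ≤ 4 * j + 8 := by omega
  have h1' : (m : ℝ) = e + 4 * j + 4 := by exact_mod_cast h1
  have h2' : (m : ℝ) ≤ 4 * j + 8 := by exact_mod_cast h2
  have hMh : (M ^ e).IsHomogeneous e := by
    have := hM1.pow e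
    rwa [one_mul] at this
  have hdeg : (M ^ e * G ^ j).IsHomogeneous (m - 4) := by
    have := hMh.mul (C.hG.pow j)
    rwa [show e + 4 * j = m - 4 by omega] at this
  have hf : M ^ e * G ^ j ∈ expIdeal F G H c' := by
    have h3 : M ^ e * G ^ j = M ^ e * F ^ 0 * G ^ j * H ^ 0 := by ring
    rw [h3]
    refine mem_expIdeal_gen hMh ?_ ?_ ?_
    · push_cast; linarith
    · push_cast; linarith
    · push_cast; linarith
  rw [heq, ← C.multiplierIdeal_eq (by linarith)] at hf
  have hnum := (C.num hbq hbz hf).cur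
  have hfl : ⌊(m / 4 : ℝ) * 4⌋₊ = m := by
    rw [div_mul_cancel₀ _ (by norm_num : (4 : ℝ) ≠ 0), Nat.floor_natCast]
  rw [hfl, curMap_homog F hdeg, show m - 3 = (m - 4) + 1 by omega] at hnum
  have h4 : (Polynomial.C (dh F) : T2) ^ (m - 4) * Polynomial.C (dh F) ∣
      Polynomial.C (dh F) ^ (m - 4) * (Polynomial.X ^ (m - 4) *
        Polynomial.C (dh (M ^ e * G ^ j))) :=
    dvd_trans (dvd_of_eq (by ring)) (dvd_trans hnum (dvd_of_eq (by ring)))
  rw [mul_dvd_mul_iff_left (pow_ne_zero _ C.prime_dh.ne_zero)] at h4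
  rcases C.prime_dh.dvd_or_dvd h4 with h5 | h5
  · exact C.not_dvd_X (C.prime_dh.dvd_of_dvd_pow h5)
  · rw [Polynomial.C_dvd_iff_dvd_coeff] at h5
    have h6 := h5 0
    rw [Polynomial.coeff_C_zero] at h6
    have h7 := pow_dvd_of_dh C.hF C.irr hdeg 1 (by rw [pow_one]; exact h6)
    rw [pow_one] at h7
    rcases C.irr.prime.dvd_or_dvd h7 with h8 | h8
    · have h9 := C.irr.prime.dvd_of_dvd_pow h8
      obtain ⟨β, hβ1, -, hβ3⟩ := exists_homog_dvd C.hF hM1 h9
      rw [hβ3 (by norm_num), zero_mul] at hβ1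
      rw [hβ1, map_zero] at hM2
      exact one_ne_zero hM2.symm
    · exact C.ndvd (C.irr.prime.dvd_of_dvd_pow h8)

/-- The numbers `m / 5` with `m ≥ 10` are jumping numbers. -/
lemma Config.jump_five (C : Config F G H z q) {c' : ℝ} {m : ℕ} (hm : 10 ≤ m)
    (hc'm : c' < m / 5) : expIdeal F G H c' ≠ expIdeal F G H (m / 5) := by
  intro heq
  obtain ⟨q1, q2, αq, hbq⟩ := exists_branch C.hF C.F_ne C.q_ne C.qF (C.smooth.grad_ne C.q_ne)
  choose z1 z2 αz hbz using fun i =>
    exists_branch C.hF C.F_ne (C.z_ne i) (C.zF i) (C.smooth.grad_ne (C.z_ne i))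
  obtain ⟨M, hM1, hM2⟩ := exists_lin_ne C.q_ne
  have hm0 : (10 : ℝ) ≤ m := by exact_mod_cast hm
  set j := (m + 4) / 5 - 2 with hj
  set e := m - 6 - 5 * j with he
  have h1 : m = e + 5 * j + 6 := by omega
  have h2 : m ≤ 5 * j + 10 := by omega
  have h1' : (m : ℝ) = e + 5 * j + 6 := by exact_mod_cast h1
  have h2' : (m : ℝ) ≤ 5 * j + 10 := by exact_mod_cast h2
  have hMh : (M ^ e).IsHomogeneous e := by
    have := hM1.pow e
    rwa [one_mul] at this
  have hdeg : (M ^ e * H ^ j).IsHomogeneous (m - 6) := by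
    have := hMh.mul (C.hH.pow j)
    rwa [show e + 5 * j = m - 6 by omega] at this
  have hf : M ^ e * H ^ j ∈ expIdeal F G H c' := by
    have h3 : M ^ e * H ^ j = M ^ e * F ^ 0 * G ^ 0 * H ^ j := by ring
    rw [h3]
    refine mem_expIdeal_gen hMh ?_ ?_ ?_
    · push_cast; linarith
    · push_cast; linarith
    · push_cast; linarith
  rw [heq, ← C.multiplierIdeal_eq (by linarith)] at hf
  have hnum := (C.num hbq hbz hf).atq
  have hfl : ⌊(m / 5 : ℝ) * 5⌋₊ = m := by
    rw [div_mul_cancel₀ _ (by norm_num : (5 : ℝ) ≠ 0), Nat.floor_natCast]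
  rw [hfl, show m - 5 = (m - 6) + 1 by omega] at hnum
  refine tor_matQ_not_dvd hdeg ?_ hnum
  rw [map_mul, map_pow, map_pow, hM2, one_pow, one_mul]
  exact pow_ne_zero _ C.qH

/-- **The jumping numbers** -/
theorem Config.jumping (C : Config F G H z q) :
    {c : ℝ | 0 < c ∧ ∀ c' : ℝ, 0 < c' → c' < c →
      multiplierIdeal (Ideal.span {F, G, H}) c' ≠ multiplierIdeal (Ideal.span {F, G, H}) c} =
    {c : ℝ | ∃ m : ℕ, 4 ≤ m ∧ c = m / 4} ∪ {c : ℝ | ∃ m : ℕ, 10 ≤ m ∧ c = m / 5} := by
  ext c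
  constructor
  · rintro ⟨hc, hjump⟩
    by_contra hcon
    rw [Set.mem_union, not_or] at hcon
    obtain ⟨c', h1, h2, h3⟩ := expIdeal_eq_of_not_jump (F := F) (G := G) (H := H) hc hcon.1 hcon.2
    apply hjump c' h1 h2
    rw [C.multiplierIdeal_eq h1, C.multiplierIdeal_eq hc, h3]
  · rintro (⟨m, hm, rfl⟩ | ⟨m, hm, rfl⟩)
    · have hm0 : (4 : ℝ) ≤ m := by exact_mod_cast hm
      refine ⟨by linarith, fun c' h1 h2 => ?_⟩
      rw [C.multiplierIdeal_eq h1, C.multiplierIdeal_eq (by linarith)]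
      exact C.jump_four hm h2
    · have hm0 : (10 : ℝ) ≤ m := by exact_mod_cast hm
      refine ⟨by linarith, fun c' h1 h2 => ?_⟩
      rw [C.multiplierIdeal_eq h1, C.multiplierIdeal_eq (by linarith)]
      exact C.jump_five hm h2

end Config

end Pool.Agent.MPafef76

end
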